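import Pool.Agent.GH.Base
import Pool.Agent.GH.DefsUL
import Pool.Agent.GH.GaussP

/-!
# The p-adic side of the ghost conjecture for odd `p`: definitions

`GP.io : ℤ_p → ℂ_p`, `GP.evp w : ℤ_p[[W]] → ℂ_p` are in `GaussP`. `c = 1 + 2p`.
-/

open PowerSeries Filter Topology

noncomputable section

namespace GH

namespace DP

open GP

variable {p : ℕ} [Fact p.Prime]

/-- The coefficientwise evaluation of a power series over `ℤ_p[[W]]`. -/
def evSp (w : PadicComplex p) (F : PowerSeries (PowerSeries ℤ_[p])) :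
    PowerSeries (PadicComplex p) :=
  PowerSeries.mk fun n ↦ evp w (PowerSeries.coeff n F)

/-- The weight is trivial on the torsion (`p` odd). -/
def Triv (κ : Weight p) : Prop := ∀ ζ : (ℤ_[p])ˣ, ζ ^ (p - 1) = 1 → κ ζ = 1

/-- The p-stabilised Eisenstein series
`1 - 2k/((1-p^(k-1)) B_k) ∑ (∑_{d ∣ n, p ∤ d} d^(k-1)) q^n` over `ℚ`. -/
def eisStabP (p k : ℕ) : PowerSeries ℚ :=
  1 + PowerSeries.mk fun n ↦ -(2 * k / ((1 - (p : ℚ) ^ (k - 1)) * bernoulli k)) *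
    ∑ d ∈ n.divisors, if p ∣ d then 0 else (d : ℚ) ^ (k - 1)

/-- The properties of the universal character `a ↦ kap a` of `ℤ_pˣ` modulo torsion. -/
structure KapFamP (kap : ℕ → PowerSeries ℤ_[p]) : Prop where
  val : ∀ a, ¬ p ∣ a → ∀ κ : Weight p, Triv κ → κ.val a = evp κ.w (kap a)
  dvd : ∀ a, p ∣ a → kap a = 0
  c0 : ∀ a, ¬ p ∣ a → PowerSeries.coeff 0 (kap a) = 1
  gen : kap (1 + 2 * p) = 1 + X
  one : kap 1 = 1
  mul : ∀ a b, ¬ p ∣ a → ¬ p ∣ b → kap (a * b) = kap a * kap b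
  cont : ∀ (m n : ℕ), ∃ N : ℕ, ∀ a b : ℕ, ¬ p ∣ a → ¬ p ∣ b → a ≡ b [MOD p ^ N] →
      ∀ j ≤ m, ‖PowerSeries.coeff j (kap a) - PowerSeries.coeff j (kap b)‖ ≤ (p : ℝ)⁻¹ ^ n
  wlt : ∀ κ : Weight p, Triv κ → ‖κ.w‖ < 1
  nval : ∀ (κ : Weight p) (a : ℕ), p ∣ a → κ.val a = 0

/-- The properties of the Eisenstein family over `ℤ_p[[W]]`. -/
structure EisFamilyP (E : PowerSeries (PowerSeries ℤ_[p])) : Prop where
  c0 : PowerSeries.coeff 0 E = 1
  dvd : ∀ n, 1 ≤ n → X ∣ PowerSeries.coeff n E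
  eig : U p E = E
  eis : ∀ κ : Weight p, Triv κ → κ.eis = evSp κ.w E
  cls : ∀ m : ℕ, 1 ≤ m → evSp ((1 + 2 * (p : PadicComplex p)) ^ ((p - 1) * m) - 1) E =
      PowerSeries.map (algebraMap ℚ (PadicComplex p)) (eisStabP p ((p - 1) * m))

/-- The series `D` over `ℤ_p` as a constant family. -/
def cst (D : PowerSeries ℤ_[p]) : PowerSeries (PowerSeries ℤ_[p]) :=
  PowerSeries.map (PowerSeries.C : ℤ_[p] →+* PowerSeries ℤ_[p]) D

/-- The series `D` over `ℂ_p`. -/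
def cpl (D : PowerSeries ℤ_[p]) : PowerSeries (PadicComplex p) := PowerSeries.map (io p) D

/-- `Φ_l`: the coefficients of `E(q)/E(q^p)` in powers of `f`. -/
def PhiP (E : PowerSeries (PowerSeries ℤ_[p])) (l : ℕ) : PowerSeries ℤ_[p] :=
  fcoeff p (E * invOfUnit (E.expand p (Fact.out : p.Prime).ne_zero) 1) l

/-- The family matrix: `U_p` in the basis `E D f^j`. -/
def famP (D : PowerSeries ℤ_[p]) (E : PowerSeries (PowerSeries ℤ_[p])) (i j : ℕ) :
    PowerSeries ℤ_[p] :=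
  fcoeff p (invOfUnit (E * cst D) 1 *
    U p (E * cst D * hauptmodul p (PowerSeries ℤ_[p]) ^ j)) i

/-- `M` is the matrix of `U_p` in the basis `B f^j`, `j ≥ 1`, `B` a series with constant
term `1`. -/
structure IsUMat (B : PowerSeries (PadicComplex p)) (M : ℕ → ℕ → PadicComplex p) : Prop where
  c0 : PowerSeries.constantCoeff B = 1
  zero : ∀ i j : ℕ, p * i < j → M i j = 0
  mat : ∀ u : PowerSeries (PadicComplex p), PowerSeries.coeff 0 u = 0 →
    U p (B * u.subst (hauptmodul p (PadicComplex p))) =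
      B * (PowerSeries.mk fun i ↦
        ∑ j ∈ Finset.range (p * i + 1), M i j * PowerSeries.coeff j u).subst
        (hauptmodul p (PadicComplex p))

/-- The entries decay with radius `R`. -/
def Dec (R c : ℝ) (M : ℕ → ℕ → PadicComplex p) : Prop :=
  ∀ i j : ℕ, j ≤ p * i → ‖M i j‖ ≤ c * R⁻¹ ^ (p * i - j)

end DP

end GH
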