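import Pool.Agent.GH.DP.ZCharP_x

open PowerSeries Filter Topology

noncomputable section

namespace GH

namespace DP

open GP

variable {p : ℕ} [Fact p.Prime]

/-! Characters of `ℤ_pˣ` trivial on the torsion, `p` odd, and the evaluation map `evp`. -/

theorem exists_evpHom {w : PadicComplex p} (hw : ‖w‖ < 1) :
    ∃ φ : PowerSeries ℤ_[p] →+* PadicComplex p, ∀ F, φ F = evp w F :=
  ⟨dp_zc_evHom hw, fun _ ↦ rfl⟩

theorem norm_evp_le {w : PadicComplex p} (hw : ‖w‖ < 1) (F : PowerSeries ℤ_[p]) :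
    ‖evp w F‖ ≤ 1 := dp_zc_norm_ev_le hw F

theorem evp_X {w : PadicComplex p} (hw : ‖w‖ < 1) : evp w X = w := by
  have _ := hw
  exact dp_zc_ev_X w

theorem evp_C {w : PadicComplex p} (hw : ‖w‖ < 1) (a : ℤ_[p]) :
    evp w (PowerSeries.C a) = io p a := by
  have _ := hw
  exact dp_zc_ev_C w a

theorem dp_zc_pow_apply (κ : Weight p) (k : ℕ) (u : (ℤ_[p])ˣ) : (κ ^ k) u = κ u ^ k := by
  induction k with
  | zero => rw [pow_zero, pow_zero]; rfl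
  | succ k ih =>
    rw [pow_succ, pow_succ, ← ih]
    rfl

theorem dp_zc_base_apply (κ : Weight p) (u : (ℤ_[p])ˣ) :
    κ.base u = κ u * (Weight.incl p u ^ (2 * κ.nu))⁻¹ := by
  rw [← dp_zc_pow_apply]
  rfl

/-- `κ₀ = κ z^{-2ν}` is trivial on the torsion. -/
theorem triv_base (hp2 : p ≠ 2) (κ : Weight p) (h : κ.IsEven) : Triv κ.base := by
  have _ := hp2
  have hp := (Fact.out : p.Prime).two_le
  intro ζ hζ
  have h1 := (κ.nu_spec h).2 ζ (isOfFinOrder_iff_pow_eq_one.mpr ⟨p - 1, by omega, hζ⟩)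
  rw [dp_zc_base_apply, h1, mul_inv_cancel]

/-- The weights `z^{(p-1)m}` are trivial on the torsion. -/
theorem triv_incl_pow (m : ℕ) : Triv ((Weight.incl p) ^ ((p - 1) * m)) := by
  intro ζ hζ
  rw [dp_zc_pow_apply, pow_mul, ← map_pow, hζ, map_one, one_pow]

theorem dp_zc_val (κ : Weight p) {a : ℕ} (u : (ℤ_[p])ˣ) (h : (u : ℤ_[p]) = a) :
    κ.val a = ((κ u : (PadicComplex p)ˣ) : PadicComplex p) := by
  have hu : IsUnit (a : ℤ_[p]) := h ▸ u.isUnit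
  unfold Weight.val
  rw [dif_pos hu]
  have : hu.unit = u := Units.ext (by rw [IsUnit.unit_spec, h])
  rw [this]

theorem dp_zc_incl_val {a : ℕ} (u : (ℤ_[p])ˣ) (h : (u : ℤ_[p]) = a) :
    ((Weight.incl p u : (PadicComplex p)ˣ) : PadicComplex p) = a := by
  show io p (u : ℤ_[p]) = a
  rw [h, map_natCast]

theorem val_incl_pow (k : ℕ) {a : ℕ} (ha : ¬ p ∣ a) :
    ((Weight.incl p) ^ k : Weight p).val a = (a : PadicComplex p) ^ k := by
  obtain ⟨u, hu⟩ := dp_zc_isUnit ha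
  rw [dp_zc_val _ u hu, dp_zc_pow_apply, Units.val_pow_eq_pow_val, dp_zc_incl_val u hu]

theorem w_base (κ : Weight p) :
    κ.w = (1 + 2 * (p : PadicComplex p)) ^ (2 * κ.nu) * (1 + κ.base.w) - 1 := by
  obtain ⟨u, hu⟩ := com_isUnit (p := p)
  unfold Weight.w
  rw [dp_zc_val κ u hu, dp_zc_val κ.base u hu, dp_zc_base_apply, Units.val_mul,
    Units.val_inv_eq_inv_val, Units.val_pow_eq_pow_val, dp_zc_incl_val u hu]
  have hne : (((1 + 2 * p : ℕ) : PadicComplex p)) ^ (2 * κ.nu) ≠ 0 := by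
    refine pow_ne_zero _ ?_
    have h0 : (1 + 2 * p : ℕ) ≠ 0 := by omega
    exact_mod_cast h0
  have e : ((1 + 2 * p : ℕ) : PadicComplex p) = 1 + 2 * (p : PadicComplex p) := by push_cast; rfl
  rw [e] at hne ⊢
  field_simp
  ring

/-- the unit `(1+2p)^s` -/
def dp_zc_u (s : ℤ_[p]) : (ℤ_[p])ˣ :=
  ⟨dp_zc_E p s, dp_zc_E p (-s), dp_zc_E_mul_neg s, by rw [mul_comm]; exact dp_zc_E_mul_neg s⟩

theorem dp_zc_u_val (s : ℤ_[p]) : ((dp_zc_u s : (ℤ_[p])ˣ) : ℤ_[p]) = dp_zc_E p s := rfl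

theorem dp_zc_u_add (s t : ℤ_[p]) : dp_zc_u (s + t) = dp_zc_u s * dp_zc_u t := by
  ext
  rw [Units.val_mul, dp_zc_u_val, dp_zc_u_val, dp_zc_u_val, AddChar.map_add_eq_mul]

theorem dp_zc_u_zero : dp_zc_u (p := p) 0 = 1 := by
  ext
  rw [dp_zc_u_val, AddChar.map_zero_eq_one]
  rfl

theorem dp_zc_u_cont : Continuous (dp_zc_u (p := p)) := by
  rw [Units.continuous_iff]
  exact ⟨dp_zc_E_cont, dp_zc_E_cont.comp continuous_neg⟩

/-- the additive character `s ↦ κ((1+2p)^s)` -/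
def dp_zc_chi (κ : Weight p) : AddChar ℤ_[p] (PadicComplex p) where
  toFun s := ((κ (dp_zc_u s) : (PadicComplex p)ˣ) : PadicComplex p)
  map_zero_eq_one' := by rw [dp_zc_u_zero, map_one, Units.val_one]
  map_add_eq_mul' s t := by rw [dp_zc_u_add, map_mul, Units.val_mul]

theorem dp_zc_chi_apply (κ : Weight p) (s : ℤ_[p]) :
    dp_zc_chi κ s = ((κ (dp_zc_u s) : (PadicComplex p)ˣ) : PadicComplex p) := rfl

theorem dp_zc_chi_cont (κ : Weight p) : Continuous (dp_zc_chi κ) :=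
  Units.continuous_val.comp (κ.continuous_toFun.comp dp_zc_u_cont)

theorem dp_zc_chi_one (κ : Weight p) : dp_zc_chi κ 1 = 1 + κ.w := by
  have h : κ.val (1 + 2 * p) = dp_zc_chi κ 1 := by
    refine dp_zc_val κ (dp_zc_u 1) ?_
    rw [dp_zc_u_val, dp_zc_E_one]
    push_cast
    rfl
  unfold Weight.w
  rw [h]
  ring

/-- the binomial series `(1 + W)^s` -/
def dp_zc_bs (s : ℤ_[p]) : PowerSeries ℤ_[p] := PowerSeries.mk fun n ↦ Ring.choose s n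

theorem dp_zc_bs_add (s t : ℤ_[p]) : dp_zc_bs (s + t) = dp_zc_bs s * dp_zc_bs t := by
  ext n
  rw [PowerSeries.coeff_mul]
  simp only [dp_zc_bs, PowerSeries.coeff_mk]
  exact Ring.add_choose_eq n (Commute.all s t)

theorem dp_zc_bs_zero : dp_zc_bs (p := p) 0 = 1 := by
  ext n
  have h := Ring.choose_natCast (R := ℤ_[p]) 0 n
  rw [Nat.cast_zero] at h
  simp only [dp_zc_bs, PowerSeries.coeff_mk, PowerSeries.coeff_one, h]
  rcases Nat.eq_zero_or_pos n with rfl | hn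
  · simp
  · rw [Nat.choose_eq_zero_of_lt hn, if_neg hn.ne', Nat.cast_zero]

theorem dp_zc_bs_one : dp_zc_bs (p := p) 1 = 1 + X := by
  ext n
  have h := Ring.choose_natCast (R := ℤ_[p]) 1 n
  rw [Nat.cast_one] at h
  rw [map_add, PowerSeries.coeff_one, PowerSeries.coeff_X]
  simp only [dp_zc_bs, PowerSeries.coeff_mk, h]
  rcases n with _ | _ | n
  · simp
  · simp
  · rw [Nat.choose_eq_zero_of_lt (by omega)]
    simp

theorem dp_zc_key (κ : Weight p) : ‖κ.w‖ < 1 ∧ ∀ s, dp_zc_chi κ s = evp κ.w (dp_zc_bs s) := by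
  let A : Algebra ℤ_[p] (PadicComplex p) := (io p).toAlgebra
  have B : @IsBoundedSMul ℤ_[p] (PadicComplex p) _ _ _ _ A.toSMul := by
    refine @IsBoundedSMul.of_norm_smul_le ℤ_[p] (PadicComplex p) _ _ A.toModule ?_
    intro r x
    show ‖io p r * x‖ ≤ ‖r‖ * ‖x‖
    rw [norm_mul, norm_io]
  have h1 := AddChar.tendsto_eval_one_sub_pow (dp_zc_chi_cont κ)
  rw [dp_zc_chi_one, add_sub_cancel_left] at h1
  have hw : ‖κ.w‖ < 1 := tendsto_pow_atTop_nhds_zero_iff_norm_lt_one.1 h1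
  refine ⟨hw, fun s ↦ ?_⟩
  have h2 := PadicInt.eq_addChar_of_value_at_one h1 (dp_zc_chi_cont κ) (dp_zc_chi_one κ)
  rw [h2]
  show PadicInt.mahlerSeries (κ.w ^ ·) s = _
  rw [PadicInt.mahlerSeries_apply h1]
  unfold evp
  refine tsum_congr fun n ↦ ?_
  simp only [dp_zc_bs, PowerSeries.coeff_mk]
  rfl

/-- the exponent `ell(a)`, `a = ζ (1+2p)^ell(a)` -/
def dp_zc_ell (hp2 : p ≠ 2) (a : ℕ) : ℤ_[p] :=
  if h : ¬ p ∣ a then (dp_zc_exists hp2 h).choose else 0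

theorem dp_zc_ell_spec (hp2 : p ≠ 2) {a : ℕ} (h : ¬ p ∣ a) :
    dp_zc_E p (dp_zc_ell hp2 a) ^ (p - 1) = (a : ℤ_[p]) ^ (p - 1) := by
  unfold dp_zc_ell
  rw [dif_pos h]
  exact (dp_zc_exists hp2 h).choose_spec

theorem dp_zc_nd_mul {a b : ℕ} (ha : ¬ p ∣ a) (hb : ¬ p ∣ b) : ¬ p ∣ a * b := by
  intro h
  rcases (Nat.Prime.dvd_mul (Fact.out : p.Prime)).1 h with h | h
  · exact ha h
  · exact hb h

theorem dp_zc_nd_one : ¬ p ∣ 1 := by
  intro h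
  have h1 := Nat.le_of_dvd one_pos h
  have := (Fact.out : p.Prime).two_le
  omega

theorem dp_zc_nd_gen : ¬ p ∣ 1 + 2 * p := by
  intro h
  have h1 : p ∣ 1 := (Nat.dvd_add_left (Dvd.intro_left 2 rfl)).1 h
  exact dp_zc_nd_one h1

theorem dp_zc_ell_mul (hp2 : p ≠ 2) {a b : ℕ} (ha : ¬ p ∣ a) (hb : ¬ p ∣ b) :
    dp_zc_ell hp2 (a * b) = dp_zc_ell hp2 a + dp_zc_ell hp2 b := by
  refine dp_zc_uniq hp2 (dp_zc_ell_spec hp2 (dp_zc_nd_mul ha hb)) ?_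
  rw [AddChar.map_add_eq_mul, mul_pow, dp_zc_ell_spec hp2 ha, dp_zc_ell_spec hp2 hb]
  push_cast
  ring

theorem dp_zc_ell_one (hp2 : p ≠ 2) : dp_zc_ell hp2 1 = 0 := by
  refine dp_zc_uniq hp2 (dp_zc_ell_spec hp2 dp_zc_nd_one) ?_
  rw [AddChar.map_zero_eq_one, Nat.cast_one]

theorem dp_zc_ell_gen (hp2 : p ≠ 2) : dp_zc_ell hp2 (1 + 2 * p) = 1 := by
  refine dp_zc_uniq hp2 (dp_zc_ell_spec hp2 dp_zc_nd_gen) ?_
  rw [dp_zc_E_one]
  push_cast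
  rfl

theorem dp_zc_ell_close (hp2 : p ≠ 2) {a b : ℕ} (ha : ¬ p ∣ a) (hb : ¬ p ∣ b) {N : ℕ}
    (h : ‖(a : ℤ_[p]) - b‖ ≤ (p : ℝ)⁻¹ ^ N) :
    ‖dp_zc_ell hp2 a - dp_zc_ell hp2 b‖ * (p : ℝ)⁻¹ ≤ (p : ℝ)⁻¹ ^ N := by
  rw [← dp_zc_pow_sub hp2, dp_zc_ell_spec hp2 ha, dp_zc_ell_spec hp2 hb]
  obtain ⟨c, hc⟩ := sub_dvd_pow_sub_pow (a : ℤ_[p]) b (p - 1)
  rw [hc, norm_mul]
  exact (mul_le_of_le_one_right (norm_nonneg _) (PadicInt.norm_le_one _)).trans h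

theorem dp_zc_choose_uc (n : ℕ) (m : ℕ) : ∃ δ > 0, ∀ s t : ℤ_[p], ‖s - t‖ < δ →
    ∀ j ≤ m, ‖Ring.choose s j - Ring.choose t j‖ ≤ (p : ℝ)⁻¹ ^ n := by
  have one : ∀ j : ℕ, ∃ δ > 0, ∀ s t : ℤ_[p], ‖s - t‖ < δ →
      ‖Ring.choose s j - Ring.choose t j‖ ≤ (p : ℝ)⁻¹ ^ n := by
    intro j
    have huc : UniformContinuous fun x : ℤ_[p] ↦ Ring.choose x j :=
      CompactSpace.uniformContinuous_of_continuous (PadicInt.continuous_choose j)
    obtain ⟨δ, hδ, h⟩ := Metric.uniformContinuous_iff.1 huc ((p : ℝ)⁻¹ ^ n)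
      (pow_pos dp_zc_inv_pos n)
    refine ⟨δ, hδ, fun s t hst ↦ ?_⟩
    have h1 := h (a := s) (b := t) (by rwa [dist_eq_norm])
    rw [dist_eq_norm] at h1
    exact h1.le
  induction m with
  | zero =>
    obtain ⟨δ, hδ, h⟩ := one 0
    refine ⟨δ, hδ, fun s t hst j hj ↦ ?_⟩
    rw [Nat.le_zero.1 hj]
    exact h s t hst
  | succ m ih =>
    obtain ⟨δ, hδ, h⟩ := ih
    obtain ⟨δ', hδ', h'⟩ := one (m + 1)
    refine ⟨min δ δ', lt_min hδ hδ', fun s t hst j hj ↦ ?_⟩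
    rcases Nat.lt_or_eq_of_le hj with hj | hj
    · exact h s t (hst.trans_le (min_le_left _ _)) j (Nat.lt_succ_iff.1 hj)
    · rw [hj]
      exact h' s t (hst.trans_le (min_le_right _ _))

theorem dp_zc_norm_of_dvd {z : ℤ} {N : ℕ} (h : (p : ℤ) ^ N ∣ z) :
    ‖(z : ℤ_[p])‖ ≤ (p : ℝ)⁻¹ ^ N := by
  have h1 := (PadicInt.norm_int_le_pow_iff_dvd (p := p) (k := z) (n := N)).2 (by exact_mod_cast h)
  rwa [dp_zc_pow_eq]

theorem exists_kapP (hp2 : p ≠ 2) : ∃ kap : ℕ → PowerSeries ℤ_[p], KapFamP kap := by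
  refine ⟨fun a ↦ if p ∣ a then 0 else dp_zc_bs (dp_zc_ell hp2 a), ?_, ?_, ?_, ?_, ?_, ?_, ?_,
    ?_, ?_⟩
  · intro a ha κ hκ
    simp only [if_neg ha]
    rw [← (dp_zc_key κ).2, dp_zc_chi_apply]
    obtain ⟨u, hu⟩ := dp_zc_isUnit ha
    have h1 : κ (u * (dp_zc_u (dp_zc_ell hp2 a))⁻¹) = 1 := by
      refine hκ _ ?_
      rw [mul_pow, inv_pow, mul_inv_eq_one]
      ext
      rw [Units.val_pow_eq_pow_val, Units.val_pow_eq_pow_val, dp_zc_u_val,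
        dp_zc_ell_spec hp2 ha, hu]
    have h2 : κ u = κ (dp_zc_u (dp_zc_ell hp2 a)) := by
      have h3 : u = u * (dp_zc_u (dp_zc_ell hp2 a))⁻¹ * dp_zc_u (dp_zc_ell hp2 a) := by
        rw [inv_mul_cancel_right]
      rw [h3, map_mul, h1, one_mul]
    rw [dp_zc_val κ u hu, h2]
  · intro a ha
    simp only [if_pos ha]
  · intro a ha
    simp only [if_neg ha, dp_zc_bs, PowerSeries.coeff_mk, Ring.choose_zero_right]
  · simp only [if_neg (dp_zc_nd_gen (p := p)), dp_zc_ell_gen, dp_zc_bs_one]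
  · simp only [if_neg (dp_zc_nd_one (p := p)), dp_zc_ell_one, dp_zc_bs_zero]
  · intro a b ha hb
    simp only [if_neg ha, if_neg hb, if_neg (dp_zc_nd_mul ha hb), dp_zc_ell_mul hp2 ha hb,
      dp_zc_bs_add]
  · intro m n
    obtain ⟨δ, hδ, h⟩ := dp_zc_choose_uc (p := p) n m
    obtain ⟨K, hK⟩ := exists_pow_lt_of_lt_one hδ (dp_zc_inv_lt (p := p))
    refine ⟨K + 1, fun a b ha hb hab j hj ↦ ?_⟩
    simp only [if_neg ha, if_neg hb, dp_zc_bs, PowerSeries.coeff_mk]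
    refine h _ _ ?_ j hj
    have h1 : ((p : ℕ) ^ (K + 1) : ℤ) ∣ (a : ℤ) - b := by
      have := (Nat.modEq_iff_dvd.1 hab.symm)
      exact_mod_cast this
    have h2 := dp_zc_norm_of_dvd (p := p) (z := (a : ℤ) - b) (N := K + 1) h1
    push_cast at h2
    have h3 := dp_zc_ell_close hp2 ha hb h2
    rw [pow_succ] at h3
    exact (le_of_mul_le_mul_right h3 dp_zc_inv_pos).trans_lt hK
  · intro κ _
    exact (dp_zc_key κ).1
  · intro κ a ha
    unfold Weight.val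
    rw [dif_neg (dp_zc_not_isUnit ha)]

end DP

end GH
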