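import Pool.Agent.GH.DP.ZCharP
import Pool.Agent.GH.FExp

open PowerSeries Filter Topology

noncomputable section

namespace GH

namespace DP

open GP

variable {p : ℕ} [Fact p.Prime]

/-! The matrix of `U_p` in the basis `E_{κ₀} D f^j` in the family. -/

/-! ### helper lemmas (prefix `dp_fm_`) -/

lemma dp_fm_U_expand_mul {R : Type*} [CommRing R] (F G : PowerSeries R) :
    U p (F.expand p (Fact.out : p.Prime).ne_zero * G) = F * U p G := by
  have hp0 : 0 < p := (Fact.out : p.Prime).pos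
  ext n
  simp only [U, coeff_mk]
  rw [coeff_mul, coeff_mul]
  symm
  refine Finset.sum_of_injOn (fun q ↦ (p * q.1, p * q.2)) ?_ ?_ ?_ ?_
  · intro a _ b _ hab
    simp only [Prod.mk.injEq] at hab
    exact Prod.ext (Nat.eq_of_mul_eq_mul_left hp0 hab.1) (Nat.eq_of_mul_eq_mul_left hp0 hab.2)
  · intro a ha
    simp only [Finset.mem_coe, Finset.HasAntidiagonal.mem_antidiagonal] at ha ⊢
    rw [← mul_add, ha]
  · intro a ha hna
    rw [Finset.HasAntidiagonal.mem_antidiagonal] at ha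
    by_cases h : p ∣ a.1
    · exfalso
      apply hna
      obtain ⟨m, hm⟩ := h
      have hmn : m ≤ n := by
        refine Nat.le_of_mul_le_mul_left (?_ : p * m ≤ p * n) hp0
        omega
      refine ⟨(m, n - m), ?_, ?_⟩
      · simp only [Finset.mem_coe, Finset.HasAntidiagonal.mem_antidiagonal]
        omega
      · refine Prod.ext (by simp [hm]) ?_
        show p * (n - m) = a.2
        rw [Nat.mul_sub]
        omega
    · rw [coeff_expand_of_not_dvd _ _ _ h, zero_mul]
  · intro a _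
    simp only [coeff_mk]
    rw [coeff_expand_mul]

omit [Fact p.Prime] in
lemma dp_fm_map_U {R S : Type*} [CommRing R] [CommRing S] (φ : R →+* S) (F : PowerSeries R) :
    PowerSeries.map φ (U p F) = U p (PowerSeries.map φ F) := by
  ext n
  simp [U]

lemma dp_fm_mul_invOfUnit {R : Type*} [CommRing R] {F : PowerSeries R}
    (h : PowerSeries.constantCoeff F = 1) : F * invOfUnit F 1 = 1 :=
  PowerSeries.mul_invOfUnit _ _ (by rw [h]; rfl)

lemma dp_fm_c_map {R S : Type*} [CommRing R] [CommRing S] (φ : R →+* S) {F : PowerSeries R}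
    (h : PowerSeries.constantCoeff F = 1) : PowerSeries.constantCoeff (PowerSeries.map φ F) = 1 := by
  rw [← PowerSeries.coeff_zero_eq_constantCoeff_apply, PowerSeries.coeff_map,
    PowerSeries.coeff_zero_eq_constantCoeff_apply, h, map_one]

lemma dp_fm_map_invOfUnit {R : Type*} [CommRing R] (φ : R →+* PadicComplex p) {F : PowerSeries R}
    (h : PowerSeries.constantCoeff F = 1) :
    PowerSeries.map φ (invOfUnit F 1) = (PowerSeries.map φ F)⁻¹ := by
  rw [PowerSeries.eq_inv_iff_mul_eq_one, ← map_mul, mul_comm, dp_fm_mul_invOfUnit h, map_one]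
  rw [dp_fm_c_map φ h]
  exact one_ne_zero

lemma dp_fm_evS {w : PadicComplex p} (φ : PowerSeries ℤ_[p] →+* PadicComplex p)
    (hφ : ∀ F, φ F = evp w F) (F : PowerSeries (PowerSeries ℤ_[p])) :
    evSp w F = PowerSeries.map φ F := by
  ext n
  rw [PowerSeries.coeff_map, hφ]
  unfold evSp
  rw [PowerSeries.coeff_mk]

lemma dp_fm_evS_cst {w : PadicComplex p} (hw : ‖w‖ < 1)
    (φ : PowerSeries ℤ_[p] →+* PadicComplex p)
    (hφ : ∀ F, φ F = evp w F) (D : PowerSeries ℤ_[p]) :
    PowerSeries.map φ (cst D) = cpl D := by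
  ext n
  unfold cst cpl
  rw [PowerSeries.coeff_map, PowerSeries.coeff_map, PowerSeries.coeff_map, hφ, evp_C hw]

lemma dp_fm_cE {E : PowerSeries (PowerSeries ℤ_[p])} (hE : EisFamilyP E) :
    PowerSeries.constantCoeff E = 1 := by
  rw [← PowerSeries.coeff_zero_eq_constantCoeff_apply, hE.c0]

lemma dp_fm_cst {D : PowerSeries ℤ_[p]} (hD : PowerSeries.constantCoeff D = 1) :
    PowerSeries.constantCoeff (cst D) = 1 := dp_fm_c_map _ hD

lemma dp_fm_cpl {D : PowerSeries ℤ_[p]} (hD : PowerSeries.constantCoeff D = 1) :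
    PowerSeries.constantCoeff (cpl D) = 1 := dp_fm_c_map _ hD

lemma dp_fm_cED {E : PowerSeries (PowerSeries ℤ_[p])} (hE : EisFamilyP E)
    {D : PowerSeries ℤ_[p]} (hD : PowerSeries.constantCoeff D = 1) :
    PowerSeries.constantCoeff (E * cst D) = 1 := by
  rw [map_mul, dp_fm_cE hE, dp_fm_cst hD, one_mul]

lemma dp_fm_cEw {E : PowerSeries (PowerSeries ℤ_[p])} (hE : EisFamilyP E) {w : PadicComplex p}
    (hw : ‖w‖ < 1) : PowerSeries.constantCoeff (evSp w E) = 1 := by
  obtain ⟨φ, hφ⟩ := exists_evpHom hw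
  rw [dp_fm_evS φ hφ]
  exact dp_fm_c_map φ (dp_fm_cE hE)

/-- the matrix after evaluation -/
lemma dp_fm_ev_fam {E : PowerSeries (PowerSeries ℤ_[p])} (hE : EisFamilyP E)
    {D : PowerSeries ℤ_[p]} (hD : PowerSeries.constantCoeff D = 1)
    {w : PadicComplex p} (hw : ‖w‖ < 1) (i j : ℕ) :
    evp w (famP D E i j) =
      fcoeff p ((evSp w E * cpl D)⁻¹ *
        U p (evSp w E * cpl D * hauptmodul p (PadicComplex p) ^ j)) i := by
  obtain ⟨φ, hφ⟩ := exists_evpHom hw
  have hED : PowerSeries.map φ (E * cst D) = evSp w E * cpl D := by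
    rw [map_mul, dp_fm_evS φ hφ, dp_fm_evS_cst hw φ hφ]
  rw [← hφ, famP, ← fcoeff_map p φ, map_mul, dp_fm_map_invOfUnit φ (dp_fm_cED hE hD),
    dp_fm_map_U, map_mul (PowerSeries.map φ) (E * cst D), map_pow, map_hauptmodul, hED]

lemma dp_fm_ev_Phi {E : PowerSeries (PowerSeries ℤ_[p])} (hE : EisFamilyP E)
    {w : PadicComplex p} (hw : ‖w‖ < 1) (l : ℕ) :
    evp w (PhiP E l) = fcoeff p (evSp w E *
      ((evSp w E).expand p (Fact.out : p.Prime).ne_zero)⁻¹) l := by
  obtain ⟨φ, hφ⟩ := exists_evpHom hw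
  rw [← hφ, PhiP, ← fcoeff_map p φ, map_mul, dp_fm_map_invOfUnit φ, PowerSeries.map_expand,
    dp_fm_evS φ hφ]
  rw [PowerSeries.constantCoeff_expand, dp_fm_cE hE]

theorem uMatrixU_eq (hp2 : p ≠ 2) (E : PowerSeries (PowerSeries ℤ_[p])) (hE : EisFamilyP E)
    (D : PowerSeries ℤ_[p]) (hD : PowerSeries.constantCoeff D = 1) (κ : Weight p)
    (hκ : κ.IsEven) (hDκ : ((Weight.incl p) ^ (2 * κ.nu) : Weight p).eis = cpl D) (i j : ℕ) :
    κ.uMatrixU i j = evp κ.base.w (famP D E i j) := by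
  obtain ⟨kap, hkap⟩ := exists_kapP (p := p) hp2
  have hT := triv_base hp2 κ hκ
  rw [dp_fm_ev_fam hE hD (hkap.wlt κ.base hT), Weight.uMatrixU, Weight.frame,
    hE.eis κ.base hT, hDκ]

omit [Fact p.Prime] in
lemma dp_fm_fcoeff_zero {R : Type*} [CommRing R] (F : PowerSeries R) {i : ℕ}
    (h : ∀ n ≤ i, PowerSeries.coeff n F = 0) : ∀ n ≤ i, fcoeff p F n = 0 := by
  intro n
  induction n using Nat.strong_induction_on with
  | _ n ih =>
    intro hn
    rw [fx_fcoeff, h n hn, Finset.sum_eq_zero, sub_zero]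
    intro m hm
    rw [Finset.mem_range] at hm
    rw [ih m hm (by omega), zero_mul]

theorem famP_of_lt (E : PowerSeries (PowerSeries ℤ_[p])) (hE : EisFamilyP E)
    (D : PowerSeries ℤ_[p]) (hD : PowerSeries.constantCoeff D = 1) {i j : ℕ}
    (h : p * i < j) : famP D E i j = 0 := by
  unfold famP
  refine dp_fm_fcoeff_zero _ (i := i) (fun n hn => ?_) i le_rfl
  rw [PowerSeries.coeff_mul]
  refine Finset.sum_eq_zero fun ab hab => ?_
  rw [Finset.HasAntidiagonal.mem_antidiagonal] at hab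
  have h1 : PowerSeries.coeff ab.2
      (U p (E * cst D * hauptmodul p (PowerSeries ℤ_[p]) ^ j)) = 0 := by
    unfold U
    rw [PowerSeries.coeff_mk, PowerSeries.coeff_mul]
    refine Finset.sum_eq_zero fun cd hcd => ?_
    rw [Finset.HasAntidiagonal.mem_antidiagonal] at hcd
    have h2 : p * ab.2 ≤ p * i := Nat.mul_le_mul_left p (by omega)
    rw [fx_coeff_pow_lt p (by omega), mul_zero]
  rw [h1, mul_zero]

/-- the product of a series in `f` and `f^j` -/
lemma dp_fm_subst_mul_pow (u : PowerSeries (PadicComplex p)) (j : ℕ) :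
    u.subst (hauptmodul p (PadicComplex p)) * hauptmodul p (PadicComplex p) ^ j =
      (u * X ^ j).subst (hauptmodul p (PadicComplex p)) := by
  rw [PowerSeries.subst_mul (fx_hasSubst p),
    ← coe_substAlgHom (fx_hasSubst (R := PadicComplex p) p), map_pow, substAlgHom_X]

lemma dp_fm_coeff_mul_X_pow (u : PowerSeries (PadicComplex p)) (j k : ℕ) :
    PowerSeries.coeff k (u * X ^ j) = if j ≤ k then PowerSeries.coeff (k - j) u else 0 :=
  PowerSeries.coeff_mul_X_pow' _ _ _

lemma dp_fm_coeff_zero_mul_X_pow (u : PowerSeries (PadicComplex p)) {j : ℕ} (hj : 1 ≤ j) :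
    PowerSeries.coeff 0 (u * X ^ j) = 0 := by
  rw [dp_fm_coeff_mul_X_pow, if_neg (by omega)]

/-- Reduction to the weight of `D`. -/
theorem evp_famP (E : PowerSeries (PowerSeries ℤ_[p])) (hE : EisFamilyP E)
    (D : PowerSeries ℤ_[p]) (hD : PowerSeries.constantCoeff D = 1)
    (M : ℕ → ℕ → PadicComplex p) (hM : IsUMat (cpl D) M)
    {w : PadicComplex p} (hw : ‖w‖ < 1) (i : ℕ) {j : ℕ} (hj : 1 ≤ j) :
    evp w (famP D E i j) =
      ∑ k ∈ Finset.range (p * i + 1),
        if j ≤ k then M i k * evp w (PhiP E (k - j)) else 0 := by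
  have hc : PowerSeries.constantCoeff (evSp w E) = 1 := dp_fm_cEw hE hw
  have hp0 : p ≠ 0 := (Fact.out : p.Prime).ne_zero
  set E' := evSp w E with hE'
  have hc2 : PowerSeries.constantCoeff (E'.expand p (Fact.out : p.Prime).ne_zero) ≠ 0 := by
    rw [PowerSeries.constantCoeff_expand, hc]
    exact one_ne_zero
  have hc1 : PowerSeries.constantCoeff (E' * cpl D) ≠ 0 := by
    rw [map_mul, hc, dp_fm_cpl hD, one_mul]
    exact one_ne_zero
  set Φ : PowerSeries (PadicComplex p) := PowerSeries.mk (fcoeff p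
    (E' * (E'.expand p (Fact.out : p.Prime).ne_zero)⁻¹)) with hΦ
  have h1 : Φ.subst (hauptmodul p (PadicComplex p)) =
      E' * (E'.expand p (Fact.out : p.Prime).ne_zero)⁻¹ := subst_fcoeff p _
  have h2 : E' * cpl D * hauptmodul p (PadicComplex p) ^ j =
      E'.expand p (Fact.out : p.Prime).ne_zero *
        (cpl D * (Φ * X ^ j).subst (hauptmodul p (PadicComplex p))) := by
    rw [← dp_fm_subst_mul_pow, h1]
    calc E' * cpl D * hauptmodul p (PadicComplex p) ^ j
        = E' * cpl D * hauptmodul p (PadicComplex p) ^ j *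
          (E'.expand p (Fact.out : p.Prime).ne_zero *
            (E'.expand p (Fact.out : p.Prime).ne_zero)⁻¹) := by
          rw [PowerSeries.mul_inv_cancel _ hc2, mul_one]
      _ = _ := by ring
  have h3 := hM.mat (Φ * X ^ j) (dp_fm_coeff_zero_mul_X_pow Φ hj)
  rw [dp_fm_ev_fam hE hD hw, ← hE', h2, dp_fm_U_expand_mul, h3, ← mul_assoc E', ← mul_assoc,
    PowerSeries.inv_mul_cancel _ hc1, one_mul, fcoeff_subst]
  show PowerSeries.coeff i (PowerSeries.mk _) = _
  rw [PowerSeries.coeff_mk]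
  refine Finset.sum_congr rfl fun k _ => ?_
  rw [dp_fm_coeff_mul_X_pow]
  split_ifs with hjk
  · rw [dp_fm_ev_Phi hE hw, hΦ, PowerSeries.coeff_mk]
  · rw [mul_zero]

/-- Decay for all weights. -/
theorem norm_famP_le (E : PowerSeries (PowerSeries ℤ_[p])) (hE : EisFamilyP E)
    (D : PowerSeries ℤ_[p]) (hD : PowerSeries.constantCoeff D = 1)
    (M : ℕ → ℕ → PadicComplex p) (hM : IsUMat (cpl D) M) (R c : ℝ) (hR : 1 < R)
    (hMd : Dec R c M)
    (hc : ∀ w : PadicComplex p, ‖w‖ ≤ (p : ℝ)⁻¹ → ∀ l, ‖evp w (PhiP E l)‖ * R ^ l ≤ 1)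
    (ρ : ℝ) (hρ : ρ < 1) :
    ∃ R' : ℝ, 1 < R' ∧ ∃ c' : ℝ, 0 < c' ∧ ∀ w : PadicComplex p, ‖w‖ ≤ ρ → ∀ i j : ℕ, 1 ≤ j →
      j ≤ p * i → ‖evp w (famP D E i j)‖ ≤ c' * R'⁻¹ ^ (p * i - j) := by
  have hp1 : (1 : ℝ) < p := by exact_mod_cast (Fact.out : p.Prime).one_lt
  have hp0 : (0 : ℝ) < p := zero_lt_one.trans hp1
  have hρ0 : max ρ 0 < 1 := max_lt hρ zero_lt_one
  obtain ⟨N, hN⟩ := exists_pow_lt_of_lt_one (show (0 : ℝ) < (p : ℝ)⁻¹ by positivity) hρ0
  have hN0 : N ≠ 0 := by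
    rintro rfl
    rw [pow_zero] at hN
    exact absurd hN (not_lt.2 (inv_le_one_of_one_le₀ hp1.le))
  have hRp : 0 < R := zero_lt_one.trans hR
  set R' : ℝ := R ^ ((N : ℝ)⁻¹) with hR'
  have hRN : R' ^ N = R := by
    rw [hR', ← Real.rpow_natCast, ← Real.rpow_mul hRp.le,
      inv_mul_cancel₀ (by exact_mod_cast hN0), Real.rpow_one]
  have hR1 : 1 < R' := Real.one_lt_rpow hR (by positivity)
  have hR0 : 0 < R' := zero_lt_one.trans hR1
  have hRR : R' ≤ R := by
    have h1 : R' ≤ R' ^ N := le_self_pow₀ hR1.le hN0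
    rwa [hRN] at h1
  refine ⟨R', hR1, max c 1, lt_max_of_lt_right one_pos, fun w hw i j hj hij => ?_⟩
  have hw0 : ‖w‖ ≤ max ρ 0 := hw.trans (le_max_left _ _)
  have hw1 : ‖w‖ < 1 := lt_of_le_of_lt hw hρ
  -- the bound for the coefficients
  have hP : ∀ l : ℕ, ‖evp w (PhiP E l)‖ ≤ R'⁻¹ ^ l := by
    intro l
    unfold evp
    refine IsUltrametricDist.norm_tsum_le_of_forall_le_of_nonneg (by positivity) fun m => ?_
    have h1 : ‖io p (PowerSeries.coeff m (PhiP E l))‖ ≤ (p : ℝ) ^ m * R⁻¹ ^ l := by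
      rw [norm_io]
      have h0 := norm_coeff_le_of_bound (e := 1) one_ne_zero (PhiP E l) (R⁻¹ ^ l)
        (fun w' hw' => ?_) m
      · rwa [pow_one] at h0
      · rw [pow_one] at hw'
        have h2 := hc w' hw' l
        rw [inv_pow, ← one_div, le_div_iff₀ (by positivity)]
        exact h2
    have h2 : ‖io p (PowerSeries.coeff m (PhiP E l))‖ ≤ 1 :=
      (norm_io _).le.trans (PadicInt.norm_le_one _)
    have h3 : (‖io p (PowerSeries.coeff m (PhiP E l)) * w ^ m‖) ^ N ≤ (R'⁻¹ ^ l) ^ N := by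
      have h4 : ‖io p (PowerSeries.coeff m (PhiP E l))‖ ^ N ≤ (p : ℝ) ^ m * R⁻¹ ^ l :=
        (pow_le_of_le_one (norm_nonneg _) h2 hN0).trans h1
      have h5 : (‖w‖ ^ m) ^ N ≤ ((p : ℝ)⁻¹) ^ m := by
        rw [← pow_mul, mul_comm m N, pow_mul]
        exact pow_le_pow_left₀ (by positivity)
          ((pow_le_pow_left₀ (norm_nonneg _) hw0 N).trans hN.le) m
      rw [norm_mul, norm_pow, mul_pow]
      calc _ ≤ ((p : ℝ) ^ m * R⁻¹ ^ l) * ((p : ℝ)⁻¹) ^ m :=
            mul_le_mul h4 h5 (by positivity) (by positivity)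
        _ = R⁻¹ ^ l := by
            rw [mul_right_comm, ← mul_pow, mul_inv_cancel₀ hp0.ne', one_pow, one_mul]
        _ = (R'⁻¹ ^ l) ^ N := by
            rw [← pow_mul, mul_comm l N, pow_mul, inv_pow R' N, hRN]
    exact (pow_le_pow_iff_left₀ (norm_nonneg _) (by positivity) hN0).1 h3
  have hc1 : 0 ≤ max c 1 := zero_le_one.trans (le_max_right _ _)
  rw [evp_famP E hE D hD M hM hw1 i hj]
  refine IsUltrametricDist.norm_sum_le_of_forall_le_of_nonneg (by positivity) fun k hk => ?_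
  rw [Finset.mem_range] at hk
  split_ifs with hjk
  · have hk' : k ≤ p * i := by omega
    rw [norm_mul]
    calc ‖M i k‖ * ‖evp w (PhiP E (k - j))‖
        ≤ (max c 1 * R'⁻¹ ^ (p * i - k)) * R'⁻¹ ^ (k - j) := by
          refine mul_le_mul ?_ (hP _) (norm_nonneg _) (by positivity)
          refine (hMd i k hk').trans ?_
          refine mul_le_mul (le_max_left _ _) ?_ (by positivity) hc1
          refine pow_le_pow_left₀ (by positivity) ?_ _
          exact inv_anti₀ hR0 hRR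
      _ = max c 1 * R'⁻¹ ^ (p * i - j) := by
          rw [mul_assoc, ← pow_add]
          congr 2
          omega
  · rw [norm_zero]
    positivity

/-- Change of basis on the central disc: `E_{κ₀} = B u(f)`, `M` the matrix of `U_p` in the basis
`B D f^j`. -/
theorem mat_mul_uP (E : PowerSeries (PowerSeries ℤ_[p])) (hE : EisFamilyP E)
    (D : PowerSeries ℤ_[p]) (hD : PowerSeries.constantCoeff D = 1)
    (B : PowerSeries (PadicComplex p)) (hB : PowerSeries.constantCoeff B = 1)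
    (M : ℕ → ℕ → PadicComplex p) (hM : IsUMat (B * cpl D) M)
    {w : PadicComplex p} (hw : ‖w‖ < 1) (u : ℕ → PadicComplex p) (hu0 : u 0 = 1)
    (hu : evSp w E = B * (PowerSeries.mk u).subst (hauptmodul p (PadicComplex p)))
    (i : ℕ) {j : ℕ} (hj : 1 ≤ j) :
    ∑ k ∈ Finset.range (p * i + 1), (if j ≤ k then M i k * u (k - j) else 0) =
      ∑ k ∈ Finset.range (i + 1), u (i - k) * evp w (famP D E k j) := by
  set f := hauptmodul p (PadicComplex p) with hf
  have hfs : HasSubst f := fx_hasSubst p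
  set uS : PowerSeries (PadicComplex p) := PowerSeries.mk u with huS
  have hcE : PowerSeries.constantCoeff (evSp w E * cpl D) ≠ 0 := by
    rw [map_mul, dp_fm_cEw hE hw, dp_fm_cpl hD, one_mul]
    exact one_ne_zero
  have ht : B * cpl D ≠ 0 := by
    intro h
    have h1 := hM.c0
    rw [h, map_zero] at h1
    exact zero_ne_one h1
  set Cj : PowerSeries (PadicComplex p) := PowerSeries.mk fun k ↦ evp w (famP D E k j) with hCj
  have h1 : U p (evSp w E * cpl D * f ^ j) = evSp w E * cpl D * Cj.subst f := by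
    have h2 : Cj = PowerSeries.mk (fcoeff p ((evSp w E * cpl D)⁻¹ *
        U p (evSp w E * cpl D * f ^ j))) := by
      ext k
      rw [hCj, PowerSeries.coeff_mk, PowerSeries.coeff_mk, dp_fm_ev_fam hE hD hw]
    rw [h2, hf, subst_fcoeff, ← mul_assoc, PowerSeries.mul_inv_cancel _ hcE, one_mul]
  have h2 := hM.mat (uS * X ^ j) (dp_fm_coeff_zero_mul_X_pow uS hj)
  have e1 : B * cpl D * (uS * X ^ j).subst (hauptmodul p (PadicComplex p)) =
      evSp w E * cpl D * f ^ j := by
    rw [← dp_fm_subst_mul_pow, ← hf, hu]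
    ring
  have e2 : evSp w E * cpl D * Cj.subst f = B * cpl D * (uS.subst f * Cj.subst f) := by
    rw [hu]
    ring
  rw [e1, h1, e2] at h2
  have h3 := mul_left_cancel₀ ht h2
  rw [← PowerSeries.subst_mul hfs] at h3
  have h4 := congrArg (fun F => fcoeff p F i) h3
  simp only [hf, fcoeff_subst] at h4
  rw [PowerSeries.coeff_mk, PowerSeries.coeff_mul,
    Finset.Nat.sum_antidiagonal_eq_sum_range_succ
      (fun a b => PowerSeries.coeff a uS * PowerSeries.coeff b Cj)] at h4
  have h5 : ∑ k ∈ Finset.range (i + 1), u (i - k) * evp w (famP D E k j) =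
      ∑ k ∈ Finset.range (i + 1), PowerSeries.coeff k uS * PowerSeries.coeff (i - k) Cj := by
    rw [← Finset.sum_range_reflect]
    refine Finset.sum_congr rfl fun k hk => ?_
    rw [Finset.mem_range] at hk
    rw [huS, hCj, PowerSeries.coeff_mk, PowerSeries.coeff_mk]
    have e1 : i - (i + 1 - 1 - k) = k := by omega
    have e2 : i + 1 - 1 - k = i - k := by omega
    rw [e1, e2]
  rw [h5, h4]
  refine Finset.sum_congr rfl fun k _ => ?_
  rw [dp_fm_coeff_mul_X_pow]
  split_ifs with hjk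
  · rw [huS, PowerSeries.coeff_mk]
  · rw [mul_zero]

end DP

end GH
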