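import Pool.Agent.GH.DP.BaseP
import Pool.Agent.GH.FExp

open PowerSeries Filter Topology

noncomputable section

namespace GH

namespace DP

open GP

variable {p : ℕ} [Fact p.Prime]

/-- The matrix in the new basis. -/
def dpc_M (p : ℕ) [Fact p.Prime] (M : ℕ → ℕ → PadicComplex p)
    (w w' : PowerSeries (PadicComplex p)) (i j : ℕ) : PadicComplex p :=
  ∑ a ∈ Finset.range (i + 1), (∑ k ∈ Finset.range (p * a + 1),
    if j ≤ k then M a k * PowerSeries.coeff (k - j) w else 0) * PowerSeries.coeff (i - a) w'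

theorem dpc_mul {R : Type*} [CommRing R] (F G : PowerSeries R) (n : ℕ) :
    PowerSeries.coeff n (F * G) =
      ∑ k ∈ Finset.range (n + 1), PowerSeries.coeff k F * PowerSeries.coeff (n - k) G := by
  rw [PowerSeries.coeff_mul]
  exact Finset.Nat.sum_antidiagonal_eq_sum_range_succ
    (fun x y ↦ PowerSeries.coeff x F * PowerSeries.coeff y G) n

theorem dpc_series (M : ℕ → ℕ → PadicComplex p) (w w' u : PowerSeries (PadicComplex p)) :
    (PowerSeries.mk fun i ↦ ∑ j ∈ Finset.range (p * i + 1), M i j *
      PowerSeries.coeff j (u * w)) * w' =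
    PowerSeries.mk fun i ↦
      ∑ j ∈ Finset.range (p * i + 1), dpc_M p M w w' i j * PowerSeries.coeff j u := by
  ext1 i
  rw [dpc_mul, PowerSeries.coeff_mk]
  simp only [PowerSeries.coeff_mk]
  unfold dpc_M
  have h1 : ∀ j ∈ Finset.range (p * i + 1), (∑ a ∈ Finset.range (i + 1),
      (∑ k ∈ Finset.range (p * a + 1),
        if j ≤ k then M a k * PowerSeries.coeff (k - j) w else 0) *
          PowerSeries.coeff (i - a) w') * PowerSeries.coeff j u =
      ∑ a ∈ Finset.range (i + 1), ∑ k ∈ Finset.range (p * a + 1),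
        (if j ≤ k then M a k * PowerSeries.coeff (k - j) w else 0) *
          PowerSeries.coeff (i - a) w' * PowerSeries.coeff j u := by
    intro j _
    rw [Finset.sum_mul]
    refine Finset.sum_congr rfl fun a _ ↦ ?_
    rw [Finset.sum_mul, Finset.sum_mul]
  rw [Finset.sum_congr rfl h1, Finset.sum_comm]
  refine Finset.sum_congr rfl fun a ha ↦ ?_
  rw [Finset.sum_comm, Finset.sum_mul]
  refine Finset.sum_congr rfl fun k hk ↦ ?_
  have hai : a ≤ i := Nat.lt_succ_iff.1 (Finset.mem_range.1 ha)
  have hka : k ≤ p * a := Nat.lt_succ_iff.1 (Finset.mem_range.1 hk)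
  have hpi : p * a ≤ p * i := Nat.mul_le_mul_left p hai
  have h2 : ∀ j ∈ Finset.range (p * i + 1),
      (if j ≤ k then M a k * PowerSeries.coeff (k - j) w else 0) *
        PowerSeries.coeff (i - a) w' * PowerSeries.coeff j u =
      if j ≤ k then M a k * PowerSeries.coeff (k - j) w *
        PowerSeries.coeff (i - a) w' * PowerSeries.coeff j u else 0 := by
    intro j _
    split_ifs
    · rfl
    · rw [zero_mul, zero_mul]
  rw [Finset.sum_congr rfl h2, ← Finset.sum_filter]
  have h3 : (Finset.range (p * i + 1)).filter (fun j ↦ j ≤ k) = Finset.range (k + 1) := by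
    ext j
    rw [Finset.mem_filter, Finset.mem_range, Finset.mem_range]
    omega
  rw [h3, dpc_mul, Finset.mul_sum, Finset.sum_mul]
  refine Finset.sum_congr rfl fun j _ ↦ ?_
  ring

/-- Change of basis by a function `w(f)`. -/
theorem IsUMat.change {B : PowerSeries (PadicComplex p)} {M : ℕ → ℕ → PadicComplex p}
    (hM : IsUMat B M) (w w' : PowerSeries (PadicComplex p)) (hw : w * w' = 1)
    (hw0 : PowerSeries.constantCoeff w = 1) {R c : ℝ} (hR : 1 < R) (hc : 0 ≤ c)
    (hwb : ∀ n, ‖PowerSeries.coeff n w‖ * R ^ n ≤ 1)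
    (hwb' : ∀ n, ‖PowerSeries.coeff n w'‖ * (R ^ p) ^ n ≤ 1) (hd : Dec R c M) :
    ∃ M' : ℕ → ℕ → PadicComplex p,
      IsUMat (B * w.subst (hauptmodul p (PadicComplex p))) M' ∧ Dec R c M' := by
  have hb : ∀ n, ‖PowerSeries.coeff n w‖ ≤ R⁻¹ ^ n := fun n ↦ by
    rw [inv_pow, ← one_div, le_div_iff₀ (pow_pos (by linarith) n)]
    exact hwb n
  have hb' : ∀ n, ‖PowerSeries.coeff n w'‖ ≤ R⁻¹ ^ (p * n) := fun n ↦ by
    rw [inv_pow, ← one_div, le_div_iff₀ (pow_pos (by linarith) _), pow_mul]
    exact hwb' n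
  have hR0 : 0 ≤ R⁻¹ := inv_nonneg.2 (by linarith)
  refine ⟨dpc_M p M w w', ⟨?_, ?_, ?_⟩, ?_⟩
  · have h1 : PowerSeries.constantCoeff (w.subst (hauptmodul p (PadicComplex p))) = 1 := by
      rw [← PowerSeries.coeff_zero_eq_constantCoeff_apply, fx_coeff_subst,
        Finset.range_zero, Finset.sum_empty, zero_add,
        PowerSeries.coeff_zero_eq_constantCoeff_apply, hw0]
    rw [map_mul, hM.c0, h1, one_mul]
  · intro i j hij
    unfold dpc_M
    refine Finset.sum_eq_zero fun a ha ↦ ?_
    have hai : a ≤ i := Nat.lt_succ_iff.1 (Finset.mem_range.1 ha)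
    rw [Finset.sum_eq_zero, zero_mul]
    intro k hk
    have hka : k ≤ p * a := Nat.lt_succ_iff.1 (Finset.mem_range.1 hk)
    have hpi : p * a ≤ p * i := Nat.mul_le_mul_left p hai
    rw [if_neg (by omega)]
  · intro u hu
    have h1 : PowerSeries.coeff 0 (u * w) = 0 := by
      rw [PowerSeries.coeff_zero_eq_constantCoeff_apply, map_mul,
        ← PowerSeries.coeff_zero_eq_constantCoeff_apply, hu, zero_mul]
    have h2 := hM.mat (u * w) h1
    have hs : HasSubst (hauptmodul p (PadicComplex p)) := fx_hasSubst p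
    rw [← dpc_series, PowerSeries.subst_mul hs]
    have h3 : B * w.subst (hauptmodul p (PadicComplex p)) *
        u.subst (hauptmodul p (PadicComplex p)) =
        B * (u * w).subst (hauptmodul p (PadicComplex p)) := by
      rw [PowerSeries.subst_mul hs]
      ring
    have h4 : w.subst (hauptmodul p (PadicComplex p)) *
        w'.subst (hauptmodul p (PadicComplex p)) = 1 := by
      rw [← PowerSeries.subst_mul hs, hw, ← coe_substAlgHom hs, map_one]
    rw [h3, h2]
    linear_combination (-(B * (PowerSeries.mk fun i ↦ ∑ j ∈ Finset.range (p * i + 1), M i j *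
      PowerSeries.coeff j (u * w)).subst (hauptmodul p (PadicComplex p)))) * h4
  · intro i j hij
    unfold dpc_M
    refine IsUltrametricDist.norm_sum_le_of_forall_le_of_nonneg (by positivity) fun a ha ↦ ?_
    have hai : a ≤ i := Nat.lt_succ_iff.1 (Finset.mem_range.1 ha)
    have hpi : p * a ≤ p * i := Nat.mul_le_mul_left p hai
    have hsub : p * (i - a) = p * i - p * a := Nat.mul_sub p i a
    rw [norm_mul]
    by_cases hj : j ≤ p * a
    · have h1 : ‖∑ k ∈ Finset.range (p * a + 1),
          if j ≤ k then M a k * PowerSeries.coeff (k - j) w else 0‖ ≤ c * R⁻¹ ^ (p * a - j) := by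
        refine IsUltrametricDist.norm_sum_le_of_forall_le_of_nonneg (by positivity) fun k hk ↦ ?_
        have hka : k ≤ p * a := Nat.lt_succ_iff.1 (Finset.mem_range.1 hk)
        split_ifs with h2
        · rw [norm_mul]
          calc ‖M a k‖ * ‖PowerSeries.coeff (k - j) w‖ ≤
              (c * R⁻¹ ^ (p * a - k)) * R⁻¹ ^ (k - j) :=
                mul_le_mul (hd a k hka) (hb _) (norm_nonneg _) (by positivity)
            _ = c * R⁻¹ ^ (p * a - j) := by
                rw [mul_assoc, ← pow_add]
                congr 2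
                omega
        · rw [norm_zero]
          positivity
      calc ‖∑ k ∈ Finset.range (p * a + 1),
          if j ≤ k then M a k * PowerSeries.coeff (k - j) w else 0‖ *
            ‖PowerSeries.coeff (i - a) w'‖ ≤
          (c * R⁻¹ ^ (p * a - j)) * R⁻¹ ^ (p * (i - a)) :=
            mul_le_mul h1 (hb' _) (norm_nonneg _) (by positivity)
        _ = c * R⁻¹ ^ (p * i - j) := by
            rw [mul_assoc, ← pow_add]
            congr 2
            omega
    · rw [Finset.sum_eq_zero, norm_zero, zero_mul]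
      · positivity
      · intro k hk
        have hka : k ≤ p * a := Nat.lt_succ_iff.1 (Finset.mem_range.1 hk)
        rw [if_neg (by omega)]

end DP

end GH
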