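import Pool.Agent.GH.DP.BaseP

open PowerSeries Filter Topology

noncomputable section

namespace GH

namespace DP

open GP

variable {p : ℕ} [Fact p.Prime]

/-! The p-adic zeta integral as a unit of `ℤ_p[[W]]`, `p` odd. -/

/-! ### the measure -/

/-- `⌊(1+2p)a/p^n⌋ - p` -/
def dp_zi_m (p n a : ℕ) : ℤ := (((1 + 2 * p) * a / p ^ n : ℕ) : ℤ) - p

/-- Hermite's identity -/
theorem dp_zi_hermite {p : ℕ} (hp : 0 < p) (x : ℕ) :
    ∑ d ∈ Finset.range p, (x + d) / p = x := by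
  induction x with
  | zero =>
    refine Finset.sum_eq_zero fun d hd => ?_
    rw [zero_add]
    exact Nat.div_eq_of_lt (Finset.mem_range.1 hd)
  | succ x ih =>
    have h1 : ∑ d ∈ Finset.range p, (x + 1 + d) / p + (x + 0) / p =
        ∑ d ∈ Finset.range p, (x + d) / p + (x + p) / p := by
      rw [← Finset.sum_range_succ (fun d => (x + d) / p) p,
        Finset.sum_range_succ' (fun d => (x + d) / p) p]
      congr 1
      refine Finset.sum_congr rfl fun d _ => ?_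
      rw [show x + 1 + d = x + (d + 1) by ring]
    rw [ih, add_zero, Nat.add_div_right _ hp] at h1
    omega

theorem dp_zi_m_step {p : ℕ} (hp : 0 < p) (n a d : ℕ) : dp_zi_m p (n + 1) (p ^ n * d + a) =
    ((((1 + 2 * p) * a / p ^ n + d) / p : ℕ) : ℤ) + 2 * d - p := by
  unfold dp_zi_m
  have h2 : (1 + 2 * p) * (p ^ n * d + a) / p ^ (n + 1) =
      ((1 + 2 * p) * a / p ^ n + d) / p + 2 * d := by
    rw [pow_succ, ← Nat.div_div_eq_div_mul]
    have e1 : (1 + 2 * p) * (p ^ n * d + a) = (1 + 2 * p) * a + ((1 + 2 * p) * d) * p ^ n := by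
      ring
    rw [e1, Nat.add_mul_div_right _ _ (by positivity)]
    have e2 : (1 + 2 * p) * a / p ^ n + (1 + 2 * p) * d =
        ((1 + 2 * p) * a / p ^ n + d) + (2 * d) * p := by ring
    rw [e2, Nat.add_mul_div_right _ _ hp]
  rw [h2]
  push_cast
  ring

theorem dp_zi_m_dist {p : ℕ} (hp : 0 < p) (n a : ℕ) :
    ∑ d ∈ Finset.range p, dp_zi_m p (n + 1) (p ^ n * d + a) = dp_zi_m p n a := by
  have h1 : ∀ d ∈ Finset.range p, dp_zi_m p (n + 1) (p ^ n * d + a) =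
      ((((1 + 2 * p) * a / p ^ n + d) / p : ℕ) : ℤ) + (2 * (d : ℤ) - p) := fun d _ => by
    rw [dp_zi_m_step hp]
    ring
  rw [Finset.sum_congr rfl h1, Finset.sum_add_distrib, ← Nat.cast_sum, dp_zi_hermite hp]
  have h2 : ∑ d ∈ Finset.range p, (2 * (d : ℤ) - p) = - p := by
    rw [Finset.sum_sub_distrib, ← Finset.mul_sum, Finset.sum_const, Finset.card_range,
      nsmul_eq_mul]
    have h3 := Finset.sum_range_id_mul_two p
    have h4 : (∑ d ∈ Finset.range p, (d : ℤ)) * 2 = p * (p - 1) := by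
      have h5 : ((∑ d ∈ Finset.range p, d : ℕ) : ℤ) * 2 = ((p * (p - 1) : ℕ) : ℤ) := by
        exact_mod_cast h3
      rw [Nat.cast_sum] at h5
      rw [h5]
      push_cast [Nat.cast_sub hp]
      ring
    linarith
  rw [h2]
  unfold dp_zi_m
  ring

/-! ### the sums -/

/-- the sums -/
def dp_zi_S (F : ℕ → ℤ_[p]) (n : ℕ) : ℤ_[p] :=
  ∑ a ∈ Finset.range (p ^ n), F a * (dp_zi_m p n a : ℤ_[p])

theorem dp_zi_pp {n : ℕ} (hn : 1 ≤ n) : ∃ c, p ^ n = p * c := by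
  obtain ⟨k, rfl⟩ := Nat.exists_eq_add_of_le hn
  exact ⟨p ^ k, by rw [pow_add, pow_one]⟩

theorem dp_zi_range (g : ℕ → ℤ_[p]) (N q : ℕ) : ∑ a ∈ Finset.range (N * q), g a =
    ∑ a ∈ Finset.range N, ∑ d ∈ Finset.range q, g (N * d + a) := by
  induction q with
  | zero => simp
  | succ q ih =>
    rw [Nat.mul_succ, Finset.sum_range_add, ih, ← Finset.sum_add_distrib]
    refine Finset.sum_congr rfl fun a _ => ?_
    rw [Finset.sum_range_succ]

theorem dp_zi_S_succ (F : ℕ → ℤ_[p]) (n : ℕ) : dp_zi_S F (n + 1) - dp_zi_S F n =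
    ∑ a ∈ Finset.range (p ^ n), ∑ d ∈ Finset.range p,
      (F (p ^ n * d + a) - F a) * (dp_zi_m p (n + 1) (p ^ n * d + a) : ℤ_[p]) := by
  have hp : 0 < p := (Fact.out : p.Prime).pos
  unfold dp_zi_S
  rw [pow_succ, dp_zi_range, ← Finset.sum_sub_distrib]
  refine Finset.sum_congr rfl fun a _ => ?_
  rw [← dp_zi_m_dist hp n a, Int.cast_sum, Finset.mul_sum, ← Finset.sum_sub_distrib]
  refine Finset.sum_congr rfl fun d _ => ?_
  ring

/-! ### limits -/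

theorem dp_zi_tele {u : ℕ → ℤ_[p]} {ε : ℝ} {n0 : ℕ} (hε : 0 ≤ ε)
    (h : ∀ n, n0 ≤ n → ‖u (n + 1) - u n‖ ≤ ε) (m : ℕ) (hm : n0 ≤ m) : ‖u m - u n0‖ ≤ ε := by
  induction m, hm using Nat.le_induction with
  | base => simpa using hε
  | succ m hm ih =>
    have e : u (m + 1) - u n0 = (u (m + 1) - u m) + (u m - u n0) := by ring
    rw [e]
    exact (PadicInt.nonarchimedean _ _).trans (max_le (h m hm) ih)

theorem dp_zi_lim {u : ℕ → ℤ_[p]}
    (h : ∀ ε : ℝ, 0 < ε → ∃ N, ∀ n, N ≤ n → ‖u (n + 1) - u n‖ ≤ ε) :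
    ∃ L, Tendsto u atTop (𝓝 L) := by
  refine cauchySeq_tendsto_of_complete ?_
  rw [Metric.cauchySeq_iff']
  intro ε hε
  obtain ⟨N, hN⟩ := h (ε / 2) (by positivity)
  refine ⟨N, fun n hn => ?_⟩
  rw [dist_eq_norm]
  exact lt_of_le_of_lt (dp_zi_tele (by positivity) hN n hn) (by linarith)

/-! ### inverses of numbers prime to `p` -/

/-- the inverse of a number prime to `p` -/
def dp_zi_u (p : ℕ) [Fact p.Prime] (a : ℕ) : ℤ_[p] := PadicInt.inv (a : ℤ_[p])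

theorem dp_zi_norm {a : ℕ} (ha : ¬ p ∣ a) : ‖(a : ℤ_[p])‖ = 1 := by
  rw [PadicInt.norm_natCast_eq_one_iff]
  exact (Nat.Prime.coprime_iff_not_dvd (Fact.out : p.Prime)).2 ha

theorem dp_zi_mul_u {a : ℕ} (ha : ¬ p ∣ a) : (a : ℤ_[p]) * dp_zi_u p a = 1 :=
  PadicInt.mul_inv (dp_zi_norm ha)

theorem dp_zi_norm_u {a : ℕ} (ha : ¬ p ∣ a) : ‖dp_zi_u p a‖ = 1 := by
  have h7 := congrArg norm (dp_zi_mul_u ha)
  rwa [norm_mul, dp_zi_norm ha, one_mul, norm_one] at h7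

theorem dp_zi_u_sub {a b : ℕ} (ha : ¬ p ∣ a) (hb : ¬ p ∣ b) :
    ‖dp_zi_u p a - dp_zi_u p b‖ ≤ ‖(a : ℤ_[p]) - b‖ := by
  have e : dp_zi_u p a - dp_zi_u p b = dp_zi_u p a * dp_zi_u p b * -((a : ℤ_[p]) - b) := by
    linear_combination (dp_zi_u p b) * dp_zi_mul_u ha - dp_zi_u p a * dp_zi_mul_u hb
  rw [e, norm_mul, norm_mul, norm_neg]
  have h1 : ‖dp_zi_u p a‖ * ‖dp_zi_u p b‖ ≤ 1 :=
    mul_le_one₀ (PadicInt.norm_le_one _) (norm_nonneg _) (PadicInt.norm_le_one _)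
  exact mul_le_of_le_one_left (norm_nonneg _) h1

theorem dp_zi_pow_norm (k : ℤ) (N : ℕ) (h : (p : ℤ) ^ N ∣ k) :
    ‖(k : ℤ_[p])‖ ≤ (p : ℝ)⁻¹ ^ N := by
  have h1 := (PadicInt.norm_int_le_pow_iff_dvd (p := p) (k := k) (n := N)).2 (by exact_mod_cast h)
  rw [zpow_neg, zpow_natCast] at h1
  rw [inv_pow]
  exact_mod_cast h1

theorem dp_zi_modEq {a b N : ℕ} (h : a ≡ b [MOD p ^ N]) :
    ‖(a : ℤ_[p]) - b‖ ≤ (p : ℝ)⁻¹ ^ N := by
  have h1 := (Nat.modEq_iff_dvd.1 h.symm)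
  have h2 := dp_zi_pow_norm (p := p) ((a : ℤ) - b) N (by exact_mod_cast h1)
  push_cast at h2
  exact h2

theorem dp_zi_inv_lt : (p : ℝ)⁻¹ < 1 := by
  have h1 : (1 : ℝ) < p := by exact_mod_cast (Fact.out : p.Prime).one_lt
  exact inv_lt_one_of_one_lt₀ h1

theorem dp_zi_inv_nonneg : (0 : ℝ) ≤ (p : ℝ)⁻¹ := by positivity

theorem dp_zi_ndvd_c : ¬ p ∣ 1 + 2 * p := by
  intro h
  have h1 : p ∣ 1 := (Nat.dvd_add_left (dvd_mul_left p 2)).1 h
  exact (Fact.out : p.Prime).one_lt.ne' (Nat.dvd_one.1 h1)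

/-! ### the coefficients -/

/-- the function `κ(a)/((1+2p)a)`, coefficient `j` -/
def dp_zi_F (kap : ℕ → PowerSeries ℤ_[p]) (j a : ℕ) : ℤ_[p] :=
  PowerSeries.coeff j (kap a) * dp_zi_u p a * dp_zi_u p (1 + 2 * p)

theorem dp_zi_F_dvd {kap : ℕ → PowerSeries ℤ_[p]} (hk : KapFamP kap) (j a : ℕ) (ha : p ∣ a) :
    dp_zi_F kap j a = 0 := by
  unfold dp_zi_F
  rw [hk.dvd a ha, map_zero, zero_mul, zero_mul]

theorem dp_zi_F_sub {kap : ℕ → PowerSeries ℤ_[p]} {j a b : ℕ} {ε : ℝ} (hε : 0 ≤ ε)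
    (h1 : ‖PowerSeries.coeff j (kap a) - PowerSeries.coeff j (kap b)‖ ≤ ε)
    (h2 : ‖dp_zi_u p a - dp_zi_u p b‖ ≤ ε) : ‖dp_zi_F kap j a - dp_zi_F kap j b‖ ≤ ε := by
  have e : dp_zi_F kap j a - dp_zi_F kap j b =
      (PowerSeries.coeff j (kap a) - PowerSeries.coeff j (kap b)) *
        (dp_zi_u p a * dp_zi_u p (1 + 2 * p)) +
      (dp_zi_u p a - dp_zi_u p b) *
        (PowerSeries.coeff j (kap b) * dp_zi_u p (1 + 2 * p)) := by
    unfold dp_zi_F
    ring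
  rw [e]
  refine (PadicInt.nonarchimedean _ _).trans (max_le ?_ ?_)
  · rw [norm_mul]
    calc _ ≤ ε * 1 := mul_le_mul h1 (PadicInt.norm_le_one _) (norm_nonneg _) hε
      _ = ε := mul_one _
  · rw [norm_mul]
    calc _ ≤ ε * 1 := mul_le_mul h2 (PadicInt.norm_le_one _) (norm_nonneg _) hε
      _ = ε := mul_one _

theorem dp_zi_cont {kap : ℕ → PowerSeries ℤ_[p]} (hk : KapFamP kap) (j : ℕ) {ε : ℝ}
    (hε : 0 < ε) :
    ∃ N : ℕ, ∀ a b : ℕ, ¬ p ∣ a → ¬ p ∣ b → a ≡ b [MOD p ^ N] →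
      ‖dp_zi_F kap j a - dp_zi_F kap j b‖ ≤ ε := by
  obtain ⟨n, hn⟩ := exists_pow_lt_of_lt_one hε (dp_zi_inv_lt (p := p))
  obtain ⟨N, hN⟩ := hk.cont j n
  refine ⟨max N n, fun a b ha hb hab => dp_zi_F_sub hε.le ?_ ?_⟩
  · exact (hN a b ha hb (hab.of_dvd (pow_dvd_pow p (le_max_left _ _))) j le_rfl).trans hn.le
  · exact ((dp_zi_u_sub ha hb).trans (dp_zi_modEq
      (hab.of_dvd (pow_dvd_pow p (le_max_right _ _))))).trans hn.le

/-- Differences of values at lifts of the same residue. -/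
theorem dp_zi_lift {F : ℕ → ℤ_[p]} (hF : ∀ a, p ∣ a → F a = 0) {N n : ℕ} {ε : ℝ} (hε : 0 ≤ ε)
    (hN : ∀ a b : ℕ, ¬ p ∣ a → ¬ p ∣ b → a ≡ b [MOD p ^ N] → ‖F a - F b‖ ≤ ε)
    (hn : 1 ≤ n) (hNn : N ≤ n) (c a : ℕ) : ‖F (p ^ n * c + a) - F a‖ ≤ ε := by
  obtain ⟨d, hd⟩ := dp_zi_pp (p := p) hn
  have h0 : p ∣ p ^ n * c := ⟨d * c, by rw [hd]; ring⟩
  by_cases ha : p ∣ a
  · rw [hF a ha, hF _ (dvd_add h0 ha), sub_self, norm_zero]
    exact hε
  · refine hN _ _ (fun h => ha ((Nat.dvd_add_right h0).1 h)) ha ?_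
    have h3 : p ^ N ∣ p ^ n * c := (pow_dvd_pow p hNn).mul_right c
    exact ((Nat.modEq_iff_dvd' (by omega)).2 (by simpa using h3)).symm

theorem dp_zi_diff {F : ℕ → ℤ_[p]} (hF : ∀ a, p ∣ a → F a = 0) {N n : ℕ} {ε : ℝ} (hε : 0 ≤ ε)
    (hN : ∀ a b : ℕ, ¬ p ∣ a → ¬ p ∣ b → a ≡ b [MOD p ^ N] → ‖F a - F b‖ ≤ ε)
    (hn : 1 ≤ n) (hNn : N ≤ n) : ‖dp_zi_S F (n + 1) - dp_zi_S F n‖ ≤ ε := by
  rw [dp_zi_S_succ F n]
  refine IsUltrametricDist.norm_sum_le_of_forall_le_of_nonneg hε fun a _ => ?_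
  refine IsUltrametricDist.norm_sum_le_of_forall_le_of_nonneg hε fun d _ => ?_
  rw [norm_mul]
  calc _ ≤ ε * 1 := mul_le_mul (dp_zi_lift hF hε hN hn hNn d a) (PadicInt.norm_le_one _)
        (norm_nonneg _) hε
    _ = ε := mul_one _

theorem dp_zi_S_lim {kap : ℕ → PowerSeries ℤ_[p]} (hk : KapFamP kap) (j : ℕ) :
    ∃ L, Tendsto (dp_zi_S (dp_zi_F kap j)) atTop (𝓝 L) := by
  refine dp_zi_lim fun ε hε => ?_
  obtain ⟨N, hN⟩ := dp_zi_cont hk j hε
  refine ⟨max N 1, fun n hn => ?_⟩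
  exact dp_zi_diff (dp_zi_F_dvd hk j) hε.le hN ((le_max_right _ _).trans hn)
    ((le_max_left _ _).trans hn)

/-- the first sum -/
theorem dp_zi_S_one (hp2 : p ≠ 2) {kap : ℕ → PowerSeries ℤ_[p]} (hk : KapFamP kap) :
    ‖dp_zi_S (dp_zi_F kap 0) 1‖ = 1 := by
  have hp := (Fact.out : p.Prime)
  have hp1 := hp.one_lt
  have hterm : ∀ a ∈ Finset.range p, dp_zi_F kap 0 a * (dp_zi_m p 1 a : ℤ_[p]) =
      dp_zi_u p (1 + 2 * p) * (if a = 0 then 0 else 2 - (p : ℤ_[p]) * dp_zi_u p a) := by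
    intro a ha
    have hap := Finset.mem_range.1 ha
    by_cases h0 : a = 0
    · rw [if_pos h0, h0, dp_zi_F_dvd hk 0 0 (dvd_zero p), zero_mul, mul_zero]
    · rw [if_neg h0]
      have hnd : ¬ p ∣ a := fun h => h0 (Nat.eq_zero_of_dvd_of_lt h hap)
      have hm : dp_zi_m p 1 a = 2 * (a : ℤ) - p := by
        unfold dp_zi_m
        have e : (1 + 2 * p) * a / p ^ 1 = 2 * a := by
          rw [pow_one, show (1 + 2 * p) * a = a + (2 * a) * p by ring,
            Nat.add_mul_div_right _ _ hp.pos, Nat.div_eq_of_lt hap, zero_add]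
        rw [e]
        push_cast
        ring
      rw [hm]
      unfold dp_zi_F
      rw [hk.c0 a hnd]
      have h8 := dp_zi_mul_u hnd
      push_cast
      linear_combination (2 * dp_zi_u p (1 + 2 * p)) * h8
  have hsum : dp_zi_S (dp_zi_F kap 0) 1 = dp_zi_u p (1 + 2 * p) *
      (-2 + (p : ℤ_[p]) * (2 - ∑ a ∈ Finset.range p, if a = 0 then 0 else dp_zi_u p a)) := by
    unfold dp_zi_S
    rw [pow_one, Finset.sum_congr rfl hterm, ← Finset.mul_sum]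
    congr 1
    have h1 : ∀ a ∈ Finset.range p, (if a = 0 then (0 : ℤ_[p]) else 2 - (p : ℤ_[p]) * dp_zi_u p a)
        = (2 - (if a = 0 then 2 else 0)) -
          (p : ℤ_[p]) * (if a = 0 then 0 else dp_zi_u p a) := by
      intro a _
      split_ifs <;> ring
    rw [Finset.sum_congr rfl h1, Finset.sum_sub_distrib, Finset.sum_sub_distrib,
      ← Finset.mul_sum, Finset.sum_const, Finset.card_range, nsmul_eq_mul,
      Finset.sum_ite_eq' (Finset.range p) 0, if_pos (Finset.mem_range.2 hp.pos)]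
    ring
  rw [hsum, norm_mul, dp_zi_norm_u dp_zi_ndvd_c, one_mul]
  have h2 : ‖(-2 : ℤ_[p])‖ = 1 := by
    rw [norm_neg]
    have h3 : ¬ p ∣ 2 := fun h =>
      hp2 ((Nat.prime_dvd_prime_iff_eq hp Nat.prime_two).1 h)
    have h4 := dp_zi_norm h3
    exact_mod_cast h4
  have h3 : ‖(p : ℤ_[p]) * (2 - ∑ a ∈ Finset.range p, if a = 0 then 0 else dp_zi_u p a)‖ < 1 := by
    rw [norm_mul, PadicInt.norm_p]
    exact lt_of_le_of_lt (mul_le_of_le_one_right (by positivity) (PadicInt.norm_le_one _))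
      dp_zi_inv_lt
  rw [PadicInt.norm_add_eq_max_of_ne (by rw [h2]; exact h3.ne'), h2]
  exact max_eq_left h3.le

theorem dp_zi_unit (hp2 : p ≠ 2) {kap : ℕ → PowerSeries ℤ_[p]} (hk : KapFamP kap) {L : ℤ_[p]}
    (h : Tendsto (dp_zi_S (dp_zi_F kap 0)) atTop (𝓝 L)) : IsUnit L := by
  have h0 := dp_zi_inv_nonneg (p := p)
  have h1 : ∀ n, 1 ≤ n →
      ‖dp_zi_S (dp_zi_F kap 0) (n + 1) - dp_zi_S (dp_zi_F kap 0) n‖ ≤ (p : ℝ)⁻¹ := by
    intro n hn
    refine dp_zi_diff (N := 1) (dp_zi_F_dvd hk 0) h0 (fun a b ha hb hab => ?_) hn hn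
    refine dp_zi_F_sub h0 ?_ ?_
    · rw [hk.c0 _ ha, hk.c0 _ hb, sub_self, norm_zero]
      exact h0
    · have h4 := (dp_zi_u_sub ha hb).trans (dp_zi_modEq hab)
      rwa [pow_one] at h4
  have h2 := dp_zi_S_one hp2 hk
  have h3 : ‖L - dp_zi_S (dp_zi_F kap 0) 1‖ ≤ (p : ℝ)⁻¹ := by
    have h4 := (h.sub_const (dp_zi_S (dp_zi_F kap 0) 1)).norm
    refine le_of_tendsto h4 ?_
    filter_upwards [eventually_ge_atTop 1] with m hm
    exact dp_zi_tele h0 h1 m hm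
  rw [PadicInt.isUnit_iff]
  refine le_antisymm (PadicInt.norm_le_one _) ?_
  by_contra h5
  push Not at h5
  have h6 : ‖dp_zi_S (dp_zi_F kap 0) 1‖ < 1 := by
    have e : dp_zi_S (dp_zi_F kap 0) 1 = L + -(L - dp_zi_S (dp_zi_F kap 0) 1) := by ring
    rw [e]
    refine lt_of_le_of_lt (PadicInt.nonarchimedean _ _) (max_lt h5 ?_)
    rw [norm_neg]
    exact lt_of_le_of_lt h3 dp_zi_inv_lt
  rw [h2] at h6
  exact lt_irrefl _ h6

/-! ### evaluation -/

theorem dp_zi_io_cont : Continuous (io p : ℤ_[p] → PadicComplex p) :=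
  (AddMonoidHomClass.isometry_of_norm (io p) norm_io).continuous

theorem dp_zi_io_le (z : ℤ_[p]) : ‖io p z‖ ≤ 1 := by
  rw [norm_io]
  exact PadicInt.norm_le_one _

theorem dp_zi_summable {w : PadicComplex p} (hw : ‖w‖ < 1) (c : ℕ → ℤ_[p]) :
    Summable fun j => io p (c j) * w ^ j := by
  refine Summable.of_norm_bounded (summable_geometric_of_lt_one (norm_nonneg w) hw) fun j => ?_
  rw [norm_mul, norm_pow]
  exact mul_le_of_le_one_left (by positivity) (dp_zi_io_le _)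

theorem dp_zi_io_u {a : ℕ} (ha : ¬ p ∣ a) : io p (dp_zi_u p a) = (a : PadicComplex p)⁻¹ := by
  have h := congrArg (io p) (dp_zi_mul_u ha)
  rw [map_mul, map_one, map_natCast] at h
  exact eq_inv_of_mul_eq_one_right h

theorem dp_zi_hasSum {kap : ℕ → PowerSeries ℤ_[p]} (hk : KapFamP kap) (κ : Weight p)
    (hκ : Triv κ) (n a : ℕ) :
    HasSum (fun j => io p (dp_zi_F kap j a * (dp_zi_m p n a : ℤ_[p])) * κ.w ^ j)
      (κ.val a / (a : PadicComplex p) * (((((1 + 2 * p) * a / p ^ n : ℕ) : PadicComplex p) - p) /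
        (1 + 2 * p))) := by
  by_cases ha : ¬ p ∣ a
  · have hw := hk.wlt κ hκ
    have h1 : HasSum (fun j => io p (PowerSeries.coeff j (kap a)) * κ.w ^ j) (κ.val a) := by
      rw [hk.val a ha κ hκ]
      exact (dp_zi_summable hw _).hasSum
    have h2 := h1.mul_left ((a : PadicComplex p)⁻¹ * ((1 + 2 * p : ℕ) : PadicComplex p)⁻¹ *
      ((dp_zi_m p n a : ℤ) : PadicComplex p))
    have e1 : (fun j => io p (dp_zi_F kap j a * (dp_zi_m p n a : ℤ_[p])) * κ.w ^ j) =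
        fun j => (a : PadicComplex p)⁻¹ * ((1 + 2 * p : ℕ) : PadicComplex p)⁻¹ *
          ((dp_zi_m p n a : ℤ) : PadicComplex p) *
          (io p (PowerSeries.coeff j (kap a)) * κ.w ^ j) := by
      funext j
      unfold dp_zi_F
      rw [map_mul, map_mul, map_mul, map_intCast, dp_zi_io_u ha, dp_zi_io_u dp_zi_ndvd_c]
      ring
    have e2 : κ.val a / (a : PadicComplex p) *
        (((((1 + 2 * p) * a / p ^ n : ℕ) : PadicComplex p) - p) / (1 + 2 * p)) =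
        (a : PadicComplex p)⁻¹ * ((1 + 2 * p : ℕ) : PadicComplex p)⁻¹ *
          ((dp_zi_m p n a : ℤ) : PadicComplex p) * κ.val a := by
      unfold dp_zi_m
      have e4 : (1 + 2 * (p : PadicComplex p)) = ((1 + 2 * p : ℕ) : PadicComplex p) := by
        push_cast
        ring
      rw [e4]
      generalize (1 + 2 * p) * a / p ^ n = q
      generalize ((1 + 2 * p : ℕ) : PadicComplex p) = c
      push_cast
      ring
    rw [e1, e2]
    exact h2
  · rw [not_not] at ha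
    rw [hk.nval κ a ha, zero_div, zero_mul]
    have e : (fun j => io p (dp_zi_F kap j a * (dp_zi_m p n a : ℤ_[p])) * κ.w ^ j) =
        fun _ => 0 := by
      funext j
      rw [dp_zi_F_dvd hk j a ha, zero_mul, map_zero, zero_mul]
    rw [e]
    exact hasSum_zero

theorem dp_zi_sum_eq {kap : ℕ → PowerSeries ℤ_[p]} (hk : KapFamP kap) (κ : Weight p)
    (hκ : Triv κ) (n : ℕ) :
    ∑ a ∈ Finset.range (p ^ n), κ.val a / (a : PadicComplex p) *
        (((((1 + 2 * p) * a / p ^ n : ℕ) : PadicComplex p) - p) / (1 + 2 * p)) =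
      ∑' j, io p (dp_zi_S (dp_zi_F kap j) n) * κ.w ^ j := by
  have h1 := hasSum_sum (s := Finset.range (p ^ n)) fun a _ => dp_zi_hasSum hk κ hκ n a
  rw [← h1.tsum_eq]
  congr 1
  funext j
  unfold dp_zi_S
  rw [map_sum, Finset.sum_mul]

theorem exists_zetaUnitP (hp2 : p ≠ 2) (kap : ℕ → PowerSeries ℤ_[p]) (hk : KapFamP kap) :
    ∃ Z : PowerSeries ℤ_[p], IsUnit (PowerSeries.coeff 0 Z) ∧
      ∀ κ : Weight p, Triv κ →
        Tendsto (fun n : ℕ ↦ ∑ a ∈ Finset.range (p ^ n), κ.val a / (a : PadicComplex p) *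
          (((((1 + 2 * p) * a / p ^ n : ℕ) : PadicComplex p) - p) / (1 + 2 * p))) atTop
          (𝓝 (evp κ.w Z)) ∧ κ.zetaIntegral = evp κ.w Z := by
  choose L hL using dp_zi_S_lim hk
  refine ⟨PowerSeries.mk L, ?_, fun κ hκ => ?_⟩
  · rw [PowerSeries.coeff_mk]
    exact dp_zi_unit hp2 hk (hL 0)
  · have hw := hk.wlt κ hκ
    have h1 : Tendsto (fun n : ℕ ↦ ∑ a ∈ Finset.range (p ^ n), κ.val a / (a : PadicComplex p) *
        (((((1 + 2 * p) * a / p ^ n : ℕ) : PadicComplex p) - p) / (1 + 2 * p))) atTop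
        (𝓝 (evp κ.w (PowerSeries.mk L))) := by
      have e : evp κ.w (PowerSeries.mk L) = ∑' j, io p (L j) * κ.w ^ j := by
        unfold evp
        congr 1
        funext j
        rw [PowerSeries.coeff_mk]
      rw [e]
      have h2 : Tendsto (fun n => ∑' j, io p (dp_zi_S (dp_zi_F kap j) n) * κ.w ^ j) atTop
          (𝓝 (∑' j, io p (L j) * κ.w ^ j)) := by
        refine tendsto_tsum_of_dominated_convergence
          (summable_geometric_of_lt_one (norm_nonneg κ.w) hw) (fun j => ?_)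
          (Filter.Eventually.of_forall fun n j => ?_)
        · exact ((dp_zi_io_cont.tendsto _).comp (hL j)).mul_const _
        · rw [norm_mul, norm_pow]
          exact mul_le_of_le_one_left (by positivity) (dp_zi_io_le _)
      exact h2.congr fun n => (dp_zi_sum_eq hk κ hκ n).symm
    exact ⟨h1, h1.limUnder_eq⟩

end DP

end GH
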