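import Pool.Agent.GH.DP.ZCharP
import Pool.Agent.GH.DP.ZIntP
import Pool.Agent.GH.ZValP

open PowerSeries Filter Topology

noncomputable section

namespace GH

namespace DP

open GP

variable {p : ℕ} [Fact p.Prime]

/-! The Eisenstein family over `ℤ_p[[W]]`, `p` odd, and the Eisenstein series of integral
weight. -/

theorem dp_ef_isUnit {d : ℕ} (hd : ¬ p ∣ d) : IsUnit (d : ℤ_[p]) := by
  rw [PadicInt.isUnit_iff, PadicInt.norm_natCast_eq_one_iff]
  exact (Nat.Prime.coprime_iff_not_dvd Fact.out).2 hd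

theorem dp_ef_io_inv {d : ℕ} (hd : ¬ p ∣ d) :
    io p (Ring.inverse (d : ℤ_[p])) = (d : PadicComplex p)⁻¹ := by
  have h1 : (d : ℤ_[p]) * Ring.inverse (d : ℤ_[p]) = 1 :=
    Ring.mul_inverse_cancel _ (dp_ef_isUnit hd)
  have h2 := congrArg (io p) h1
  rw [map_mul, map_one, map_natCast] at h2
  exact eq_inv_of_mul_eq_one_right h2

theorem dp_ef_sum {R : Type*} [AddCommMonoid R] (g : ℕ → R) (hg : ∀ d, p ∣ d → g d = 0)
    (n : ℕ) : ∑ d ∈ (p * n).divisors, g d = ∑ d ∈ n.divisors, g d := by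
  have hp : p.Prime := Fact.out
  rcases Nat.eq_zero_or_pos n with rfl | hn
  · rw [mul_zero]
  have hpn : 0 < p * n := Nat.mul_pos hp.pos hn
  symm
  refine Finset.sum_subset ?_ ?_
  · intro d hd
    rw [Nat.mem_divisors] at hd ⊢
    exact ⟨Dvd.dvd.mul_left hd.1 p, by omega⟩
  · intro d hd hd'
    rw [Nat.mem_divisors] at hd hd'
    by_contra hne
    have h3 : ¬ p ∣ d := fun h => hne (hg d h)
    refine hd' ⟨?_, by omega⟩
    exact (Nat.Coprime.dvd_mul_left (Nat.Coprime.symm
      ((Nat.Prime.coprime_iff_not_dvd hp).2 h3))).1 hd.1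

theorem dp_ef_ndvd : ¬ p ∣ 1 + 2 * p := by
  intro h
  have h1 : p ∣ 1 := (Nat.dvd_add_left (Dvd.intro_left 2 rfl)).1 h
  exact (Fact.out : p.Prime).one_lt.ne' (Nat.dvd_one.1 h1)

/-- the value at a multiple of `p` -/
theorem dp_ef_val_dvd (κ : Weight p) {a : ℕ} (ha : p ∣ a) : κ.val a = 0 := by
  unfold Weight.val
  rw [dif_neg]
  rw [PadicInt.isUnit_iff, PadicInt.norm_natCast_eq_one_iff]
  intro h
  exact (Nat.Prime.coprime_iff_not_dvd Fact.out).1 h ha

theorem dp_ef_cast_ne {a : ℕ} (ha : ¬ p ∣ a) : (a : PadicComplex p) ≠ 0 := by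
  have : a ≠ 0 := by
    rintro rfl
    exact ha (dvd_zero p)
  exact_mod_cast this

theorem dp_ef_pow_div {a k : ℕ} (ha : ¬ p ∣ a) (hk : 1 ≤ k) :
    (a : PadicComplex p) ^ k / (a : PadicComplex p) = (a : PadicComplex p) ^ (k - 1) := by
  have e2 : (a : PadicComplex p) ^ k = (a : PadicComplex p) ^ (k - 1) * a := by
    rw [← pow_succ]
    congr 1
    omega
  rw [e2, mul_div_cancel_right₀ _ (dp_ef_cast_ne ha)]

/-- the Eisenstein constant at `z^k` -/
theorem dp_ef_const (κ : Weight p) (k : ℕ) (hk2 : 2 ≤ k)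
    (hval : ∀ a : ℕ, ¬ p ∣ a → κ.val a = (a : PadicComplex p) ^ k) :
    κ.eisConst = ((-(2 * k / ((1 - (p : ℚ) ^ (k - 1)) * bernoulli k)) : ℚ) :
      PadicComplex p) := by
  have h1 := GH.ZP.tendsto_zetaSum p k hk2
  have h2 := ((continuous_algebraMap ℚ_[p] (PadicComplex p)).tendsto _).comp h1
  have h3 : ((algebraMap ℚ_[p] (PadicComplex p)) ∘ fun n : ℕ ↦
      ∑ a ∈ (Finset.range (p ^ n)).filter (fun a ↦ ¬ p ∣ a),
        (a : ℚ_[p]) ^ (k - 1) * ((((1 + 2 * p) * a / p ^ n : ℕ) : ℚ_[p]) - p) / (1 + 2 * p)) =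
      (fun n : ℕ ↦ ∑ a ∈ Finset.range (p ^ n), κ.val a / (a : PadicComplex p) *
        (((((1 + 2 * p) * a / p ^ n : ℕ) : PadicComplex p) - p) / (1 + 2 * p))) := by
    funext n
    rw [Function.comp_apply, map_sum, Finset.sum_filter]
    refine Finset.sum_congr rfl fun a _ => ?_
    by_cases ha : p ∣ a
    · rw [if_neg (not_not.2 ha), dp_ef_val_dvd κ ha, zero_div, zero_mul]
    · rw [if_pos ha, hval a ha, dp_ef_pow_div ha (by omega)]
      rw [map_div₀, map_mul, map_pow, map_sub, map_natCast, map_natCast, map_natCast]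
      have e4 : (algebraMap ℚ_[p] (PadicComplex p)) (1 + 2 * (p : ℚ_[p])) =
          1 + 2 * (p : PadicComplex p) := by
        rw [map_add, map_mul, map_one, map_natCast, map_ofNat]
      rw [e4, mul_div_assoc]
  rw [h3, map_ratCast] at h2
  have h4 : κ.zetaIntegral = _ := h2.limUnder_eq
  have h5 : κ.val (1 + 2 * p) = (1 + 2 * (p : PadicComplex p)) ^ k := by
    rw [hval _ dp_ef_ndvd]
    push_cast
    rfl
  unfold Weight.eisConst
  rw [h4, h5]
  push_cast
  have h6 : (1 - ((1 + 2 * (p : PadicComplex p)))⁻¹ ^ k) ≠ 0 := by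
    rw [sub_ne_zero]
    intro h
    rw [inv_pow, eq_comm, inv_eq_one] at h
    have h7 : (((1 + 2 * p) ^ k : ℕ) : PadicComplex p) = ((1 : ℕ) : PadicComplex p) := by
      push_cast
      exact h
    have h8 : (1 + 2 * p) ^ k = 1 := Nat.cast_injective h7
    have h9 : k = 0 := by
      rcases Nat.pow_eq_one.1 h8 with h9 | h9
      · have := (Fact.out : p.Prime).pos
        omega
      · exact h9
    omega
  rw [← inv_pow]
  rw [mul_assoc (1 - ((1 + 2 * (p : PadicComplex p)))⁻¹ ^ k),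
    mul_div_assoc (1 - ((1 + 2 * (p : PadicComplex p)))⁻¹ ^ k),
    mul_comm (-2 : PadicComplex p), mul_div_mul_left _ _ h6, div_div_eq_mul_div]
  ring

/-- `E_{z^k}` for even `k ≥ 2`. -/
theorem eis_incl_pow (hp2 : p ≠ 2) {k : ℕ} (hk : Even k) (hk2 : 2 ≤ k) :
    ((Weight.incl p) ^ k : Weight p).eis =
      PowerSeries.map (algebraMap ℚ (PadicComplex p)) (eisStabP p k) := by
  have hval : ∀ a : ℕ, ¬ p ∣ a →
      ((Weight.incl p) ^ k : Weight p).val a = (a : PadicComplex p) ^ k :=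
    fun a ha => val_incl_pow k ha
  have hconst := dp_ef_const ((Weight.incl p) ^ k : Weight p) k hk2 hval
  ext n
  rw [Weight.eis, eisStabP, map_add, PowerSeries.coeff_mk, PowerSeries.coeff_one,
    PowerSeries.coeff_map, map_add, PowerSeries.coeff_mk, PowerSeries.coeff_one, map_add,
    map_mul, map_sum, hconst]
  congr 1
  · split_ifs <;> simp
  · congr 1
    refine Finset.sum_congr rfl fun d _ => ?_
    by_cases hd : p ∣ d
    · rw [if_pos hd, dp_ef_val_dvd _ hd, zero_div, map_zero]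
    · rw [if_neg hd, hval d hd, dp_ef_pow_div hd (by omega)]
      simp

theorem exists_eisFamP (hp2 : p ≠ 2) : ∃ E : PowerSeries (PowerSeries ℤ_[p]), EisFamilyP E := by
  have hp : p.Prime := Fact.out
  obtain ⟨kap, hfam⟩ := exists_kapP (p := p) hp2
  obtain ⟨Z, hZu, hZ⟩ := exists_zetaUnitP hp2 kap hfam
  have hZunit : IsUnit Z := by
    rw [PowerSeries.isUnit_iff_constantCoeff, ← PowerSeries.coeff_zero_eq_constantCoeff_apply]
    exact hZu
  obtain ⟨Zi, hZi⟩ := hZunit.exists_right_inv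
  have hXunit : IsUnit (1 + X : PowerSeries ℤ_[p]) := by
    rw [PowerSeries.isUnit_iff_constantCoeff]
    simp
  obtain ⟨V, hV⟩ := hXunit.exists_right_inv
  set c : PowerSeries ℤ_[p] := -2 * (1 - V) * Zi with hc
  have hXc : (X : PowerSeries ℤ_[p]) ∣ c := by
    refine ⟨-2 * V * Zi, ?_⟩
    rw [hc]
    linear_combination 2 * Zi * hV
  set g : ℕ → PowerSeries ℤ_[p] :=
    fun d => kap d * PowerSeries.C (Ring.inverse (d : ℤ_[p])) with hg
  have hg0 : ∀ d, p ∣ d → g d = 0 := by
    intro d hd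
    rw [hg]
    simp only
    rw [hfam.dvd d hd, zero_mul]
  set E : PowerSeries (PowerSeries ℤ_[p]) :=
    1 + PowerSeries.mk fun n => c * ∑ d ∈ n.divisors, g d with hE
  have hcoeff : ∀ n, PowerSeries.coeff n E = (if n = 0 then 1 else 0) +
      c * ∑ d ∈ n.divisors, g d := by
    intro n
    rw [hE, map_add, PowerSeries.coeff_mk, PowerSeries.coeff_one]
  have heis : ∀ κ : Weight p, Triv κ → κ.eis = evSp κ.w E := by
    intro κ hκ
    have hw := hfam.wlt κ hκ
    obtain ⟨φ, hφ⟩ := exists_evpHom hw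
    have hφX : φ X = κ.w := by rw [hφ, evp_X hw]
    have hφC : ∀ a, φ (PowerSeries.C a) = io p a := fun a => by rw [hφ, evp_C hw]
    have h5 : κ.val (1 + 2 * p) = 1 + κ.w := by
      have h := hfam.val (1 + 2 * p) dp_ef_ndvd κ hκ
      rw [hfam.gen, ← hφ, map_add, map_one, hφX] at h
      exact h
    have hVi : φ V = (1 + κ.w)⁻¹ := by
      have h := congrArg φ hV
      rw [map_mul, map_add, map_one, hφX] at h
      exact eq_inv_of_mul_eq_one_right h
    have hZi' : φ Zi = (φ Z)⁻¹ := by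
      have h := congrArg φ hZi
      rw [map_mul, map_one] at h
      exact eq_inv_of_mul_eq_one_right h
    have hconst : κ.eisConst = φ c := by
      unfold Weight.eisConst
      rw [(hZ κ hκ).2, h5, ← hφ, hc, map_mul, map_mul, map_neg, map_sub, map_one, hVi, hZi',
        map_ofNat, div_eq_mul_inv]
    have hgd : ∀ d, φ (g d) = κ.val d / (d : PadicComplex p) := by
      intro d
      by_cases hd : p ∣ d
      · rw [hg0 d hd, map_zero, hfam.nval κ d hd, zero_div]
      · rw [hg]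
        simp only
        rw [map_mul, hφC, dp_ef_io_inv hd, hfam.val d hd κ hκ, hφ, div_eq_mul_inv]
    ext n
    have h1 : PowerSeries.coeff n (evSp κ.w E) = φ (PowerSeries.coeff n E) := by
      rw [evSp, PowerSeries.coeff_mk, hφ]
    rw [h1, hcoeff, Weight.eis, map_add, PowerSeries.coeff_mk, PowerSeries.coeff_one, map_add,
      map_mul, map_sum, hconst]
    simp only [hgd]
    congr 1
    split_ifs <;> simp
  refine ⟨E, ?_, ?_, ?_, heis, ?_⟩
  · rw [hcoeff]
    simp
  · intro n hn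
    rw [hcoeff, if_neg (by omega), zero_add]
    exact Dvd.dvd.mul_right hXc _
  · ext1 n
    rw [U, PowerSeries.coeff_mk, hcoeff, hcoeff, dp_ef_sum g hg0 n]
    congr 1
    by_cases h : n = 0
    · simp [h]
    · rw [if_neg h, if_neg (Nat.mul_ne_zero hp.ne_zero h)]
  · intro m hm
    have hκ : Triv ((Weight.incl p) ^ ((p - 1) * m)) := triv_incl_pow m
    have hw : ((Weight.incl p) ^ ((p - 1) * m) : Weight p).w =
        (1 + 2 * (p : PadicComplex p)) ^ ((p - 1) * m) - 1 := by
      unfold Weight.w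
      rw [val_incl_pow _ dp_ef_ndvd]
      push_cast
      rfl
    have hp3 : 3 ≤ p := by
      have := hp.two_le
      omega
    have hev : Even ((p - 1) * m) := by
      have hodd : Odd p := hp.odd_of_ne_two hp2
      exact (Nat.Odd.sub_odd hodd odd_one).mul_right m
    have h2 : 2 ≤ (p - 1) * m := by
      have h3 : 2 ≤ p - 1 := by omega
      calc 2 = 2 * 1 := by norm_num
        _ ≤ (p - 1) * m := Nat.mul_le_mul h3 hm
    rw [← hw, ← heis _ hκ]
    exact eis_incl_pow hp2 hev h2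

end DP

end GH
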