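import Pool.Agent.GH.DP.ExtP

/-!
# Ghost conjecture, odd `p`: from the central disc to the whole weight disc, weak version

The number `D n` of zeros of the `n`-th ghost coefficient is convex, not strictly (this occurs
for `p = 13`), and there are arbitrarily large strict vertices.
-/

open PowerSeries Filter Topology

noncomputable section

namespace GH

namespace DP

open GP

/-- `n` is a strict vertex of `D`. -/
def VtxW (D : ℕ → ℕ) (n : ℕ) : Prop := n = 0 ∨ 2 * D n + 1 ≤ D (n - 1) + D (n + 1)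

/-- A convex integer function, strictly convex at `n`. -/
theorem dpw_conv {D : ℕ → ℕ} (h : ∀ n, 2 * D (n + 1) ≤ D n + D (n + 2)) {n : ℕ}
    (hn : VtxW D n) (i : ℕ) :
    (D n : ℝ) + ((D (n + 1) : ℝ) - D n - 1 / 2) * ((i : ℝ) - n) + 1 / 2 * |(i : ℝ) - n| ≤
      D i := by
  have hd : ∀ k j : ℕ, (D (k + 1) : ℤ) - D k ≤ (D (k + j + 1) : ℤ) - D (k + j) := by
    intro k j
    induction j with
    | zero => simp
    | succ j ih =>
      have h1 := h (k + j)
      have e1 : k + (j + 1) + 1 = k + j + 2 := by ring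
      have e2 : k + (j + 1) = k + j + 1 := by ring
      rw [e1, e2]
      omega
  rcases le_total n i with hni | hni
  · obtain ⟨j, rfl⟩ := Nat.exists_eq_add_of_le hni
    have h1 : (D n : ℤ) + j * ((D (n + 1) : ℤ) - D n) ≤ D (n + j) := by
      clear hni
      induction j with
      | zero => simp
      | succ j ih =>
        have h2 := hd n j
        have e1 : n + (j + 1) = n + j + 1 := by ring
        rw [e1]
        push_cast
        linarith
    have h2 : (D n : ℝ) + j * ((D (n + 1) : ℝ) - D n) ≤ D (n + j) := by exact_mod_cast h1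
    push_cast
    have h3 : (n : ℝ) + j - n = j := by ring
    rw [h3, abs_of_nonneg (Nat.cast_nonneg j)]
    linarith
  · obtain ⟨j, rfl⟩ := Nat.exists_eq_add_of_le hni
    rcases hn with hn | hn
    · obtain ⟨h1, h2⟩ : i = 0 ∧ j = 0 := by omega
      subst h1 h2
      simp
    have h1 : (D (i + j) : ℤ) - j * ((D (i + j + 1) : ℤ) - D (i + j) - 1) ≤ D i := by
      have h0 : ∀ l : ℕ, l ≤ j → (D (i + l) : ℤ) -
          l * ((D (i + j + 1) : ℤ) - D (i + j) - 1) ≤ D i := by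
        intro l
        induction l with
        | zero => intro _; simp
        | succ l ih =>
          intro hl
          have h2 := ih (by omega)
          have h3 : (D (i + l + 1) : ℤ) - D (i + l) ≤ (D (i + j + 1) : ℤ) - D (i + j) - 1 := by
            obtain ⟨m, rfl⟩ : ∃ m, j = l + 1 + m := Nat.exists_eq_add_of_le hl
            have h4 := hd (i + l) m
            have e1 : i + l + m + 1 = i + (l + 1 + m) := by ring
            have e2 : i + l + m = i + (l + 1 + m) - 1 := by omega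
            rw [e1, e2] at h4
            omega
          have e1 : i + (l + 1) = i + l + 1 := by ring
          rw [e1]
          push_cast
          linarith
      exact h0 j le_rfl
    have h2 : (D (i + j) : ℝ) - j * ((D (i + j + 1) : ℝ) - D (i + j) - 1) ≤ D i := by
      exact_mod_cast h1
    push_cast
    have h3 : (i : ℝ) - (i + j) = -j := by ring
    rw [h3, abs_neg, abs_of_nonneg (Nat.cast_nonneg j)]
    linarith

theorem dpw_logb_inv {p : ℕ} (hp : 3 ≤ p) (k : ℕ) : Real.logb p ((p : ℝ)⁻¹ ^ k) = -k := by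
  have hp1 : (1 : ℝ) < p := by exact_mod_cast (by omega : 1 < p)
  rw [Real.logb_pow, Real.logb_inv, Real.logb_self_eq_one hp1]
  ring

/-- If `‖b i‖ ≤ p^(-D i)` for all `i`, with near equality at a strict vertex `n`, then `n` is a
vertex. -/
theorem dpw_tri {p : ℕ} (hp : 3 ≤ p) {K : Type*} [NormedField K] {a b : ℕ → K} {D : ℕ → ℕ}
    (hD : ∀ n, 2 * D (n + 1) ≤ D n + D (n + 2))
    (h : newtonPolygon p a = newtonPolygon p b) (hb1 : ∀ i, ‖b i‖ ≤ (p : ℝ)⁻¹ ^ D i)
    {n : ℕ} (hn : VtxW D n) (hb : (p : ℝ)⁻¹ ^ D n * (3 / 4) ≤ ‖b n‖) : ‖a n‖ = ‖b n‖ := by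
  have hp3 : (3 : ℝ) ≤ p := by exact_mod_cast hp
  have hp1 : (1 : ℝ) < p := by linarith
  have hp0 : (0 : ℝ) < p := by linarith
  have hinv : Real.logb p ((p : ℝ)⁻¹) = -1 := by
    rw [Real.logb_inv, Real.logb_self_eq_one hp1]
  have h8 : ∀ k : ℕ, Real.logb p ((p : ℝ)⁻¹ ^ k) = -k := dpw_logb_inv hp
  obtain ⟨η, hη⟩ : ∃ η : ℝ, η = - Real.logb p (3 / 4) := ⟨_, rfl⟩
  have hη0 : 0 ≤ η := by
    rw [hη]
    have := Real.logb_nonpos hp1 (by norm_num : (0 : ℝ) ≤ 3 / 4) (by norm_num)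
    linarith
  have h34 : η < 1 / 2 := by
    have h0 : (p : ℝ)⁻¹ < (3 / 4) ^ 2 := by
      have h1 : (p : ℝ)⁻¹ ≤ 3⁻¹ := inv_anti₀ (by norm_num) hp3
      refine lt_of_le_of_lt h1 (by norm_num)
    have h1 : Real.logb p ((p : ℝ)⁻¹) < Real.logb p ((3 / 4) ^ 2) :=
      Real.logb_lt_logb hp1 (by positivity) h0
    rw [Real.logb_pow, hinv] at h1
    push_cast at h1
    linarith
  have hpos : ∀ k : ℕ, (0 : ℝ) < (p : ℝ)⁻¹ ^ k := fun k => by positivity
  have hbn : 0 < ‖b n‖ := lt_of_lt_of_le (by have := hpos (D n); positivity) hb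
  have hbn0 : b n ≠ 0 := norm_pos_iff.1 hbn
  have hvn : - Real.logb p ‖b n‖ ≤ D n + η := by
    have h1 := Real.logb_le_logb_of_le (b := p) hp1
      (by have := hpos (D n); positivity) hb
    rw [Real.logb_mul (hpos _).ne' (by norm_num), h8] at h1
    linarith
  refine dp_ex_vertex (lt_of_lt_of_le (by norm_num) hp) h hbn0
    (α := (D (n + 1) : ℝ) - D n - 1 / 2) (ε := 1 / 2 - η) (by linarith) fun i hi => ?_
  by_cases hin : i = n
  · subst hin
    simp
  · have hi0 : 0 < ‖b i‖ := norm_pos_iff.2 hi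
    have hvi : (D i : ℝ) ≤ - Real.logb p ‖b i‖ := by
      have h1 := Real.logb_le_logb_of_le (b := p) hp1 hi0 (hb1 i)
      rw [h8] at h1
      linarith
    have h1 : 1 ≤ |(i : ℝ) - n| := by
      have h1 : (i : ℤ) - n ≠ 0 := by omega
      have h2 : 1 ≤ |(i : ℤ) - n| := Int.one_le_abs h1
      exact_mod_cast h2
    have h2 := dpw_conv hD hn i
    have h3 : η * 1 ≤ η * |(i : ℝ) - n| := mul_le_mul_of_nonneg_left h1 hη0
    linarith

/-- A weakly convex integer function lies above its tangents. -/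
theorem dpw_tangent {D : ℕ → ℕ} (h : ∀ n, 2 * D (n + 1) ≤ D n + D (n + 2)) (n i : ℕ) :
    (D n : ℝ) + ((D (n + 1) : ℝ) - D n) * ((i : ℝ) - n) ≤ D i := by
  have hd : ∀ k j : ℕ, (D (k + 1) : ℤ) - D k ≤ (D (k + j + 1) : ℤ) - D (k + j) := by
    intro k j
    induction j with
    | zero => simp
    | succ j ih =>
      have h1 := h (k + j)
      have e1 : k + (j + 1) + 1 = k + j + 2 := by ring
      have e2 : k + (j + 1) = k + j + 1 := by ring
      rw [e1, e2]
      omega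
  rcases le_total n i with hni | hni
  · obtain ⟨j, rfl⟩ := Nat.exists_eq_add_of_le hni
    have h1 : (D n : ℤ) + j * ((D (n + 1) : ℤ) - D n) ≤ D (n + j) := by
      clear hni
      induction j with
      | zero => simp
      | succ j ih =>
        have h2 := hd n j
        have e1 : n + (j + 1) = n + j + 1 := by ring
        rw [e1]
        push_cast
        linarith
    have h2 : (D n : ℝ) + j * ((D (n + 1) : ℝ) - D n) ≤ D (n + j) := by exact_mod_cast h1
    push_cast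
    have h3 : (n : ℝ) + j - n = j := by ring
    rw [h3]
    linarith
  · obtain ⟨j, rfl⟩ := Nat.exists_eq_add_of_le hni
    have h1 : (D (i + j) : ℤ) - j * ((D (i + j + 1) : ℤ) - D (i + j)) ≤ D i := by
      have h0 : ∀ l : ℕ, l ≤ j → (D (i + l) : ℤ) -
          l * ((D (i + j + 1) : ℤ) - D (i + j)) ≤ D i := by
        intro l
        induction l with
        | zero => intro _; simp
        | succ l ih =>
          intro hl
          have h2 := ih (by omega)
          have h3 : (D (i + l + 1) : ℤ) - D (i + l) ≤ (D (i + j + 1) : ℤ) - D (i + j) := by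
            obtain ⟨m, rfl⟩ : ∃ m, j = l + m := Nat.exists_eq_add_of_le (by omega)
            have h4 := hd (i + l) m
            have e1 : i + l + m + 1 = i + (l + m) + 1 := by ring
            have e2 : i + l + m = i + (l + m) := by ring
            rw [e1, e2] at h4
            omega
          have e1 : i + (l + 1) = i + l + 1 := by ring
          rw [e1]
          push_cast
          linarith
      exact h0 j le_rfl
    have h2 : (D (i + j) : ℝ) - j * ((D (i + j + 1) : ℝ) - D (i + j)) ≤ D i := by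
      exact_mod_cast h1
    push_cast
    have h3 : (i : ℝ) - (i + j) = -j := by ring
    rw [h3]
    linarith

/-- The height of the Newton polygon gives a bound for the coefficients. -/
theorem dpw_le {p : ℕ} (hp : 3 ≤ p) {K : Type*} [NormedField K] {a b : ℕ → K} {D : ℕ → ℕ}
    (hD : ∀ n, 2 * D (n + 1) ≤ D n + D (n + 2))
    (h : newtonPolygon p a = newtonPolygon p b) (hb1 : ∀ i, ‖b i‖ ≤ (p : ℝ)⁻¹ ^ D i) (n : ℕ) :
    ‖a n‖ ≤ (p : ℝ)⁻¹ ^ D n := by
  have hp1 : (1 : ℝ) < p := by exact_mod_cast (by omega : 1 < p)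
  by_cases han : a n = 0
  · rw [han, norm_zero]
    positivity
  have hmin : IsMinorant p b ((D (n + 1) : ℝ) - D n) (D n - ((D (n + 1) : ℝ) - D n) * n) := by
    intro i hi
    have hi0 : 0 < ‖b i‖ := norm_pos_iff.2 hi
    have hvi : (D i : ℝ) ≤ - Real.logb p ‖b i‖ := by
      have h1 := Real.logb_le_logb_of_le (b := p) hp1 hi0 (hb1 i)
      rw [dpw_logb_inv hp] at h1
      linarith
    have h2 := dpw_tangent hD n i
    linarith
  have h1 := g1_le_np p hmin (n : ℝ)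
  rw [← h] at h1
  have h2 := h1.trans (g1_np_le p han)
  rw [EReal.coe_le_coe_iff] at h2
  have h3 : (D n : ℝ) ≤ - Real.logb p ‖a n‖ := by linarith
  have h4 : 0 < ‖a n‖ := norm_pos_iff.2 han
  have h5 : Real.logb p ‖a n‖ ≤ Real.logb p ((p : ℝ)⁻¹ ^ D n) := by
    rw [dpw_logb_inv hp]
    linarith
  exact (Real.logb_le_logb hp1 h4 (by positivity)).1 h5

variable {p : ℕ} [Fact p.Prime]

/-- The bound of the coefficients of `a n`. -/
theorem dpw_coeffs_le (hp : 3 ≤ p) (a : ℕ → PowerSeries ℤ_[p])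
    (G : PadicComplex p → ℕ → PadicComplex p) (K : ℕ → ℕ) (t : ℕ → ℤ_[p]) (m : ℕ → ℕ → ℕ)
    (ht : ∀ k, ‖t k‖ ≤ (p : ℝ)⁻¹)
    (hG : ∀ w : PadicComplex p, ‖w‖ < 1 → ∀ n, ‖G w n‖ =
      ∏ k ∈ Finset.range (K n), ‖w - io p (t k)‖ ^ m n k)
    (hdeg : ∀ n, 2 * (∑ k ∈ Finset.range (K (n + 1)), m (n + 1) k) ≤
      (∑ k ∈ Finset.range (K n), m n k) + ∑ k ∈ Finset.range (K (n + 2)), m (n + 2) k)
    (hcent : ∀ w : PadicComplex p, ‖w‖ ≤ (p : ℝ)⁻¹ →
      newtonPolygon p (fun n ↦ evp w (a n)) = newtonPolygon p (G w)) (n l : ℕ) :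
    ‖PowerSeries.coeff l (a n)‖ ≤
      (p : ℝ) ^ l * (p : ℝ)⁻¹ ^ (∑ k ∈ Finset.range (K n), m n k) := by
  classical
  choose s j hs hj using fun k => dp_ex_res (ht k)
  have hj' : ∀ k, ‖s k - dp_ex_c p (j k)‖ ≤ (p : ℝ)⁻¹ := hj
  have hlt : ∀ y : PadicComplex p, ‖y‖ ≤ 1 → ‖(p : PadicComplex p) * y‖ < 1 :=
    fun y hy => lt_of_le_of_lt (dp_ex_py hy) dp_ex_inv_lt
  obtain ⟨y', hy', -, hbd⟩ := exists_generic_point (e := 1) one_ne_zero (a n)
    (Finset.univ.image (dp_ex_c p))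
  simp only [pow_one] at hbd
  have h1 := dpw_le (D := fun n => ∑ k ∈ Finset.range (K n), m n k) hp hdeg
    (hcent _ (dp_ex_py hy'.le)) (fun i => by
      rw [hG _ (hlt y' hy'.le) i]
      exact dp_ex_le hs hj' hy'.le _ _) n
  exact (hbd l).trans (mul_le_mul_of_nonneg_left h1 (by positivity))

/-- The leading coefficient of `a n` at a strict vertex. -/
theorem dpw_coeffs (hp : 3 ≤ p) (a : ℕ → PowerSeries ℤ_[p])
    (G : PadicComplex p → ℕ → PadicComplex p) (K : ℕ → ℕ) (t : ℕ → ℤ_[p]) (m : ℕ → ℕ → ℕ)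
    (ht : ∀ k, ‖t k‖ ≤ (p : ℝ)⁻¹)
    (hG : ∀ w : PadicComplex p, ‖w‖ < 1 → ∀ n, ‖G w n‖ =
      ∏ k ∈ Finset.range (K n), ‖w - io p (t k)‖ ^ m n k)
    (hdeg : ∀ n, 2 * (∑ k ∈ Finset.range (K (n + 1)), m (n + 1) k) ≤
      (∑ k ∈ Finset.range (K n), m n k) + ∑ k ∈ Finset.range (K (n + 2)), m (n + 2) k)
    (hcent : ∀ w : PadicComplex p, ‖w‖ ≤ (p : ℝ)⁻¹ →
      newtonPolygon p (fun n ↦ evp w (a n)) = newtonPolygon p (G w)) {n : ℕ}
    (hn : VtxW (fun n => ∑ k ∈ Finset.range (K n), m n k) n) :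
    ‖PowerSeries.coeff (∑ k ∈ Finset.range (K n), m n k) (a n)‖ = 1 := by
  classical
  choose s j hs hj using fun k => dp_ex_res (ht k)
  have hj' : ∀ k, ‖s k - dp_ex_c p (j k)‖ ≤ (p : ℝ)⁻¹ := hj
  obtain ⟨D, hD⟩ : ∃ D : ℕ → ℕ, D = fun n => ∑ k ∈ Finset.range (K n), m n k := ⟨_, rfl⟩
  have hDn : ∀ n, D n = ∑ k ∈ Finset.range (K n), m n k := fun n => by rw [hD]
  obtain ⟨A, hA⟩ : ∃ A : Fin p → ℕ, A = fun i =>
      ∑ k ∈ Finset.range (K n), (if j k = i then m n k else 0) := ⟨_, rfl⟩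
  have hAi : ∀ i, A i = ∑ k ∈ Finset.range (K n), (if j k = i then m n k else 0) :=
    fun i => by rw [hA]
  rw [← hD] at hn
  have hconv : ∀ n, 2 * D (n + 1) ≤ D n + D (n + 2) := by
    intro n
    rw [hDn, hDn, hDn]
    exact hdeg n
  rw [← hDn n]
  have hlt : ∀ y : PadicComplex p, ‖y‖ ≤ 1 → ‖(p : PadicComplex p) * y‖ < 1 :=
    fun y hy => lt_of_le_of_lt (dp_ex_py hy) dp_ex_inv_lt
  have hev : ∀ y : PadicComplex p, ‖y‖ ≤ 1 →
      (p : ℝ)⁻¹ ^ D n * (3 / 4) ≤ ‖G ((p : PadicComplex p) * y) n‖ →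
      ‖evp ((p : PadicComplex p) * y) (a n)‖ = ‖G ((p : PadicComplex p) * y) n‖ := by
    intro y hy h
    refine dpw_tri (a := fun n ↦ evp ((p : PadicComplex p) * y) (a n)) hp hconv
      (hcent _ (dp_ex_py hy)) (fun i => ?_) hn h
    rw [hG _ (hlt y hy) i, hDn i]
    exact dp_ex_le hs hj' hy _ _
  have h0 := dp_ex_inv_pos (p := p)
  have h3 : (0 : ℝ) < (p : ℝ)⁻¹ ^ D n := by positivity
  -- the two cases
  have ha : ∀ y : PadicComplex p, ‖y‖ ≤ 1 → (∀ i, ‖y - dp_ex_c p i‖ = 1) →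
      ‖evp ((p : PadicComplex p) * y) (a n)‖ = (p : ℝ)⁻¹ ^ D n := by
    intro y hy hy3
    have hg := dp_ex_gen hs hj' hy3 (K n) (m n)
    rw [← hG _ (hlt y hy) n, ← hDn n] at hg
    rw [hev y hy (by rw [hg]; linarith), hg]
  have hb : ∀ (i : Fin p) (y : PadicComplex p), ‖y‖ ≤ 1 → (p : ℝ)⁻¹ < ‖y - dp_ex_c p i‖ →
      ‖y - dp_ex_c p i‖ < 1 → 3 / 4 ≤ ‖y - dp_ex_c p i‖ ^ A i →
      ‖evp ((p : PadicComplex p) * y) (a n)‖ =
        (p : ℝ)⁻¹ ^ D n * ‖y - dp_ex_c p i‖ ^ A i := by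
    intro i y hyn hy hy1 hy2
    have hg := dp_ex_near hs hj' i hy hy1 (K n) (m n)
    rw [← hG _ (hlt y hyn) n, ← hDn n, ← hAi i] at hg
    rw [hev y hyn (by rw [hg]; exact mul_le_mul_of_nonneg_left hy2 h3.le), hg]
  -- a generic point
  obtain ⟨y', hy', hT, hbd⟩ := exists_generic_point (e := 1) one_ne_zero (a n)
    (Finset.univ.image (dp_ex_c p))
  have hy3 : ∀ i, ‖y' - dp_ex_c p i‖ = 1 := by
    intro i
    rcases hT (dp_ex_c p i) (Finset.mem_image_of_mem _ (Finset.mem_univ i)) with h | h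
    · exact h
    · exact absurd (dp_ex_c_le i) h
  -- the polynomial
  have hpow : ∀ k : ℕ, ∀ᶠ r in 𝓝 (1 : ℝ), 3 / 4 < r ^ k := by
    intro k
    have h1 : Tendsto (fun r : ℝ => r ^ k) (𝓝 1) (𝓝 (1 ^ k)) := (continuous_pow k).tendsto 1
    rw [one_pow] at h1
    exact h1.eventually (lt_mem_nhds (by norm_num))
  have hhalf : ∀ᶠ r in 𝓝 (1 : ℝ), (p : ℝ)⁻¹ < r := lt_mem_nhds dp_ex_inv_lt
  have hAsum : ∑ i, A i = D n := by
    rw [hDn, ← dp_ex_sum j (K n) (m n)]
    exact Finset.sum_congr rfl fun i _ => hAi i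
  have hpl := dp_ex_poly (dp_ex_c p) dp_ex_c_le dp_ex_c_sub (dp_ex_P (a n) (D n))
    (dp_ex_P_natDegree _ _) hAsum h3
    (fun y hy hy3 => dp_ex_P_norm hp _ _ hy (ha y hy hy3) (by linarith))
    (fun i => by
      filter_upwards [hpow (A i), hhalf] with r hr1 hr2 y hy hr3
      subst hy
      have hyn : ‖y‖ ≤ 1 := by
        have h1 : y = (y - dp_ex_c p i) - (-dp_ex_c p i) := by ring
        rw [h1]
        exact dp_ex_sub_le hr3.le (by rw [norm_neg]; exact dp_ex_c_le i)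
      exact dp_ex_P_norm hp _ _ hyn (hb i y hyn hr2 hr3 hr1.le)
        (mul_le_mul_of_nonneg_left hr1.le h3.le))
    ⟨y', hy'.le, hy3⟩
  rw [dp_ex_P_coeff, norm_mul, norm_io, norm_pow, norm_p] at hpl
  exact mul_right_cancel₀ h3.ne' (hpl.trans (one_mul _).symm)

/-- The bound of the values outside the central disc. -/
theorem dpw_outer (F : PowerSeries ℤ_[p]) {d : ℕ}
    (h1 : ∀ l, ‖PowerSeries.coeff l F‖ ≤ (p : ℝ) ^ l * (p : ℝ)⁻¹ ^ d) {w : PadicComplex p}
    (hw : (p : ℝ)⁻¹ < ‖w‖) (hw1 : ‖w‖ < 1) : ‖evp w F‖ ≤ ‖w‖ ^ d := by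
  have hp0 : (0 : ℝ) < p := zero_lt_one.trans dp_ex_one_lt
  have hw0 : 0 < ‖w‖ := dp_ex_inv_pos.trans hw
  refine dp_ex_hasSum_le (dp_ex_hasSum F hw1) (by positivity) fun l => ?_
  rw [norm_mul, norm_io, norm_pow]
  rcases le_total l d with h | h
  · obtain ⟨e, rfl⟩ := Nat.exists_eq_add_of_le h
    have h2 : (p : ℝ) ^ l * (p : ℝ)⁻¹ ^ (l + e) = (p : ℝ)⁻¹ ^ e := by
      rw [pow_add, ← mul_assoc, ← mul_pow, mul_inv_cancel₀ hp0.ne', one_pow, one_mul]
    have h3 := h1 l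
    rw [h2] at h3
    have h4 : (p : ℝ)⁻¹ ^ e ≤ ‖w‖ ^ e := pow_le_pow_left₀ dp_ex_inv_pos.le hw.le e
    calc ‖PowerSeries.coeff l F‖ * ‖w‖ ^ l ≤ ‖w‖ ^ e * ‖w‖ ^ l :=
          mul_le_mul_of_nonneg_right (h3.trans h4) (by positivity)
      _ = ‖w‖ ^ (l + e) := by rw [pow_add]; ring
  · calc ‖PowerSeries.coeff l F‖ * ‖w‖ ^ l ≤ 1 * ‖w‖ ^ l :=
          mul_le_mul_of_nonneg_right (PadicInt.norm_le_one _) (by positivity)
      _ ≤ ‖w‖ ^ d := by
          rw [one_mul]
          exact pow_le_pow_of_le_one (norm_nonneg _) hw1.le h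

/-- A sequence which is linear off the set `V` and nonnegative on `V` is nonnegative. -/
theorem dpw_line {E : ℕ → ℝ} {V : ℕ → Prop} (h0 : 0 ≤ E 0) (hV : ∀ n, V n → 0 ≤ E n)
    (hl : ∀ n, ¬ V (n + 1) → E n + E (n + 2) = 2 * E (n + 1)) (hc : ∀ n, ∃ b, n ≤ b ∧ V b) :
    ∀ n, 0 ≤ E n := by
  by_contra hcon
  push Not at hcon
  classical
  have hk := Nat.find_spec hcon
  have hmin : ∀ m < Nat.find hcon, 0 ≤ E m := fun m hm => not_lt.1 (Nat.find_min hcon hm)
  obtain ⟨k, hkd⟩ : ∃ k, k = Nat.find hcon := ⟨_, rfl⟩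
  rw [← hkd] at hk hmin
  obtain ⟨k', rfl⟩ : ∃ k', k = k' + 1 := by
    rcases Nat.exists_eq_succ_of_ne_zero (n := k) (fun h => by
      rw [h] at hk
      linarith) with ⟨k', h⟩
    exact ⟨k', h⟩
  have h1 : 0 ≤ E k' := hmin k' (Nat.lt_succ_self k')
  have h2 : ∀ j : ℕ, E (k' + 1 + j) < 0 ∧ E (k' + 1 + j) < E (k' + j) := by
    intro j
    induction j with
    | zero => exact ⟨by simpa using hk, by simpa using lt_of_lt_of_le hk h1⟩
    | succ j ih =>
      have h3 : ¬ V (k' + j + 1) := fun hv => by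
        have h4 := hV _ hv
        have e1 : k' + j + 1 = k' + 1 + j := by ring
        rw [e1] at h4
        linarith [ih.1]
      have h4 := hl _ h3
      have e1 : k' + j + 1 = k' + 1 + j := by ring
      have e2 : k' + j + 2 = k' + 1 + (j + 1) := by ring
      have e3 : k' + (j + 1) = k' + 1 + j := by ring
      rw [e1, e2] at h4
      rw [e3]
      exact ⟨by linarith [ih.1, ih.2], by linarith [ih.1, ih.2]⟩
  obtain ⟨b, hb, hvb⟩ := hc (k' + 1)
  obtain ⟨j, rfl⟩ := Nat.exists_eq_add_of_le hb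
  linarith [(h2 j).1, hV _ hvb]

/-- The Newton polygon is determined by the strict vertices. -/
theorem dpw_np {K : Type*} [NormedField K] {a b : ℕ → K} {D : ℕ → ℕ} {r : ℝ} (hr0 : 0 < r)
    (hD : ∀ n, 2 * D (n + 1) ≤ D n + D (n + 2))
    (hV : ∀ n, ∃ b, n ≤ b ∧ VtxW D b) (hb : ∀ n, ‖b n‖ = r ^ D n)
    (ha : ∀ n, ‖a n‖ ≤ r ^ D n) (hav : ∀ n, VtxW D n → ‖a n‖ = r ^ D n) :
    newtonPolygon p a = newtonPolygon p b := by
  have hp1 : (1 : ℝ) < p := dp_ex_one_lt
  have hb0 : ∀ n, b n ≠ 0 := fun n => norm_pos_iff.1 (by rw [hb n]; positivity)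
  have h1 : ∀ α β : ℝ, IsMinorant p a α β ↔ IsMinorant p b α β := by
    intro α β
    constructor
    · intro h
      have hv : ∀ n, VtxW D n → α * n + β ≤ - Real.logb p ‖b n‖ := fun n hn => by
        have h2 : a n ≠ 0 := norm_pos_iff.1 (by rw [hav n hn]; positivity)
        have h3 := h n h2
        rwa [hav n hn, ← hb n] at h3
      have h2 : ∀ n, 0 ≤ - Real.logb p ‖b n‖ - (α * n + β) := by
        refine dpw_line (V := VtxW D) ?_ (fun n hn => by linarith [hv n hn]) (fun n hn => ?_) hV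
        · have := hv 0 (Or.inl rfl)
          linarith
        · have h4 : ¬ (2 * D (n + 1) + 1 ≤ D n + D (n + 2)) := fun h5 => hn (Or.inr h5)
          have h5 : 2 * D (n + 1) = D n + D (n + 2) := by
            have := hD n
            omega
          have h6 : (2 : ℝ) * D (n + 1) = D n + D (n + 2) := by exact_mod_cast h5
          rw [hb, hb, hb, Real.logb_pow, Real.logb_pow, Real.logb_pow]
          push_cast
          linear_combination (Real.logb p r) * h6
      intro n _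
      linarith [h2 n]
    · intro h n hn
      have h2 := h n (hb0 n)
      have h3 : 0 < ‖a n‖ := norm_pos_iff.2 hn
      have h4 : Real.logb p ‖a n‖ ≤ Real.logb p ‖b n‖ :=
        Real.logb_le_logb_of_le hp1 h3 (by rw [hb n]; exact ha n)
      linarith
  funext x
  unfold newtonPolygon
  simp only [h1]

/-- From the central disc `‖w‖ ≤ 1/p` to the whole weight disc, `p` odd, weak version: the number
of zeros of `G w n` is a convex function of `n` with arbitrarily large strict vertices. -/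
theorem extendW (hp2 : p ≠ 2) (a : ℕ → PowerSeries ℤ_[p])
    (G : PadicComplex p → ℕ → PadicComplex p) (K : ℕ → ℕ) (t : ℕ → ℤ_[p]) (m : ℕ → ℕ → ℕ)
    (ht : ∀ k, ‖t k‖ ≤ (p : ℝ)⁻¹)
    (hG : ∀ w : PadicComplex p, ‖w‖ < 1 → ∀ n, ‖G w n‖ =
      ∏ k ∈ Finset.range (K n), ‖w - io p (t k)‖ ^ m n k)
    (hdeg : ∀ n, 2 * (∑ k ∈ Finset.range (K (n + 1)), m (n + 1) k) ≤
      (∑ k ∈ Finset.range (K n), m n k) + ∑ k ∈ Finset.range (K (n + 2)), m (n + 2) k)
    (hvtx : ∀ n, ∃ b, n ≤ b ∧ VtxW (fun n => ∑ k ∈ Finset.range (K n), m n k) b)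
    (hcent : ∀ w : PadicComplex p, ‖w‖ ≤ (p : ℝ)⁻¹ →
      newtonPolygon p (fun n ↦ evp w (a n)) = newtonPolygon p (G w))
    {w : PadicComplex p} (hw : ‖w‖ < 1) :
    newtonPolygon p (fun n ↦ evp w (a n)) = newtonPolygon p (G w) := by
  have hp3 : 3 ≤ p := by
    have h1 := (Fact.out : p.Prime).two_le
    omega
  rcases le_or_gt ‖w‖ (p : ℝ)⁻¹ with h | h
  · exact hcent w h
  · have h1 := dpw_coeffs_le hp3 a G K t m ht hG hdeg hcent
    refine dpw_np (D := fun n => ∑ k ∈ Finset.range (K n), m n k) (dp_ex_inv_pos.trans h)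
      hdeg hvtx (fun n => ?_) (fun n => dpw_outer (a n) (h1 n) h hw) (fun n hn => ?_)
    · rw [hG w hw n, dp_ex_outer ht h]
    · exact dp_ex_ev_outer (a n) (fun l _ => h1 n l) (dpw_coeffs hp3 a G K t m ht hG hdeg hcent hn)
        h hw

end DP

end GH
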