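import Pool.Agent.GH.DP.ExtP_b

/-!
# Ghost conjecture, odd `p`: from the central disc to the whole weight disc, counting zeros
-/

open PowerSeries Filter Topology

noncomputable section

namespace GH

namespace DP

open GP

variable {p : ℕ} [Fact p.Prime]

open Classical in
/-- the number of roots near `c` -/
def dp_ex_N (c : PadicComplex p) (R : Multiset (PadicComplex p)) : ℕ := R.countP fun r => ‖r - c‖ < 1

/-- the contribution of the roots outside the unit disc -/
def dp_ex_M (R : Multiset (PadicComplex p)) : ℝ := (R.map fun r => max 1 ‖r‖).prod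

theorem dp_ex_prod (c : PadicComplex p) (s : ℝ) (R : Multiset (PadicComplex p)) (g : PadicComplex p → ℝ)
    (h : ∀ r ∈ R, (‖r - c‖ < 1 → g r = s * max 1 ‖r‖) ∧ (¬ ‖r - c‖ < 1 → g r = max 1 ‖r‖)) :
    (R.map g).prod = s ^ dp_ex_N c R * dp_ex_M R := by
  induction R using Multiset.induction_on with
  | empty => simp [dp_ex_N, dp_ex_M]
  | cons r R ih =>
    have ih' := ih fun q hq => h q (Multiset.mem_cons_of_mem hq)
    obtain ⟨h1, h2⟩ := h r (Multiset.mem_cons_self _ _)
    rw [Multiset.map_cons, Multiset.prod_cons, ih']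
    unfold dp_ex_M dp_ex_N
    rw [Multiset.map_cons, Multiset.prod_cons]
    by_cases hr : ‖r - c‖ < 1
    · rw [Multiset.countP_cons_of_pos (p := fun r : PadicComplex p => ‖r - c‖ < 1) _ hr, h1 hr, pow_succ]
      ring
    · rw [Multiset.countP_cons_of_neg (p := fun r : PadicComplex p => ‖r - c‖ < 1) _ hr, h2 hr]
      ring

theorem dp_ex_eval (P : Polynomial (PadicComplex p)) (y : PadicComplex p) :
    ‖P.eval y‖ = ‖P.leadingCoeff‖ * (P.roots.map fun r => ‖y - r‖).prod := by
  rw [(IsAlgClosed.splits P).eval_eq_prod_roots y, norm_mul]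
  congr 1
  induction P.roots using Multiset.induction_on with
  | empty => simp
  | cons r R ih => simp only [Multiset.map_cons, Multiset.prod_cons, norm_mul, ih]

section

variable {ι : Type} [Fintype ι] (c : ι → PadicComplex p) (hc1 : ∀ i, ‖c i‖ ≤ 1)
  (hcd : ∀ i j, i ≠ j → ‖c i - c j‖ = 1)

open Classical in
include hcd in
theorem dp_ex_card (R : Multiset (PadicComplex p)) :
    ∑ i, dp_ex_N (c i) R = R.countP fun r => ∃ i, ‖r - c i‖ < 1 := by
  induction R using Multiset.induction_on with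
  | empty => simp [dp_ex_N]
  | cons r R ih =>
    by_cases hr : ∃ i, ‖r - c i‖ < 1
    · rw [Multiset.countP_cons_of_pos (p := fun r : PadicComplex p => ∃ i, ‖r - c i‖ < 1) _ hr, ← ih]
      obtain ⟨i, hi⟩ := hr
      rw [← Finset.add_sum_erase _ _ (Finset.mem_univ i),
        ← Finset.add_sum_erase _ (fun i => dp_ex_N (c i) R) (Finset.mem_univ i)]
      have e1 : dp_ex_N (c i) (r ::ₘ R) = dp_ex_N (c i) R + 1 := Multiset.countP_cons_of_pos _ hi
      have e2 : ∑ j ∈ Finset.univ.erase i, dp_ex_N (c j) (r ::ₘ R) =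
          ∑ j ∈ Finset.univ.erase i, dp_ex_N (c j) R := by
        refine Finset.sum_congr rfl fun j hj => ?_
        refine Multiset.countP_cons_of_neg _ fun hj' => ?_
        have hji := (Finset.mem_erase.1 hj).1
        have h1 : c j - c i = (r - c i) - (r - c j) := by ring
        have h2 : ‖c j - c i‖ < 1 := by
          rw [h1, sub_eq_add_neg]
          refine lt_of_le_of_lt (IsUltrametricDist.norm_add_le_max _ _) (max_lt hi ?_)
          rwa [norm_neg]
        exact h2.ne (hcd j i hji)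
      rw [e1, e2]
      ring
    · rw [Multiset.countP_cons_of_neg (p := fun r : PadicComplex p => ∃ i, ‖r - c i‖ < 1) _ hr, ← ih]
      refine Finset.sum_congr rfl fun j _ => ?_
      exact Multiset.countP_cons_of_neg _ fun hj' => hr ⟨j, hj'⟩

include hc1 hcd in
/-- Counting the zeros of a polynomial in residue discs. -/
theorem dp_ex_poly (P : Polynomial (PadicComplex p)) {l : ℕ} {A : ι → ℕ} (hdeg : P.natDegree ≤ l)
    (hAB : ∑ i, A i = l) {v : ℝ} (hv : 0 < v)
    (h0 : ∀ y : PadicComplex p, ‖y‖ ≤ 1 → (∀ i, ‖y - c i‖ = 1) → ‖P.eval y‖ = v)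
    (hA : ∀ i, ∀ᶠ r in 𝓝 (1 : ℝ), ∀ y : PadicComplex p, ‖y - c i‖ = r → r < 1 → ‖P.eval y‖ = v * r ^ A i)
    (hgen : ∃ y : PadicComplex p, ‖y‖ ≤ 1 ∧ ∀ i, ‖y - c i‖ = 1) : ‖P.coeff l‖ = v := by
  classical
  obtain ⟨y0, hy0, hy03⟩ := hgen
  have hroot : ∀ r ∈ P.roots, ‖r‖ ≤ 1 → ∃ i, ‖r - c i‖ < 1 := by
    intro r hr h1
    by_contra h2
    push Not at h2
    have h5 : ∀ i, ‖r - c i‖ = 1 := fun i =>
      le_antisymm (dp_ex_sub_le h1 (hc1 i)) (h2 i)
    have h6 := h0 r h1 h5
    have h7 : P.eval r = 0 := (Polynomial.mem_roots'.1 hr).2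
    rw [h7, norm_zero] at h6
    exact hv.ne h6
  have hin : ∀ i, ∀ r : PadicComplex p, ‖r - c i‖ < 1 → ‖r‖ ≤ 1 := by
    intro i r hr
    have h1 : r = (r - c i) - (-c i) := by ring
    rw [h1]
    exact dp_ex_sub_le hr.le (by rw [norm_neg]; exact hc1 i)
  -- the generic point
  have hg : v = ‖P.leadingCoeff‖ * dp_ex_M P.roots := by
    rw [← h0 y0 hy0 hy03, dp_ex_eval]
    congr 1
    unfold dp_ex_M
    refine congrArg _ (Multiset.map_congr rfl fun r hr => ?_)
    by_cases h1 : ‖r‖ ≤ 1
    · obtain ⟨i, hi⟩ := hroot r hr h1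
      have h2 : y0 - r = (y0 - c i) - (r - c i) := by ring
      rw [h2, dp_ex_sub_left (by rw [hy03 i]; exact hi), hy03 i, max_eq_left h1]
    · push Not at h1
      rw [dp_ex_sub_right (lt_of_le_of_lt hy0 h1), max_eq_right h1.le]
  -- near the centres
  have hN : ∀ i, A i = dp_ex_N (c i) P.roots := by
    intro i
    have hev : ∀ᶠ r in 𝓝 (1 : ℝ), ∀ x ∈ P.roots.toFinset, ‖x - c i‖ < 1 → ‖x - c i‖ < r := by
      rw [Filter.eventually_all_finset]
      intro x _
      by_cases hx : ‖x - c i‖ < 1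
      · filter_upwards [lt_mem_nhds hx] with r hr _ using hr
      · exact Filter.Eventually.of_forall fun r h => absurd h hx
    obtain ⟨z, hz0, hz1, hzA, hzr⟩ := dp_ex_exists_norm (p := p) ((hA i).and hev)
    have hz3 : ‖(z + c i) - c i‖ = ‖z‖ := by rw [add_sub_cancel_right]
    have hzn : ‖z + c i‖ ≤ 1 := hin i _ (by rw [hz3]; exact hz1)
    have h1 := hzA (z + c i) hz3 hz1
    have h2 : ‖P.eval (z + c i)‖ =
        ‖P.leadingCoeff‖ * (‖z‖ ^ dp_ex_N (c i) P.roots * dp_ex_M P.roots) := by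
      rw [dp_ex_eval, dp_ex_prod (c i) ‖z‖]
      intro r hr
      constructor
      · intro h3
        have h4 : z + c i - r = z - (r - c i) := by ring
        rw [h4, dp_ex_sub_left (hzr r (Multiset.mem_toFinset.2 hr) h3), max_eq_left (hin i r h3),
          mul_one]
      · intro h3
        by_cases h4 : ‖r‖ ≤ 1
        · have h5 : ‖r - c i‖ = 1 := le_antisymm (dp_ex_sub_le h4 (hc1 i)) (not_lt.1 h3)
          have h6 : z + c i - r = z - (r - c i) := by ring
          rw [h6, dp_ex_sub_right (by rw [h5]; exact hz1), h5, max_eq_left h4]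
        · push Not at h4
          rw [dp_ex_sub_right (lt_of_le_of_lt hzn h4), max_eq_right h4.le]
    rw [h1, mul_left_comm, ← hg, mul_comm] at h2
    exact pow_right_injective₀ hz0 hz1.ne (mul_right_cancel₀ hv.ne' h2)
  have hcard : P.roots.card = P.natDegree :=
    ((IsAlgClosed.splits P).natDegree_eq_card_roots).symm
  have h1 := dp_ex_card c hcd P.roots
  have h2 : ∑ i, dp_ex_N (c i) P.roots = l := by
    rw [← hAB]
    exact (Finset.sum_congr rfl fun i _ => hN i).symm
  have h3 := Multiset.countP_le_card (p := fun r : PadicComplex p => ∃ i, ‖r - c i‖ < 1) (s := P.roots)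
  have h4 : P.natDegree = l := by omega
  have h5 : P.roots.countP (fun r : PadicComplex p => ∃ i, ‖r - c i‖ < 1) = P.roots.card := by omega
  have h6 : dp_ex_M P.roots = 1 := by
    unfold dp_ex_M
    apply Multiset.prod_eq_one
    intro q hq
    obtain ⟨r, hr, rfl⟩ := Multiset.mem_map.1 hq
    obtain ⟨i, hi⟩ := Multiset.countP_eq_card.1 h5 r hr
    exact max_eq_left (hin i r hi)
  rw [h6, mul_one] at hg
  rw [hg, Polynomial.leadingCoeff, h4]

end

end DP

end GH
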