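import Pool.Agent.GH.DP.BaseP
import Pool.Agent.GH.DP.ExtP_c

open PowerSeries Filter Topology

noncomputable section

namespace GH

namespace DP

open GP

variable {p : ℕ} [Fact p.Prime]

open Polynomial in
/-- the truncation of the power series as a polynomial in `y = w/p` -/
def dp_ex_P (F : PowerSeries ℤ_[p]) (l : ℕ) : Polynomial (PadicComplex p) :=
  ∑ m ∈ Finset.range (l + 1), Polynomial.C (io p (PowerSeries.coeff m F) *
    (p : PadicComplex p) ^ m) * (Polynomial.X : Polynomial (PadicComplex p)) ^ m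

theorem dp_ex_P_natDegree (F : PowerSeries ℤ_[p]) (l : ℕ) : (dp_ex_P F l).natDegree ≤ l := by
  unfold dp_ex_P
  refine Polynomial.natDegree_sum_le_of_forall_le _ _ fun m hm => ?_
  refine (Polynomial.natDegree_C_mul_X_pow_le _ _).trans ?_
  rw [Finset.mem_range] at hm
  omega

theorem dp_ex_P_coeff (F : PowerSeries ℤ_[p]) (l : ℕ) :
    (dp_ex_P F l).coeff l = io p (PowerSeries.coeff l F) * (p : PadicComplex p) ^ l := by
  unfold dp_ex_P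
  rw [Polynomial.finsetSum_coeff]
  simp only [Polynomial.coeff_C_mul_X_pow]
  rw [Finset.sum_ite_eq, if_pos (Finset.mem_range.2 (Nat.lt_succ_self l))]

theorem dp_ex_P_eval (F : PowerSeries ℤ_[p]) (l : ℕ) (y : PadicComplex p) :
    (dp_ex_P F l).eval y =
    ∑ m ∈ Finset.range (l + 1), io p (PowerSeries.coeff m F) *
      ((p : PadicComplex p) * y) ^ m := by
  unfold dp_ex_P
  rw [Polynomial.eval_finsetSum]
  refine Finset.sum_congr rfl fun m _ => ?_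
  rw [Polynomial.eval_mul, Polynomial.eval_C, Polynomial.eval_pow, Polynomial.eval_X, mul_pow]
  ring

theorem dp_ex_py {y : PadicComplex p} (hy : ‖y‖ ≤ 1) : ‖(p : PadicComplex p) * y‖ ≤ (p : ℝ)⁻¹ := by
  rw [norm_mul, norm_p]
  exact mul_le_of_le_one_right (dp_ex_inv_pos (p := p)).le hy

theorem dp_ex_P_norm (hp : 3 ≤ p) (F : PowerSeries ℤ_[p]) (l : ℕ) {y : PadicComplex p}
    (hy : ‖y‖ ≤ 1) {v : ℝ} (hv : ‖evp ((p : PadicComplex p) * y) F‖ = v)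
    (hv1 : (p : ℝ)⁻¹ ^ l * (3 / 4) ≤ v) : ‖(dp_ex_P F l).eval y‖ = v := by
  have h8 := dp_ex_py hy
  have h1 := dp_ex_ev_sub_sum F (w := (p : PadicComplex p) * y)
    (lt_of_le_of_lt h8 dp_ex_inv_lt) l
  rw [← dp_ex_P_eval] at h1
  have h2 : ‖(p : PadicComplex p) * y‖ ^ (l + 1) ≤ (p : ℝ)⁻¹ ^ (l + 1) :=
    pow_le_pow_left₀ (norm_nonneg _) h8 _
  have h0 := dp_ex_inv_pos (p := p)
  have h3 : (0 : ℝ) < (p : ℝ)⁻¹ ^ l := by positivity
  have h4 : (p : ℝ)⁻¹ ≤ 3⁻¹ := inv_anti₀ (by norm_num) (by exact_mod_cast hp)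
  rw [← hv]
  refine dp_ex_norm_eq (lt_of_le_of_lt (h1.trans h2) ?_)
  rw [hv, pow_succ]
  have h5 : (p : ℝ)⁻¹ ^ l * (p : ℝ)⁻¹ ≤ (p : ℝ)⁻¹ ^ l * 3⁻¹ :=
    mul_le_mul_of_nonneg_left h4 h3.le
  linarith

/-- The coefficients of `a n`. -/
theorem dp_ex_coeffs (hp : 3 ≤ p) (a : ℕ → PowerSeries ℤ_[p])
    (G : PadicComplex p → ℕ → PadicComplex p) (K : ℕ → ℕ) (t : ℕ → ℤ_[p]) (m : ℕ → ℕ → ℕ)
    (ht : ∀ k, ‖t k‖ ≤ (p : ℝ)⁻¹)
    (hG : ∀ w : PadicComplex p, ‖w‖ < 1 → ∀ n, ‖G w n‖ =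
      ∏ k ∈ Finset.range (K n), ‖w - io p (t k)‖ ^ m n k)
    (hdeg : ∀ n, 2 * (∑ k ∈ Finset.range (K (n + 1)), m (n + 1) k) + 1 ≤
      (∑ k ∈ Finset.range (K n), m n k) + ∑ k ∈ Finset.range (K (n + 2)), m (n + 2) k)
    (hcent : ∀ w : PadicComplex p, ‖w‖ ≤ (p : ℝ)⁻¹ →
      newtonPolygon p (fun n ↦ evp w (a n)) = newtonPolygon p (G w)) (n : ℕ) :
    (∀ l, ‖PowerSeries.coeff l (a n)‖ ≤
      (p : ℝ) ^ l * (p : ℝ)⁻¹ ^ (∑ k ∈ Finset.range (K n), m n k)) ∧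
      ‖PowerSeries.coeff (∑ k ∈ Finset.range (K n), m n k) (a n)‖ = 1 := by
  classical
  choose s j hs hj using fun k => dp_ex_res (ht k)
  have hj' : ∀ k, ‖s k - dp_ex_c p (j k)‖ ≤ (p : ℝ)⁻¹ := hj
  obtain ⟨D, hD⟩ : ∃ D : ℕ → ℕ, D = fun n => ∑ k ∈ Finset.range (K n), m n k := ⟨_, rfl⟩
  have hDn : ∀ n, D n = ∑ k ∈ Finset.range (K n), m n k := fun n => by rw [hD]
  obtain ⟨A, hA⟩ : ∃ A : Fin p → ℕ, A = fun i =>
      ∑ k ∈ Finset.range (K n), (if j k = i then m n k else 0) := ⟨_, rfl⟩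
  have hAi : ∀ i, A i = ∑ k ∈ Finset.range (K n), (if j k = i then m n k else 0) :=
    fun i => by rw [hA]
  have hconv : ∀ n, 2 * D (n + 1) + 1 ≤ D n + D (n + 2) := by
    intro n
    rw [hDn, hDn, hDn]
    exact hdeg n
  rw [← hDn n]
  have hlt : ∀ y : PadicComplex p, ‖y‖ ≤ 1 → ‖(p : PadicComplex p) * y‖ < 1 :=
    fun y hy => lt_of_le_of_lt (dp_ex_py hy) dp_ex_inv_lt
  have hev : ∀ y : PadicComplex p, ‖y‖ ≤ 1 →
      (p : ℝ)⁻¹ ^ D n * (3 / 4) ≤ ‖G ((p : PadicComplex p) * y) n‖ →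
      ‖evp ((p : PadicComplex p) * y) (a n)‖ = ‖G ((p : PadicComplex p) * y) n‖ := by
    intro y hy h
    refine dp_ex_tri (a := fun n ↦ evp ((p : PadicComplex p) * y) (a n)) hp hconv
      (hcent _ (dp_ex_py hy)) (fun i => ?_) h
    rw [hG _ (hlt y hy) i, hDn i]
    exact dp_ex_le hs hj' hy _ _
  have h0 := dp_ex_inv_pos (p := p)
  have h3 : (0 : ℝ) < (p : ℝ)⁻¹ ^ D n := by positivity
  -- the two cases
  have ha : ∀ y : PadicComplex p, ‖y‖ ≤ 1 → (∀ i, ‖y - dp_ex_c p i‖ = 1) →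
      ‖evp ((p : PadicComplex p) * y) (a n)‖ = (p : ℝ)⁻¹ ^ D n := by
    intro y hy hy3
    have hg := dp_ex_gen hs hj' hy3 (K n) (m n)
    rw [← hG _ (hlt y hy) n, ← hDn n] at hg
    rw [hev y hy (by rw [hg]; linarith), hg]
  have hb : ∀ (i : Fin p) (y : PadicComplex p), ‖y‖ ≤ 1 → (p : ℝ)⁻¹ < ‖y - dp_ex_c p i‖ →
      ‖y - dp_ex_c p i‖ < 1 → 3 / 4 ≤ ‖y - dp_ex_c p i‖ ^ A i →
      ‖evp ((p : PadicComplex p) * y) (a n)‖ =
        (p : ℝ)⁻¹ ^ D n * ‖y - dp_ex_c p i‖ ^ A i := by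
    intro i y hyn hy hy1 hy2
    have hg := dp_ex_near hs hj' i hy hy1 (K n) (m n)
    rw [← hG _ (hlt y hyn) n, ← hDn n, ← hAi i] at hg
    rw [hev y hyn (by rw [hg]; exact mul_le_mul_of_nonneg_left hy2 h3.le), hg]
  -- a generic point
  obtain ⟨y', hy', hT, hbd⟩ := exists_generic_point (e := 1) one_ne_zero (a n)
    (Finset.univ.image (dp_ex_c p))
  have hy3 : ∀ i, ‖y' - dp_ex_c p i‖ = 1 := by
    intro i
    rcases hT (dp_ex_c p i) (Finset.mem_image_of_mem _ (Finset.mem_univ i)) with h | h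
    · exact h
    · exact absurd (dp_ex_c_le i) h
  simp only [pow_one] at hbd
  rw [ha y' hy'.le hy3] at hbd
  refine ⟨hbd, ?_⟩
  -- the polynomial
  have hpow : ∀ k : ℕ, ∀ᶠ r in 𝓝 (1 : ℝ), 3 / 4 < r ^ k := by
    intro k
    have h1 : Tendsto (fun r : ℝ => r ^ k) (𝓝 1) (𝓝 (1 ^ k)) := (continuous_pow k).tendsto 1
    rw [one_pow] at h1
    exact h1.eventually (lt_mem_nhds (by norm_num))
  have hhalf : ∀ᶠ r in 𝓝 (1 : ℝ), (p : ℝ)⁻¹ < r := lt_mem_nhds dp_ex_inv_lt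
  have hAsum : ∑ i, A i = D n := by
    rw [hDn, ← dp_ex_sum j (K n) (m n)]
    exact Finset.sum_congr rfl fun i _ => hAi i
  have hpl := dp_ex_poly (dp_ex_c p) dp_ex_c_le dp_ex_c_sub (dp_ex_P (a n) (D n))
    (dp_ex_P_natDegree _ _) hAsum h3
    (fun y hy hy3 => dp_ex_P_norm hp _ _ hy (ha y hy hy3) (by linarith))
    (fun i => by
      filter_upwards [hpow (A i), hhalf] with r hr1 hr2 y hy hr3
      subst hy
      have hyn : ‖y‖ ≤ 1 := by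
        have h1 : y = (y - dp_ex_c p i) - (-dp_ex_c p i) := by ring
        rw [h1]
        exact dp_ex_sub_le hr3.le (by rw [norm_neg]; exact dp_ex_c_le i)
      exact dp_ex_P_norm hp _ _ hyn (hb i y hyn hr2 hr3 hr1.le)
        (mul_le_mul_of_nonneg_left hr1.le h3.le))
    ⟨y', hy'.le, hy3⟩
  rw [dp_ex_P_coeff, norm_mul, norm_io, norm_pow, norm_p] at hpl
  exact mul_right_cancel₀ h3.ne' (hpl.trans (one_mul _).symm)

/-- From the central disc `‖w‖ ≤ 1/p` to the whole weight disc, `p` odd. The ghost series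
`G w n` has the zeros `t k ∈ p ℤ_p` with multiplicity `m n k`, and their number is a strictly
convex function of `n`. -/
theorem extendP (hp2 : p ≠ 2) (a : ℕ → PowerSeries ℤ_[p])
    (G : PadicComplex p → ℕ → PadicComplex p) (K : ℕ → ℕ) (t : ℕ → ℤ_[p]) (m : ℕ → ℕ → ℕ)
    (ht : ∀ k, ‖t k‖ ≤ (p : ℝ)⁻¹)
    (hG : ∀ w : PadicComplex p, ‖w‖ < 1 → ∀ n, ‖G w n‖ =
      ∏ k ∈ Finset.range (K n), ‖w - io p (t k)‖ ^ m n k)
    (hdeg : ∀ n, 2 * (∑ k ∈ Finset.range (K (n + 1)), m (n + 1) k) + 1 ≤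
      (∑ k ∈ Finset.range (K n), m n k) + ∑ k ∈ Finset.range (K (n + 2)), m (n + 2) k)
    (hcent : ∀ w : PadicComplex p, ‖w‖ ≤ (p : ℝ)⁻¹ →
      newtonPolygon p (fun n ↦ evp w (a n)) = newtonPolygon p (G w))
    {w : PadicComplex p} (hw : ‖w‖ < 1) :
    newtonPolygon p (fun n ↦ evp w (a n)) = newtonPolygon p (G w) := by
  have hp3 : 3 ≤ p := by
    have h1 := (Fact.out : p.Prime).two_le
    omega
  rcases le_or_gt ‖w‖ (p : ℝ)⁻¹ with h | h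
  · exact hcent w h
  · refine g1_np_congr p fun n => ?_
    obtain ⟨h1, h2⟩ := dp_ex_coeffs hp3 a G K t m ht hG hdeg hcent n
    rw [hG w hw n, dp_ex_outer ht h]
    exact dp_ex_ev_outer (a n) (fun l _ => h1 l) h2 h hw

end DP

end GH
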