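import Pool.Agent.GH.DP.BaseP
import Pool.Agent.GH.D3.FredFam3

open PowerSeries Filter Topology

noncomputable section

namespace GH

namespace DP

open GP

variable {p : ℕ} [Fact p.Prime]

theorem dp_ff_norm_io (a : ℤ_[p]) : ‖io p a‖ = ‖a‖ := GP.norm_io a

theorem dp_ff_norm_term (w : PadicComplex p) (F : PowerSeries ℤ_[p]) (n : ℕ) :
    ‖io p (PowerSeries.coeff n F) * w ^ n‖ ≤ ‖w‖ ^ n := by
  rw [norm_mul, norm_pow, dp_ff_norm_io]
  exact mul_le_of_le_one_left (by positivity) (PadicInt.norm_le_one _)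

theorem dp_ff_summable_norm {w : PadicComplex p} (hw : ‖w‖ < 1) (F : PowerSeries ℤ_[p]) :
    Summable fun n ↦ ‖io p (PowerSeries.coeff n F) * w ^ n‖ :=
  Summable.of_nonneg_of_le (fun _ ↦ norm_nonneg _) (dp_ff_norm_term w F)
    (summable_geometric_of_lt_one (norm_nonneg _) hw)

theorem dp_ff_summable {w : PadicComplex p} (hw : ‖w‖ < 1) (F : PowerSeries ℤ_[p]) :
    Summable fun n ↦ io p (PowerSeries.coeff n F) * w ^ n :=
  (dp_ff_summable_norm hw F).of_norm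

theorem dp_ff_ev_add {w : PadicComplex p} (hw : ‖w‖ < 1) (F G : PowerSeries ℤ_[p]) :
    evp w (F + G) = evp w F + evp w G := by
  unfold evp
  rw [← (dp_ff_summable hw F).tsum_add (dp_ff_summable hw G)]
  refine tsum_congr fun n ↦ ?_
  rw [map_add, map_add, add_mul]

theorem dp_ff_ev_mul {w : PadicComplex p} (hw : ‖w‖ < 1) (F G : PowerSeries ℤ_[p]) :
    evp w (F * G) = evp w F * evp w G := by
  unfold evp
  rw [tsum_mul_tsum_eq_tsum_sum_antidiagonal_of_summable_norm (dp_ff_summable_norm hw F)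
    (dp_ff_summable_norm hw G)]
  refine tsum_congr fun n ↦ ?_
  rw [PowerSeries.coeff_mul, map_sum, Finset.sum_mul]
  refine Finset.sum_congr rfl fun kl hkl ↦ ?_
  rw [← Finset.HasAntidiagonal.mem_antidiagonal.1 hkl, map_mul, pow_add]
  ring

theorem dp_ff_ev_C (w : PadicComplex p) (a : ℤ_[p]) : evp w (PowerSeries.C a) = io p a := by
  unfold evp
  rw [tsum_eq_single 0]
  · simp
  · intro n hn
    rw [PowerSeries.coeff_C, if_neg hn, map_zero, zero_mul]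

theorem dp_ff_ev_X (w : PadicComplex p) : evp w X = w := by
  unfold evp
  rw [tsum_eq_single 1]
  · simp
  · intro n hn
    rw [PowerSeries.coeff_X, if_neg hn, map_zero, zero_mul]

/-- the evaluation as a ring homomorphism -/
def dp_ff_evHom {w : PadicComplex p} (hw : ‖w‖ < 1) : PowerSeries ℤ_[p] →+* PadicComplex p where
  toFun := evp w
  map_one' := by
    have h := dp_ff_ev_C w 1
    rwa [map_one, map_one] at h
  map_mul' := dp_ff_ev_mul hw
  map_zero' := by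
    have h := dp_ff_ev_C w 0
    rwa [map_zero, map_zero] at h
  map_add' := dp_ff_ev_add hw

theorem dp_ff_norm_ev_le {w : PadicComplex p} (hw : ‖w‖ < 1) (F : PowerSeries ℤ_[p]) : ‖evp w F‖ ≤ 1 := by
  unfold evp
  refine (IsUltrametricDist.norm_tsum_le _).trans (ciSup_le fun n ↦ ?_)
  exact (dp_ff_norm_term w F n).trans (pow_le_one₀ (norm_nonneg _) hw.le)

theorem dp_ff_exists_hom {w : PadicComplex p} (hw : ‖w‖ < 1) :
    ∃ φ : PowerSeries ℤ_[p] →+* PadicComplex p, ∀ F, φ F = evp w F := ⟨dp_ff_evHom hw, fun _ => rfl⟩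

/-- A point of norm in a given interval below one. -/
theorem dp_ff_exists_norm (ρ : ℝ) (hρ : ρ < 1) :
    ∃ t : PadicComplex p, ρ < ‖t‖ ∧ 0 < ‖t‖ ∧ ‖t‖ < 1 := by
  have hp1 : (1 : ℝ) < p := by exact_mod_cast (Fact.out : p.Prime).one_lt
  have hp0 : (0 : ℝ) < p := zero_lt_one.trans hp1
  have hpi : (0 : ℝ) < (p : ℝ)⁻¹ := inv_pos.2 hp0
  have hpi1 : (p : ℝ)⁻¹ < 1 := inv_lt_one_of_one_lt₀ hp1
  have h1 : Tendsto (fun n : ℕ => (max ρ 0) ^ n) atTop (𝓝 0) :=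
    tendsto_pow_atTop_nhds_zero_of_lt_one (le_max_right _ _) (max_lt hρ one_pos)
  obtain ⟨n, hn⟩ := (h1.eventually_lt_const hpi).exists
  have hn0 : n ≠ 0 := by
    rintro rfl
    rw [pow_zero] at hn
    linarith
  obtain ⟨t, ht⟩ := IsAlgClosed.exists_pow_nat_eq (p : PadicComplex p) (Nat.pos_of_ne_zero hn0)
  have h2 : ‖t‖ ^ n = (p : ℝ)⁻¹ := by
    rw [← norm_pow, ht, GP.norm_p]
  refine ⟨t, ?_, ?_, ?_⟩
  · by_contra hc
    push Not at hc
    have : ‖t‖ ^ n ≤ max ρ 0 ^ n :=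
      pow_le_pow_left₀ (norm_nonneg _) (hc.trans (le_max_left _ _)) n
    linarith
  · rcases (norm_nonneg t).lt_or_eq with h | h
    · exact h
    · rw [← h, zero_pow hn0] at h2
      linarith
  · by_contra hc
    push Not at hc
    have := one_le_pow₀ hc (n := n)
    linarith

/-- Gauss norm on the disc of radius `‖t‖`. -/
theorem dp_ff_coeff_le (F : PowerSeries ℤ_[p]) {t : PadicComplex p} (ht : ‖t‖ < 1) {B : ℝ}
    (h : ∀ w : PadicComplex p, ‖w‖ ≤ ‖t‖ → ‖evp w F‖ ≤ B) (m : ℕ) :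
    ‖PowerSeries.coeff m F‖ * ‖t‖ ^ m ≤ B := by
  set a : ℕ → PadicComplex p := fun m => io p (PowerSeries.coeff m F) * t ^ m with ha
  have hna : ∀ m, ‖a m‖ = ‖PowerSeries.coeff m F‖ * ‖t‖ ^ m := fun m => by
    rw [ha]
    simp only
    rw [norm_mul, norm_pow, dp_ff_norm_io]
  have ha0 : Tendsto a atTop (𝓝 0) := by
    have h1 : Tendsto (fun m : ℕ => ‖t‖ ^ m) atTop (𝓝 0) :=
      tendsto_pow_atTop_nhds_zero_of_lt_one (norm_nonneg _) ht
    refine squeeze_zero_norm (fun m => ?_) h1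
    rw [hna]
    exact mul_le_of_le_one_left (by positivity) (PadicInt.norm_le_one _)
  obtain ⟨x, hx, -, hx2⟩ := GP.exists_generic_series ha0 ∅ (by simp)
  have h2 : ∑' n, a n * x ^ n = evp (t * x) F := by
    unfold evp
    refine tsum_congr fun n => ?_
    rw [ha]
    simp only
    rw [mul_pow]
    ring
  rw [← hna]
  refine (hx2 m).trans ?_
  rw [h2]
  apply h
  rw [norm_mul, hx, mul_one]

theorem dp_ff_ev_le (F : PowerSeries ℤ_[p]) {t w : PadicComplex p} (hw : ‖w‖ ≤ ‖t‖) {B : ℝ} (hB : 0 ≤ B)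
    (h : ∀ m, ‖PowerSeries.coeff m F‖ * ‖t‖ ^ m ≤ B) : ‖evp w F‖ ≤ B := by
  unfold evp
  refine ud_tsum_le _ hB fun m => ?_
  rw [norm_mul, norm_pow, dp_ff_norm_io]
  exact (mul_le_mul_of_nonneg_left (pow_le_pow_left₀ (norm_nonneg _) hw m)
    (norm_nonneg _)).trans (h m)

/-- The coefficients of the finite blocks over `ℤ_p[[W]]`. -/
def dp_ff_fA (Cc : ℕ → ℕ → PowerSeries ℤ_[p]) (N m : ℕ) : PowerSeries ℤ_[p] :=
  (Matrix.charpolyRev (Matrix.of fun i j : Fin N ↦ Cc (i + 1) (j + 1))).coeff m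

theorem dp_ff_ev_fA (Cc : ℕ → ℕ → PowerSeries ℤ_[p]) {w : PadicComplex p} (hw : ‖w‖ < 1) (N m : ℕ) :
    evp w (dp_ff_fA Cc N m) = fredBlock (fun i j ↦ evp w (Cc i j)) N m := by
  obtain ⟨φ, hφ⟩ := dp_ff_exists_hom hw
  rw [← hφ]
  unfold dp_ff_fA fredBlock
  have h1 : (Matrix.charpolyRev (Matrix.of fun i j : Fin N ↦ evp w (Cc (i + 1) (j + 1)))) =
      (Matrix.charpolyRev (Matrix.of fun i j : Fin N ↦ Cc (i + 1) (j + 1))).map φ := by
    unfold Matrix.charpolyRev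
    rw [← Polynomial.coe_mapRingHom, RingHom.map_det]
    congr 1
    ext i j : 2
    simp [hφ, Matrix.one_apply, apply_ite]
  rw [h1, Polynomial.coeff_map]

/-- (F3) the family version over `ℤ_p[[W]]`. -/
theorem exists_fred_familyP (Cc : ℕ → ℕ → PowerSeries ℤ_[p]) (h0 : ∀ i j, p * i < j → Cc i j = 0)
    (hb : ∀ ρ : ℝ, ρ < 1 → ∃ R : ℝ, 1 < R ∧ ∃ c : ℝ, 0 < c ∧ ∀ w : PadicComplex p, ‖w‖ ≤ ρ →
      ∀ i j : ℕ, j ≤ p * i → ‖evp w (Cc i j)‖ ≤ c * R⁻¹ ^ (p * i - j)) :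
    ∃ a : ℕ → PowerSeries ℤ_[p], ∀ w : PadicComplex p, ‖w‖ < 1 → ∀ m : ℕ,
      Tendsto (fun N ↦ fredBlock (fun i j ↦ evp w (Cc i j)) N m) atTop (𝓝 (evp w (a m))) := by
  have hsubev : ∀ {w : PadicComplex p}, ‖w‖ < 1 → ∀ F G : PowerSeries ℤ_[p], evp w (F - G) = evp w F - evp w G := by
    intro w hw F G
    obtain ⟨φ, hφ⟩ := dp_ff_exists_hom hw
    rw [← hφ, ← hφ, ← hφ, map_sub]
  -- uniform estimates on closed discs
  have key : ∀ t : PadicComplex p, 0 < ‖t‖ → ‖t‖ < 1 → ∀ m : ℕ, ∃ ε : ℕ → ℝ, (∀ N, 0 ≤ ε N) ∧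
      Tendsto ε atTop (𝓝 0) ∧ ∀ N N', N ≤ N' → ∀ l,
        ‖PowerSeries.coeff l (dp_ff_fA Cc N' m) - PowerSeries.coeff l (dp_ff_fA Cc N m)‖ * ‖t‖ ^ l ≤
          ε N := by
    intro t ht0 ht m
    obtain ⟨R, hR, c, hc, hRc⟩ := hb ‖t‖ ht
    have hR0 : 0 < R := zero_lt_one.trans hR
    have hs : 1 < Real.sqrt R := by
      rw [Real.lt_sqrt zero_le_one]
      simpa using hR
    have hs0 : 0 < Real.sqrt R := zero_lt_one.trans hs
    refine ⟨fun N => max 1 c ^ m * (Real.sqrt R)⁻¹ ^ (N + 1), fun N => by positivity, ?_, ?_⟩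
    · have h1 : (Real.sqrt R)⁻¹ < 1 := inv_lt_one_of_one_lt₀ hs
      have h2 := (tendsto_pow_atTop_nhds_zero_of_lt_one (by positivity) h1).comp
        (tendsto_add_atTop_nat 1)
      simpa using h2.const_mul (max 1 c ^ m)
    · intro N N' hN l
      rw [← map_sub]
      refine dp_ff_coeff_le _ ht (fun w hw => ?_) l
      have hw1 : ‖w‖ < 1 := hw.trans_lt ht
      rw [hsubev hw1, dp_ff_ev_fA Cc hw1, dp_ff_ev_fA Cc hw1]
      have hev0 : evp w 0 = 0 := by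
        obtain ⟨φ, hφ⟩ := dp_ff_exists_hom hw1
        rw [← hφ, map_zero]
      exact D3.d3_block_sub (p := p) (Fact.out : p.Prime).two_le (D3.d3_decay p (fun i j ↦ evp w (Cc i j))
        (fun i j hij => by rw [h0 i j hij, hev0]) R c hR (hRc w hw)) hN m
  -- the limits of the coefficients
  obtain ⟨t0, -, ht00, ht01⟩ := dp_ff_exists_norm (p := p) 0 one_pos
  have hlim : ∀ m l, ∃ b : ℤ_[p], Tendsto (fun N => PowerSeries.coeff l (dp_ff_fA Cc N m)) atTop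
      (𝓝 b) := by
    intro m l
    obtain ⟨ε, hε0, hε, hεl⟩ := key t0 ht00 ht01 m
    refine cauchySeq_tendsto_of_complete
      (cauchySeq_of_le_tendsto_0 (fun N => 2 * (ε N / ‖t0‖ ^ l)) ?_ ?_)
    · intro N N' M hN hN'
      rw [dist_eq_norm]
      have e : PowerSeries.coeff l (dp_ff_fA Cc N m) - PowerSeries.coeff l (dp_ff_fA Cc N' m) =
          (PowerSeries.coeff l (dp_ff_fA Cc N m) - PowerSeries.coeff l (dp_ff_fA Cc M m)) -
          (PowerSeries.coeff l (dp_ff_fA Cc N' m) - PowerSeries.coeff l (dp_ff_fA Cc M m)) := by ring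
      rw [e]
      have h1 := hεl M N hN l
      have h2 := hεl M N' hN' l
      rw [← le_div_iff₀ (by positivity)] at h1 h2
      refine (norm_sub_le _ _).trans ?_
      linarith
    · simpa using (hε.div_const (‖t0‖ ^ l)).const_mul 2
  choose b hb' using hlim
  refine ⟨fun m => PowerSeries.mk fun l => b m l, fun w hw m => ?_⟩
  obtain ⟨t, htw, ht0, ht1⟩ := dp_ff_exists_norm (p := p) ‖w‖ hw
  obtain ⟨ε, hε0, hε, hεl⟩ := key t ht0 ht1 m
  have h1 : ∀ N l, ‖PowerSeries.coeff l ((PowerSeries.mk fun l => b m l) - dp_ff_fA Cc N m)‖ *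
      ‖t‖ ^ l ≤ ε N := by
    intro N l
    rw [map_sub, PowerSeries.coeff_mk]
    have h2 : Tendsto (fun N' => ‖PowerSeries.coeff l (dp_ff_fA Cc N' m) -
        PowerSeries.coeff l (dp_ff_fA Cc N m)‖ * ‖t‖ ^ l) atTop
        (𝓝 (‖b m l - PowerSeries.coeff l (dp_ff_fA Cc N m)‖ * ‖t‖ ^ l)) :=
      (((hb' m l).sub tendsto_const_nhds).norm).mul_const _
    refine le_of_tendsto h2 ?_
    filter_upwards [eventually_ge_atTop N] with N' hN'
    exact hεl N N' hN' l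
  rw [tendsto_iff_norm_sub_tendsto_zero]
  refine squeeze_zero (fun N => norm_nonneg _) (fun N => ?_) hε
  rw [← dp_ff_ev_fA Cc hw, norm_sub_rev, ← hsubev hw]
  exact dp_ff_ev_le _ htw.le (hε0 N) (h1 N)

end DP

end GH
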