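import Pool.Agent.GH.DP.CompactP
import Pool.Agent.GH.DefsUL
import Pool.Agent.GH.Compact
import Pool.Agent.GH.D3.Main3

/-!
# `U_p` is completely continuous on the overconvergent cusp forms, `p = 2, 3`
-/

open PowerSeries Filter Topology

noncomputable section

namespace GH

namespace DP

theorem compactU_two (κ : Weight 2) (hκ : κ.IsEven) : ∃ R : ℝ, 1 < R ∧ ∀ r : ℝ, 1 < r → r < R →
    (∀ F : PowerSeries (PadicComplex 2), κ.IsCuspFormU r F → κ.IsCuspFormU (r ^ 2) (U 2 F)) ∧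
    (∀ F : PowerSeries (PadicComplex 2), κ.IsCuspFormU r F → ∀ i : ℕ,
      fcoeff 2 (κ.frame⁻¹ * U 2 F) i =
        ∑ j ∈ Finset.range (2 * i + 1), κ.uMatrixU i j * fcoeff 2 (κ.frame⁻¹ * F) j) ∧
    (∃ ε : ℕ → ℝ, Tendsto ε atTop (𝓝 0) ∧
      ∀ i j : ℕ, 1 ≤ j → ‖κ.uMatrixU i j‖ * r ^ i ≤ ε i * r ^ j) := by
  obtain ⟨R, hR, c, hc, hA, hA0⟩ := cp_decay κ hκ
  rw [← κ.uMatrixU_of_nu (κ.nu_two hκ)] at hA hA0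
  exact ⟨R, hR, fun r hr hrR ↦ compactU_of_decay κ hR hc (fun i j _ h ↦ hA i j h)
    (fun i j _ h ↦ hA0 i j h) r hr hrR⟩

theorem decay_three (κ : Weight 3) (hκ : κ.IsEven) : ∃ R : ℝ, 1 < R ∧ ∃ c : ℝ, 0 < c ∧
    (∀ i j : ℕ, j ≤ 3 * i → ‖κ.uMatrix i j‖ ≤ c * R⁻¹ ^ (3 * i - j)) ∧
    (∀ i j : ℕ, 3 * i < j → κ.uMatrix i j = 0) := by
  obtain ⟨E, hE1, hE2, hE3, hE4, hE5⟩ := D3.exists_eisFam3
  have hE : D3.EisFamily3 E := ⟨hE1, hE2, hE3, hE4, hE5⟩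
  obtain ⟨u, hu1, hu2, hu3⟩ := D3.exists_ord3 (fun x ↦ D3.Mat3_zero_zero x)
    (fun x hx i j h ↦ D3.norm_Mat3_le (by norm_num) hx h)
    (fun x hx i j h ↦ D3.norm_Mat3_lt hx h) (fun i j ↦ D3.Mat3_isPoly 0 i j)
  have hu : D3.OrdVec3 u := ⟨hu1, hu2, hu3⟩
  have hPhi : ∀ w : D3.C3, ‖w‖ ≤ 1 / 3 → ∀ l, ‖D3.ev3 w (D3.Phi3 E l)‖ * (7 / 6 : ℝ) ^ l ≤ 1 :=
    fun w hw l ↦ D3.norm_Phi3_central E hE u hu hw l
  have hb := D3.norm_famMatrix3_le E hE hPhi D3.norm_coeff_le_of_bound3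
  have hw : ‖κ.w‖ < 1 := D3.norm_w_lt_one3 κ hκ
  obtain ⟨R, hR, c, hc, h⟩ := hb ‖κ.w‖ hw
  refine ⟨R, hR, c, hc, fun i j hij ↦ ?_, fun i j hij ↦ ?_⟩
  · rw [D3.uMatrix3_eq E hE κ hκ i j]
    exact h κ.w le_rfl i j hij
  · rw [D3.uMatrix3_eq E hE κ hκ i j, D3.famMatrix3_of_lt E hE hij]
    have := D3.ev3_C hw 0
    simpa using this

theorem compactU_three (κ : Weight 3) (hκ : κ.IsEven) : ∃ R : ℝ, 1 < R ∧ ∀ r : ℝ, 1 < r → r < R →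
    (∀ F : PowerSeries (PadicComplex 3), κ.IsCuspFormU r F → κ.IsCuspFormU (r ^ 3) (U 3 F)) ∧
    (∀ F : PowerSeries (PadicComplex 3), κ.IsCuspFormU r F → ∀ i : ℕ,
      fcoeff 3 (κ.frame⁻¹ * U 3 F) i =
        ∑ j ∈ Finset.range (3 * i + 1), κ.uMatrixU i j * fcoeff 3 (κ.frame⁻¹ * F) j) ∧
    (∃ ε : ℕ → ℝ, Tendsto ε atTop (𝓝 0) ∧
      ∀ i j : ℕ, 1 ≤ j → ‖κ.uMatrixU i j‖ * r ^ i ≤ ε i * r ^ j) := by
  obtain ⟨R, hR, c, hc, hA, hA0⟩ := decay_three κ hκ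
  rw [← κ.uMatrixU_of_nu (κ.nu_three hκ)] at hA hA0
  exact ⟨R, hR, fun r hr hrR ↦ compactU_of_decay κ hR hc (fun i j _ h ↦ hA i j h)
    (fun i j _ h ↦ hA0 i j h) r hr hrR⟩

end DP

end GH
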