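import Pool.Agent.GH.ExtA
import Pool.Agent.GH.DP.BaseP

/-!
# Ghost conjecture, odd `p`: from the central disc to the whole weight disc, Newton polygons
-/

open PowerSeries Filter Topology

noncomputable section

namespace GH

namespace DP

/-- A strict vertex of the Newton polygon of `b` is a point of any series with the same
polygon. -/
theorem dp_ex_vertex {p : ℕ} (hp : 1 < p) {K : Type*} [NormedField K] {a b : ℕ → K}
    (h : newtonPolygon p a = newtonPolygon p b) {n : ℕ} (hb : b n ≠ 0) {α ε : ℝ} (hε : 0 < ε)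
    (hv : ∀ i : ℕ, b i ≠ 0 → - Real.logb p ‖b n‖ + α * ((i : ℝ) - n) + ε * |(i : ℝ) - n| ≤
      - Real.logb p ‖b i‖) : ‖a n‖ = ‖b n‖ := by
  have hp1 : (1 : ℝ) < p := by exact_mod_cast hp
  obtain ⟨g, hg⟩ : ∃ g : ℝ, g = - Real.logb p ‖b n‖ := ⟨_, rfl⟩
  rw [← hg] at hv
  -- three minorants of `b`
  have hmp : IsMinorant p b (α + ε) (g - (α + ε) * n) := by
    intro i hi
    refine le_trans ?_ (hv i hi)
    have h1 := mul_le_mul_of_nonneg_left (le_abs_self ((i : ℝ) - n)) hε.le
    linarith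
  have hmm : IsMinorant p b (α - ε) (g - (α - ε) * n) := by
    intro i hi
    refine le_trans ?_ (hv i hi)
    have h1 := mul_le_mul_of_nonneg_left (neg_abs_le ((i : ℝ) - n)) hε.le
    linarith
  have hnb : newtonPolygon p b n ≤ ((g : ℝ) : EReal) := by
    have h1 := g1_np_le p hb
    rw [← hg] at h1
    exact h1
  -- lower bounds for `a`
  have hai : ∀ i : ℕ, a i ≠ 0 → g + α * ((i : ℝ) - n) + ε * |(i : ℝ) - n| ≤
      - Real.logb p ‖a i‖ := by
    intro i hi
    have h1 := g1_np_le p hi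
    rw [h] at h1
    rcases le_total (n : ℝ) i with h2 | h2
    · have h3 := (g1_le_np p hmp i).trans h1
      rw [EReal.coe_le_coe_iff] at h3
      rw [abs_of_nonneg (by linarith)]
      linarith
    · have h3 := (g1_le_np p hmm i).trans h1
      rw [EReal.coe_le_coe_iff] at h3
      rw [abs_of_nonpos (by linarith)]
      linarith
  have hint : ∀ i : ℕ, i ≠ n → 1 ≤ |(i : ℝ) - n| := by
    intro i hi
    have h1 : (i : ℤ) - n ≠ 0 := by omega
    have h2 : 1 ≤ |(i : ℤ) - n| := Int.one_le_abs h1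
    exact_mod_cast h2
  -- the value at `n`
  have han : a n ≠ 0 := by
    intro h0
    have hmin : IsMinorant p a α (g + ε - α * n) := by
      intro i hi
      have hin : i ≠ n := fun h1 => hi (h1 ▸ h0)
      refine le_trans ?_ (hai i hi)
      have h1 := mul_le_mul_of_nonneg_left (hint i hin) hε.le
      linarith
    have h1 := (g1_le_np p hmin n).trans (h ▸ hnb)
    rw [EReal.coe_le_coe_iff] at h1
    linarith
  have hge : g ≤ - Real.logb p ‖a n‖ := by
    have h1 := hai n han
    simp only [sub_self, mul_zero, abs_zero, add_zero] at h1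
    exact h1
  have hle : - Real.logb p ‖a n‖ ≤ g := by
    by_contra hlt
    push Not at hlt
    obtain ⟨δ, hδ⟩ : ∃ δ : ℝ, δ = min ε (- Real.logb p ‖a n‖ - g) := ⟨_, rfl⟩
    have hδ0 : 0 < δ := hδ ▸ lt_min hε (by linarith)
    have hδ1 : δ ≤ ε := hδ ▸ min_le_left _ _
    have hδ2 : δ ≤ - Real.logb p ‖a n‖ - g := hδ ▸ min_le_right _ _
    have hmin : IsMinorant p a α (g + δ - α * n) := by
      intro i hi
      by_cases hin : i = n
      · subst hin
        linarith
      · refine le_trans ?_ (hai i hi)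
        have h1 := mul_le_mul_of_nonneg_left (hint i hin) hε.le
        linarith
    have h1 := (g1_le_np p hmin n).trans (h ▸ hnb)
    rw [EReal.coe_le_coe_iff] at h1
    linarith
  have heq : Real.logb p ‖a n‖ = Real.logb p ‖b n‖ := by linarith
  have h1 : (0 : ℝ) < ‖a n‖ := norm_pos_iff.2 han
  have h2 : (0 : ℝ) < ‖b n‖ := norm_pos_iff.2 hb
  exact Real.logb_injOn_pos hp1 (Set.mem_Ioi.2 h1) (Set.mem_Ioi.2 h2) heq

/-- A strictly convex integer function. -/
theorem dp_ex_conv {D : ℕ → ℕ} (h : ∀ n, 2 * D (n + 1) + 1 ≤ D n + D (n + 2)) (n i : ℕ) :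
    (D n : ℝ) + ((D (n + 1) : ℝ) - D n - 1 / 2) * ((i : ℝ) - n) + 1 / 2 * |(i : ℝ) - n| ≤
      D i := by
  have hd : ∀ k j : ℕ, (D (k + 1) : ℤ) - D k ≤ (D (k + j + 1) : ℤ) - D (k + j) := by
    intro k j
    induction j with
    | zero => simp
    | succ j ih =>
      have h1 := h (k + j)
      have e1 : k + (j + 1) + 1 = k + j + 2 := by ring
      have e2 : k + (j + 1) = k + j + 1 := by ring
      rw [e1, e2]
      omega
  rcases le_total n i with hni | hni
  · obtain ⟨j, rfl⟩ := Nat.exists_eq_add_of_le hni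
    have h1 : (D n : ℤ) + j * ((D (n + 1) : ℤ) - D n) ≤ D (n + j) := by
      clear hni
      induction j with
      | zero => simp
      | succ j ih =>
        have h2 := hd n j
        have e1 : n + (j + 1) = n + j + 1 := by ring
        rw [e1]
        push_cast
        linarith
    have h2 : (D n : ℝ) + j * ((D (n + 1) : ℝ) - D n) ≤ D (n + j) := by exact_mod_cast h1
    push_cast
    have h3 : (n : ℝ) + j - n = j := by ring
    rw [h3, abs_of_nonneg (Nat.cast_nonneg j)]
    linarith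
  · obtain ⟨j, rfl⟩ := Nat.exists_eq_add_of_le hni
    have h1 : (D (i + j) : ℤ) - j * ((D (i + j + 1) : ℤ) - D (i + j) - 1) ≤ D i := by
      have h0 : ∀ l : ℕ, l ≤ j → (D (i + l) : ℤ) -
          l * ((D (i + j + 1) : ℤ) - D (i + j) - 1) ≤ D i := by
        intro l
        induction l with
        | zero => intro _; simp
        | succ l ih =>
          intro hl
          have h2 := ih (by omega)
          have h3 : (D (i + l + 1) : ℤ) - D (i + l) ≤ (D (i + j + 1) : ℤ) - D (i + j) - 1 := by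
            obtain ⟨m, rfl⟩ : ∃ m, j = l + 1 + m := Nat.exists_eq_add_of_le hl
            have h4 := hd (i + l + 1) m
            have h5 := h (i + l)
            have e1 : i + l + 1 + m + 1 = i + (l + 1 + m) + 1 := by ring
            have e2 : i + l + 1 + m = i + (l + 1 + m) := by ring
            have e3 : i + l + 1 + 1 = i + l + 2 := by ring
            rw [e1, e2, e3] at h4
            omega
          have e1 : i + (l + 1) = i + l + 1 := by ring
          rw [e1]
          push_cast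
          linarith
      exact h0 j le_rfl
    have h2 : (D (i + j) : ℝ) - j * ((D (i + j + 1) : ℝ) - D (i + j) - 1) ≤ D i := by
      exact_mod_cast h1
    push_cast
    have h3 : (i : ℝ) - (i + j) = -j := by ring
    rw [h3, abs_neg, abs_of_nonneg (Nat.cast_nonneg j)]
    linarith

/-- If `‖b i‖ ≤ p^(-D i)` for all `i`, with near equality at `n`, then `n` is a vertex. -/
theorem dp_ex_tri {p : ℕ} (hp : 3 ≤ p) {K : Type*} [NormedField K] {a b : ℕ → K} {D : ℕ → ℕ}
    (hD : ∀ n, 2 * D (n + 1) + 1 ≤ D n + D (n + 2))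
    (h : newtonPolygon p a = newtonPolygon p b) (hb1 : ∀ i, ‖b i‖ ≤ (p : ℝ)⁻¹ ^ D i)
    {n : ℕ} (hb : (p : ℝ)⁻¹ ^ D n * (3 / 4) ≤ ‖b n‖) : ‖a n‖ = ‖b n‖ := by
  have hp3 : (3 : ℝ) ≤ p := by exact_mod_cast hp
  have hp1 : (1 : ℝ) < p := by linarith
  have hp0 : (0 : ℝ) < p := by linarith
  have hinv : Real.logb p ((p : ℝ)⁻¹) = -1 := by
    rw [Real.logb_inv, Real.logb_self_eq_one hp1]
  have h8 : ∀ k : ℕ, Real.logb p ((p : ℝ)⁻¹ ^ k) = -k := by
    intro k
    rw [Real.logb_pow, hinv]
    ring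
  obtain ⟨η, hη⟩ : ∃ η : ℝ, η = - Real.logb p (3 / 4) := ⟨_, rfl⟩
  have hη0 : 0 ≤ η := by
    rw [hη]
    have := Real.logb_nonpos hp1 (by norm_num : (0 : ℝ) ≤ 3 / 4) (by norm_num)
    linarith
  have h34 : η < 1 / 2 := by
    have h0 : (p : ℝ)⁻¹ < (3 / 4) ^ 2 := by
      have h1 : (p : ℝ)⁻¹ ≤ 3⁻¹ := inv_anti₀ (by norm_num) hp3
      refine lt_of_le_of_lt h1 (by norm_num)
    have h1 : Real.logb p ((p : ℝ)⁻¹) < Real.logb p ((3 / 4) ^ 2) :=
      Real.logb_lt_logb hp1 (by positivity) h0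
    rw [Real.logb_pow, hinv] at h1
    push_cast at h1
    linarith
  have hpos : ∀ k : ℕ, (0 : ℝ) < (p : ℝ)⁻¹ ^ k := fun k => by positivity
  have hbn : 0 < ‖b n‖ := lt_of_lt_of_le (by have := hpos (D n); positivity) hb
  have hbn0 : b n ≠ 0 := norm_pos_iff.1 hbn
  have hvn : - Real.logb p ‖b n‖ ≤ D n + η := by
    have h1 := Real.logb_le_logb_of_le (b := p) hp1
      (by have := hpos (D n); positivity) hb
    rw [Real.logb_mul (hpos _).ne' (by norm_num), h8] at h1
    linarith
  refine dp_ex_vertex (lt_of_lt_of_le (by norm_num) hp) h hbn0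
    (α := (D (n + 1) : ℝ) - D n - 1 / 2) (ε := 1 / 2 - η) (by linarith) fun i hi => ?_
  by_cases hin : i = n
  · subst hin
    simp
  · have hi0 : 0 < ‖b i‖ := norm_pos_iff.2 hi
    have hvi : (D i : ℝ) ≤ - Real.logb p ‖b i‖ := by
      have h1 := Real.logb_le_logb_of_le (b := p) hp1 hi0 (hb1 i)
      rw [h8] at h1
      linarith
    have h1 : 1 ≤ |(i : ℝ) - n| := by
      have h1 : (i : ℤ) - n ≠ 0 := by omega
      have h2 : 1 ≤ |(i : ℤ) - n| := Int.one_le_abs h1
      exact_mod_cast h2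
    have h2 := dp_ex_conv hD n i
    have h3 : η * 1 ≤ η * |(i : ℝ) - n| := mul_le_mul_of_nonneg_left h1 hη0
    linarith

end DP

end GH
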