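import Pool.Agent.GH.DP.ExtP_a

/-!
# Ghost conjecture, odd `p`: from the central disc to the whole weight disc, p-adic lemmas
-/

open PowerSeries Filter Topology

noncomputable section

namespace GH

namespace DP

open GP

variable {p : ℕ} [Fact p.Prime]

/-! ### ultrametric lemmas -/

theorem dp_ex_one_lt : (1 : ℝ) < p := by exact_mod_cast (Fact.out : p.Prime).one_lt

theorem dp_ex_inv_pos : (0 : ℝ) < (p : ℝ)⁻¹ :=
  inv_pos.2 (zero_lt_one.trans (dp_ex_one_lt (p := p)))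

theorem dp_ex_inv_lt : (p : ℝ)⁻¹ < 1 := inv_lt_one_of_one_lt₀ dp_ex_one_lt

theorem dp_ex_sub_left {x y : PadicComplex p} (h : ‖y‖ < ‖x‖) : ‖x - y‖ = ‖x‖ := by
  rw [sub_eq_add_neg, IsUltrametricDist.norm_add_eq_max_of_norm_ne_norm
    (by rw [norm_neg]; exact h.ne'), norm_neg, max_eq_left h.le]

theorem dp_ex_sub_right {x y : PadicComplex p} (h : ‖x‖ < ‖y‖) : ‖x - y‖ = ‖y‖ := by
  rw [norm_sub_rev, dp_ex_sub_left h]

theorem dp_ex_sub_le {x y : PadicComplex p} {C : ℝ} (hx : ‖x‖ ≤ C) (hy : ‖y‖ ≤ C) :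
    ‖x - y‖ ≤ C := by
  rw [sub_eq_add_neg]
  refine (IsUltrametricDist.norm_add_le_max x (-y)).trans (max_le hx ?_)
  rwa [norm_neg]

theorem dp_ex_norm_eq {x y : PadicComplex p} (h : ‖x - y‖ < ‖x‖) : ‖y‖ = ‖x‖ := by
  have h1 : y = x - (x - y) := by ring
  rw [h1, dp_ex_sub_left h]

theorem dp_ex_norm_eq' {x y : PadicComplex p} (h : ‖x - y‖ < ‖y‖) : ‖x‖ = ‖y‖ := by
  rw [norm_sub_rev] at h
  exact dp_ex_norm_eq h

theorem dp_ex_hasSum_le {f : ℕ → PadicComplex p} {S : PadicComplex p} (h : HasSum f S) {C : ℝ}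
    (hC : 0 ≤ C) (hf : ∀ n, ‖f n‖ ≤ C) : ‖S‖ ≤ C := by
  have h1 : Tendsto (fun s : Finset ℕ => ‖∑ n ∈ s, f n‖) atTop (𝓝 ‖S‖) := h.norm
  refine le_of_tendsto' h1 fun s => ?_
  exact IsUltrametricDist.norm_sum_le_of_forall_le_of_nonneg hC fun n _ => hf n

theorem dp_ex_norm_int (m : ℤ) : ‖(m : PadicComplex p)‖ = ‖(m : ℤ_[p])‖ := by
  rw [← norm_io, map_intCast]

theorem dp_ex_norm_int_le (m : ℤ) : ‖(m : PadicComplex p)‖ ≤ 1 := by
  rw [dp_ex_norm_int]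
  exact PadicInt.norm_le_one _

theorem dp_ex_norm_ndvd {m : ℤ} (h : ¬ (p : ℤ) ∣ m) : ‖(m : PadicComplex p)‖ = 1 := by
  rw [dp_ex_norm_int]
  have h1 : ¬ ‖(m : ℤ_[p])‖ < 1 := by
    rw [PadicInt.norm_int_lt_one_iff_dvd]
    exact h
  exact le_antisymm (PadicInt.norm_le_one _) (not_lt.1 h1)

theorem dp_ex_norm_nat_le (m : ℕ) : ‖(m : PadicComplex p)‖ ≤ 1 := by
  have := dp_ex_norm_int_le (p := p) (m : ℤ)
  rwa [Int.cast_natCast] at this

/-! ### evaluation -/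

theorem dp_ex_term_le (F : PowerSeries ℤ_[p]) (w : PadicComplex p) (n : ℕ) :
    ‖io p (PowerSeries.coeff n F) * w ^ n‖ = ‖PowerSeries.coeff n F‖ * ‖w‖ ^ n := by
  rw [norm_mul, norm_pow, norm_io]

theorem dp_ex_hasSum (F : PowerSeries ℤ_[p]) {w : PadicComplex p} (hw : ‖w‖ < 1) :
    HasSum (fun n => io p (PowerSeries.coeff n F) * w ^ n) (evp w F) := by
  refine Summable.hasSum ?_
  refine Summable.of_norm_bounded (g := fun n => ‖w‖ ^ n)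
    (summable_geometric_of_lt_one (norm_nonneg _) hw) fun n => ?_
  rw [dp_ex_term_le]
  exact mul_le_of_le_one_left (pow_nonneg (norm_nonneg _) _) (PadicInt.norm_le_one _)

/-- The value, up to an error smaller than the term of index `l`. -/
theorem dp_ex_ev_sub_sum (F : PowerSeries ℤ_[p]) {w : PadicComplex p} (hw : ‖w‖ < 1) (l : ℕ) :
    ‖evp w F - ∑ m ∈ Finset.range (l + 1), io p (PowerSeries.coeff m F) * w ^ m‖ ≤
      ‖w‖ ^ (l + 1) := by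
  have h1 := dp_ex_hasSum F hw
  have h2 := (hasSum_nat_add_iff' (l + 1)).2 h1
  refine dp_ex_hasSum_le h2 (pow_nonneg (norm_nonneg _) _) fun n => ?_
  rw [dp_ex_term_le]
  calc ‖PowerSeries.coeff (n + (l + 1)) F‖ * ‖w‖ ^ (n + (l + 1)) ≤ 1 * ‖w‖ ^ (n + (l + 1)) :=
        mul_le_mul_of_nonneg_right (PadicInt.norm_le_one _) (pow_nonneg (norm_nonneg _) _)
    _ = ‖w‖ ^ (n + (l + 1)) := one_mul _
    _ ≤ ‖w‖ ^ (l + 1) := pow_le_pow_of_le_one (norm_nonneg _) hw.le (by omega)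

/-- Outside the central disc the term of index `l` dominates. -/
theorem dp_ex_ev_outer (F : PowerSeries ℤ_[p]) {l : ℕ}
    (h1 : ∀ m < l, ‖PowerSeries.coeff m F‖ ≤ (p : ℝ) ^ m * (p : ℝ)⁻¹ ^ l)
    (h2 : ‖PowerSeries.coeff l F‖ = 1) {w : PadicComplex p} (hw : (p : ℝ)⁻¹ < ‖w‖)
    (hw1 : ‖w‖ < 1) : ‖evp w F‖ = ‖w‖ ^ l := by
  have hp1 : (1 : ℝ) < p := dp_ex_one_lt
  have hp0 : (0 : ℝ) < p := zero_lt_one.trans hp1
  have hw0 : 0 < ‖w‖ := dp_ex_inv_pos.trans hw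
  have hS := dp_ex_hasSum F hw1
  have hL : HasSum (fun n => if n = l then io p (PowerSeries.coeff l F) * w ^ l else 0)
      (io p (PowerSeries.coeff l F) * w ^ l) := hasSum_ite_eq l _
  have hD := hS.sub hL
  obtain ⟨θ, hθ⟩ : ∃ θ : ℝ, θ = max ((p : ℝ)⁻¹ / ‖w‖) ‖w‖ := ⟨_, rfl⟩
  have hθ1 : θ < 1 := by
    rw [hθ]
    refine max_lt ?_ hw1
    rw [div_lt_one hw0]
    exact hw
  have hθa : (p : ℝ)⁻¹ / ‖w‖ ≤ θ := hθ ▸ le_max_left _ _
  have hθb : ‖w‖ ≤ θ := hθ ▸ le_max_right _ _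
  have hθ0 : 0 ≤ θ := hw0.le.trans hθb
  have hlt : ‖evp w F - io p (PowerSeries.coeff l F) * w ^ l‖ ≤ θ * ‖w‖ ^ l := by
    refine dp_ex_hasSum_le hD (by positivity) fun m => ?_
    rcases lt_trichotomy m l with h | h | h
    · rw [if_neg h.ne, sub_zero, dp_ex_term_le]
      have h3 : ‖PowerSeries.coeff m F‖ * ‖w‖ ^ m ≤
          (p : ℝ) ^ m * (p : ℝ)⁻¹ ^ l * ‖w‖ ^ m :=
        mul_le_mul_of_nonneg_right (h1 m h) (by positivity)
      refine h3.trans ?_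
      obtain ⟨d, rfl⟩ := Nat.exists_eq_add_of_lt h
      have h4 : (p : ℝ) ^ m * (p : ℝ)⁻¹ ^ (m + d + 1) * ‖w‖ ^ m =
          ((p : ℝ)⁻¹ / ‖w‖) ^ (d + 1) * ‖w‖ ^ (m + d + 1) := by
        rw [div_pow, inv_pow, inv_pow]
        field_simp
        rw [pow_add, pow_add, pow_add, pow_add]
        ring
      rw [h4]
      refine mul_le_mul_of_nonneg_right ?_ (by positivity)
      have h5 : (p : ℝ)⁻¹ / ‖w‖ ≤ 1 := hθa.trans hθ1.le
      calc ((p : ℝ)⁻¹ / ‖w‖) ^ (d + 1) ≤ ((p : ℝ)⁻¹ / ‖w‖) ^ 1 :=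
            pow_le_pow_of_le_one (by positivity) h5 (by omega)
        _ = (p : ℝ)⁻¹ / ‖w‖ := pow_one _
        _ ≤ θ := hθa
    · subst h
      rw [if_pos rfl, sub_self, norm_zero]
      positivity
    · rw [if_neg h.ne', sub_zero, dp_ex_term_le]
      calc ‖PowerSeries.coeff m F‖ * ‖w‖ ^ m ≤ 1 * ‖w‖ ^ m :=
            mul_le_mul_of_nonneg_right (PadicInt.norm_le_one _) (by positivity)
        _ = ‖w‖ ^ m := one_mul _
        _ ≤ ‖w‖ ^ (l + 1) := pow_le_pow_of_le_one hw0.le hw1.le (by omega)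
        _ = ‖w‖ * ‖w‖ ^ l := by ring
        _ ≤ θ * ‖w‖ ^ l := mul_le_mul_of_nonneg_right hθb (by positivity)
  have hn : ‖io p (PowerSeries.coeff l F) * w ^ l‖ = ‖w‖ ^ l := by
    rw [dp_ex_term_le, h2, one_mul]
  have h3 : 0 < ‖w‖ ^ l := by positivity
  rw [← hn]
  refine dp_ex_norm_eq' (lt_of_le_of_lt hlt ?_)
  rw [hn]
  nlinarith

/-! ### elements of norm close to one -/

theorem dp_ex_exists_norm {P : ℝ → Prop} (hp : ∀ᶠ r in 𝓝 (1 : ℝ), P r) :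
    ∃ z : PadicComplex p, 0 < ‖z‖ ∧ ‖z‖ < 1 ∧ P ‖z‖ := by
  have h1 : Tendsto (fun N : ℕ => ((p : ℝ)⁻¹) ^ (1 / ((N : ℝ) + 1))) atTop (𝓝 1) := by
    have h2 : Tendsto (fun N : ℕ => 1 / ((N : ℝ) + 1)) atTop (𝓝 0) :=
      tendsto_one_div_add_atTop_nhds_zero_nat
    have h3 := ((Real.continuous_const_rpow (a := (p : ℝ)⁻¹)
      (dp_ex_inv_pos (p := p)).ne').tendsto 0).comp h2
    rwa [Real.rpow_zero] at h3
  obtain ⟨N, hN⟩ := (h1.eventually hp).exists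
  obtain ⟨z, hz⟩ := IsAlgClosed.exists_pow_nat_eq (p : PadicComplex p) (Nat.succ_pos N)
  have hz1 : ‖z‖ ^ (N + 1) = (p : ℝ)⁻¹ := by
    rw [← norm_pow, hz, norm_p]
  have hz2 : ‖z‖ = ((p : ℝ)⁻¹) ^ (1 / ((N : ℝ) + 1)) := by
    have h4 := Real.pow_rpow_inv_natCast (norm_nonneg z) (Nat.succ_ne_zero N)
    rw [Nat.succ_eq_add_one, hz1] at h4
    rw [← h4]
    push_cast
    rw [one_div ((N : ℝ) + 1)]
  refine ⟨z, ?_, ?_, ?_⟩
  · rw [hz2]
    exact Real.rpow_pos_of_pos dp_ex_inv_pos _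
  · rw [hz2]
    exact Real.rpow_lt_one (dp_ex_inv_pos (p := p)).le dp_ex_inv_lt (by positivity)
  · rw [hz2]
    exact hN

/-! ### the residue discs -/

/-- `t = p s` with the residue class of `s`. -/
theorem dp_ex_res {t : ℤ_[p]} (ht : ‖t‖ ≤ (p : ℝ)⁻¹) :
    ∃ (s : PadicComplex p) (i : Fin p), io p t = p * s ∧ ‖s - (i : ℕ)‖ ≤ (p : ℝ)⁻¹ := by
  have hdvd : (p : ℤ_[p]) ∣ t := by
    rw [← PadicInt.norm_lt_one_iff_dvd]
    exact lt_of_le_of_lt ht dp_ex_inv_lt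
  obtain ⟨s, rfl⟩ := hdvd
  obtain ⟨h1, h2⟩ := PadicInt.zmodRepr_spec s
  refine ⟨io p s, ⟨s.zmodRepr, h1⟩, ?_, ?_⟩
  · rw [map_mul, map_natCast]
  · have h3 : io p s - ((s.zmodRepr : ℕ) : PadicComplex p) = io p (s - s.zmodRepr) := by
      rw [map_sub, map_natCast]
    show ‖io p s - ((s.zmodRepr : ℕ) : PadicComplex p)‖ ≤ _
    rw [h3, norm_io]
    have h4 : (p : ℤ_[p]) ∣ s - s.zmodRepr := by
      rw [← PadicInt.norm_lt_one_iff_dvd]
      exact PadicInt.mem_nonunits.1 h2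
    obtain ⟨u, hu⟩ := h4
    rw [hu, norm_mul, PadicInt.norm_p]
    exact mul_le_of_le_one_right (dp_ex_inv_pos (p := p)).le (PadicInt.norm_le_one _)

/-- the centre of the residue disc `i` -/
def dp_ex_c (p : ℕ) [Fact p.Prime] (i : Fin p) : PadicComplex p := ((i : ℕ) : PadicComplex p)

theorem dp_ex_c_le (i : Fin p) : ‖dp_ex_c p i‖ ≤ 1 := dp_ex_norm_nat_le _

theorem dp_ex_c_sub (i j : Fin p) (h : i ≠ j) : ‖dp_ex_c p i - dp_ex_c p j‖ = 1 := by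
  unfold dp_ex_c
  have h1 : ((i : ℕ) : PadicComplex p) - ((j : ℕ) : PadicComplex p) =
      ((((i : ℕ) : ℤ) - ((j : ℕ) : ℤ) : ℤ) : PadicComplex p) := by
    push_cast
    ring
  rw [h1]
  apply dp_ex_norm_ndvd
  intro h2
  have hi := i.2
  have hj := j.2
  have h3 : ((i : ℕ) : ℤ) - ((j : ℕ) : ℤ) = 0 := by
    refine Int.eq_zero_of_abs_lt_dvd h2 ?_
    rw [abs_lt]
    constructor <;> omega
  exact h (Fin.ext (by omega))

section product

variable {t : ℕ → ℤ_[p]} {s : ℕ → PadicComplex p} {j : ℕ → Fin p}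
  (hs : ∀ k, io p (t k) = p * s k) (hj : ∀ k, ‖s k - dp_ex_c p (j k)‖ ≤ (p : ℝ)⁻¹)

include hs in
theorem dp_ex_factor (y : PadicComplex p) (k : ℕ) :
    ‖(p : PadicComplex p) * y - io p (t k)‖ = (p : ℝ)⁻¹ * ‖y - s k‖ := by
  rw [hs, ← mul_sub, norm_mul, norm_p]

include hj in
theorem dp_ex_s_le (k : ℕ) : ‖s k‖ ≤ 1 := by
  have h1 : s k = (s k - dp_ex_c p (j k)) - (-dp_ex_c p (j k)) := by ring
  rw [h1]
  refine dp_ex_sub_le ((hj k).trans (dp_ex_inv_lt (p := p)).le) ?_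
  rw [norm_neg]
  exact dp_ex_c_le _

include hs hj in
/-- The value of the ghost coefficient at a generic point. -/
theorem dp_ex_gen {y : PadicComplex p} (h : ∀ i : Fin p, ‖y - dp_ex_c p i‖ = 1) (N : ℕ)
    (m : ℕ → ℕ) : ∏ k ∈ Finset.range N, ‖(p : PadicComplex p) * y - io p (t k)‖ ^ m k =
      (p : ℝ)⁻¹ ^ (∑ k ∈ Finset.range N, m k) := by
  rw [← Finset.prod_pow_eq_pow_sum]
  refine Finset.prod_congr rfl fun k _ => ?_
  congr 1
  rw [dp_ex_factor hs]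
  have h3 : y - s k = (y - dp_ex_c p (j k)) - (s k - dp_ex_c p (j k)) := by ring
  rw [h3, dp_ex_sub_left (by rw [h]; exact lt_of_le_of_lt (hj k) dp_ex_inv_lt), h, mul_one]

include hs hj in
/-- near `i` -/
theorem dp_ex_near {y : PadicComplex p} (i : Fin p) (h1 : (p : ℝ)⁻¹ < ‖y - dp_ex_c p i‖)
    (h2 : ‖y - dp_ex_c p i‖ < 1) (N : ℕ) (m : ℕ → ℕ) :
    ∏ k ∈ Finset.range N, ‖(p : PadicComplex p) * y - io p (t k)‖ ^ m k =
      (p : ℝ)⁻¹ ^ (∑ k ∈ Finset.range N, m k) *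
        ‖y - dp_ex_c p i‖ ^ (∑ k ∈ Finset.range N, if j k = i then m k else 0) := by
  rw [← Finset.prod_pow_eq_pow_sum, ← Finset.prod_pow_eq_pow_sum, ← Finset.prod_mul_distrib]
  refine Finset.prod_congr rfl fun k _ => ?_
  rw [dp_ex_factor hs]
  by_cases hk : j k = i
  · rw [if_pos hk, ← mul_pow]
    congr 1
    have h3 : y - s k = (y - dp_ex_c p i) - (s k - dp_ex_c p (j k)) := by
      rw [hk]
      ring
    rw [h3, dp_ex_sub_left (lt_of_le_of_lt (hj k) h1)]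
  · rw [if_neg hk, pow_zero, mul_one]
    congr 1
    have h4 : ‖dp_ex_c p (j k) - dp_ex_c p i‖ = 1 := dp_ex_c_sub _ _ hk
    have h5 : ‖s k - dp_ex_c p i‖ = 1 := by
      have h6 : s k - dp_ex_c p i =
          (dp_ex_c p (j k) - dp_ex_c p i) - (dp_ex_c p (j k) - s k) := by ring
      rw [h6, dp_ex_sub_left, h4]
      rw [h4, norm_sub_rev]
      exact lt_of_le_of_lt (hj k) dp_ex_inv_lt
    have h3 : y - s k = (y - dp_ex_c p i) - (s k - dp_ex_c p i) := by ring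
    rw [h3, dp_ex_sub_right (by rw [h5]; exact h2), h5, mul_one]

include hs hj in
theorem dp_ex_le {y : PadicComplex p} (hy : ‖y‖ ≤ 1) (N : ℕ) (m : ℕ → ℕ) :
    ∏ k ∈ Finset.range N, ‖(p : PadicComplex p) * y - io p (t k)‖ ^ m k ≤
      (p : ℝ)⁻¹ ^ (∑ k ∈ Finset.range N, m k) := by
  rw [← Finset.prod_pow_eq_pow_sum]
  refine Finset.prod_le_prod (fun k _ => by positivity) fun k _ => ?_
  refine pow_le_pow_left₀ (by positivity) ?_ _
  rw [dp_ex_factor hs]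
  exact mul_le_of_le_one_right (dp_ex_inv_pos (p := p)).le (dp_ex_sub_le hy (dp_ex_s_le hj k))

/-- Outside the central disc. -/
theorem dp_ex_outer (ht : ∀ k, ‖t k‖ ≤ (p : ℝ)⁻¹) {w : PadicComplex p} (hw : (p : ℝ)⁻¹ < ‖w‖)
    (N : ℕ) (m : ℕ → ℕ) : ∏ k ∈ Finset.range N, ‖w - io p (t k)‖ ^ m k =
      ‖w‖ ^ (∑ k ∈ Finset.range N, m k) := by
  rw [← Finset.prod_pow_eq_pow_sum]
  refine Finset.prod_congr rfl fun k _ => ?_
  rw [dp_ex_sub_left (by rw [norm_io]; exact lt_of_le_of_lt (ht k) hw)]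

omit [Fact p.Prime] in
/-- the zeros in all residue discs -/
theorem dp_ex_sum (j : ℕ → Fin p) (N : ℕ) (m : ℕ → ℕ) :
    ∑ i : Fin p, ∑ k ∈ Finset.range N, (if j k = i then m k else 0) =
      ∑ k ∈ Finset.range N, m k := by
  rw [Finset.sum_comm]
  refine Finset.sum_congr rfl fun k _ => ?_
  rw [Finset.sum_ite_eq, if_pos (Finset.mem_univ _)]

end product

end DP

end GH
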