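import Pool.Agent.GH.DP.BaseP

open PowerSeries Filter Topology

noncomputable section

namespace GH

namespace DP

open GP

variable {p : ℕ} [Fact p.Prime]

/-! The evaluation map `evp` and the powers `(1+2p)^s`, `s ∈ ℤ_p`, for odd `p` (helper35;
generalisation of helper43's `D3.ZChar3_a`). -/

theorem dp_zc_norm_term (w : PadicComplex p) (F : PowerSeries ℤ_[p]) (n : ℕ) :
    ‖io p (PowerSeries.coeff n F) * w ^ n‖ ≤ ‖w‖ ^ n := by
  rw [norm_mul, norm_pow, norm_io]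
  exact mul_le_of_le_one_left (by positivity) (PadicInt.norm_le_one _)

theorem dp_zc_summable_norm {w : PadicComplex p} (hw : ‖w‖ < 1) (F : PowerSeries ℤ_[p]) :
    Summable fun n ↦ ‖io p (PowerSeries.coeff n F) * w ^ n‖ :=
  Summable.of_nonneg_of_le (fun _ ↦ norm_nonneg _) (dp_zc_norm_term w F)
    (summable_geometric_of_lt_one (norm_nonneg _) hw)

theorem dp_zc_summable {w : PadicComplex p} (hw : ‖w‖ < 1) (F : PowerSeries ℤ_[p]) :
    Summable fun n ↦ io p (PowerSeries.coeff n F) * w ^ n :=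
  (dp_zc_summable_norm hw F).of_norm

theorem dp_zc_ev_add {w : PadicComplex p} (hw : ‖w‖ < 1) (F G : PowerSeries ℤ_[p]) :
    evp w (F + G) = evp w F + evp w G := by
  unfold evp
  rw [← (dp_zc_summable hw F).tsum_add (dp_zc_summable hw G)]
  refine tsum_congr fun n ↦ ?_
  rw [map_add, map_add, add_mul]

theorem dp_zc_ev_mul {w : PadicComplex p} (hw : ‖w‖ < 1) (F G : PowerSeries ℤ_[p]) :
    evp w (F * G) = evp w F * evp w G := by
  unfold evp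
  rw [tsum_mul_tsum_eq_tsum_sum_antidiagonal_of_summable_norm (dp_zc_summable_norm hw F)
    (dp_zc_summable_norm hw G)]
  refine tsum_congr fun n ↦ ?_
  rw [PowerSeries.coeff_mul, map_sum, Finset.sum_mul]
  refine Finset.sum_congr rfl fun kl hkl ↦ ?_
  rw [← Finset.HasAntidiagonal.mem_antidiagonal.1 hkl, map_mul, pow_add]
  ring

theorem dp_zc_ev_C (w : PadicComplex p) (a : ℤ_[p]) : evp w (PowerSeries.C a) = io p a := by
  unfold evp
  rw [tsum_eq_single 0]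
  · simp
  · intro n hn
    rw [PowerSeries.coeff_C, if_neg hn, map_zero, zero_mul]

theorem dp_zc_ev_X (w : PadicComplex p) : evp w X = w := by
  unfold evp
  rw [tsum_eq_single 1]
  · simp
  · intro n hn
    rw [PowerSeries.coeff_X, if_neg hn, map_zero, zero_mul]

/-- the evaluation as a ring homomorphism -/
def dp_zc_evHom {w : PadicComplex p} (hw : ‖w‖ < 1) : PowerSeries ℤ_[p] →+* PadicComplex p where
  toFun := evp w
  map_one' := by
    have h := dp_zc_ev_C w 1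
    rwa [map_one, map_one] at h
  map_mul' := dp_zc_ev_mul hw
  map_zero' := by
    have h := dp_zc_ev_C w 0
    rwa [map_zero, map_zero] at h
  map_add' := dp_zc_ev_add hw

theorem dp_zc_norm_ev_le {w : PadicComplex p} (hw : ‖w‖ < 1) (F : PowerSeries ℤ_[p]) :
    ‖evp w F‖ ≤ 1 := by
  unfold evp
  refine (IsUltrametricDist.norm_tsum_le _).trans (ciSup_le fun n ↦ ?_)
  exact (dp_zc_norm_term w F n).trans (pow_le_one₀ (norm_nonneg _) hw.le)

theorem dp_zc_norm_nd {a : ℕ} (h : ¬ p ∣ a) : ‖(a : ℤ_[p])‖ = 1 := by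
  have h1 : ¬ ‖(a : ℤ_[p])‖ < 1 := by
    rw [PadicInt.norm_natCast_lt_one_iff]
    exact h
  exact le_antisymm (PadicInt.norm_le_one _) (not_lt.1 h1)

theorem dp_zc_not_isUnit {a : ℕ} (h : p ∣ a) : ¬ IsUnit (a : ℤ_[p]) := by
  rw [PadicInt.isUnit_iff]
  have h1 : ‖(a : ℤ_[p])‖ < 1 := by
    rw [PadicInt.norm_natCast_lt_one_iff]
    exact h
  exact h1.ne

theorem dp_zc_isUnit {a : ℕ} (h : ¬ p ∣ a) : IsUnit (a : ℤ_[p]) := by
  rw [PadicInt.isUnit_iff]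
  exact dp_zc_norm_nd h

/-! The powers `(1+2p)^s`, `s ∈ ℤ_p`. -/

theorem dp_zc_inv_pos : (0 : ℝ) < (p : ℝ)⁻¹ := by
  have : (0 : ℝ) < p := by exact_mod_cast (Fact.out : p.Prime).pos
  positivity

theorem dp_zc_inv_lt : (p : ℝ)⁻¹ < 1 := by
  have hp1 : (1 : ℝ) < p := by exact_mod_cast (Fact.out : p.Prime).one_lt
  exact inv_lt_one_of_one_lt₀ hp1

theorem dp_zc_norm_two (hp2 : p ≠ 2) : ‖(2 : ℤ_[p])‖ = 1 := by
  have h := dp_zc_norm_nd (p := p) (a := 2) (by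
    intro h
    exact hp2 ((Nat.prime_dvd_prime_iff_eq (Fact.out : p.Prime) Nat.prime_two).1 h))
  rwa [Nat.cast_ofNat] at h

theorem dp_zc_nilp : Tendsto (fun n : ℕ ↦ (2 * p : ℤ_[p]) ^ n) atTop (𝓝 0) := by
  refine tendsto_pow_atTop_nhds_zero_of_norm_lt_one ?_
  rw [norm_mul, PadicInt.norm_p]
  exact (mul_le_of_le_one_left dp_zc_inv_pos.le (PadicInt.norm_le_one _)).trans_lt dp_zc_inv_lt

/-- `(1+2p)^s` -/
def dp_zc_E (p : ℕ) [Fact p.Prime] : AddChar ℤ_[p] ℤ_[p] :=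
  PadicInt.addChar_of_value_at_one (2 * p : ℤ_[p]) dp_zc_nilp

theorem dp_zc_E_cont : Continuous (dp_zc_E p) :=
  PadicInt.continuous_addChar_of_value_at_one dp_zc_nilp

theorem dp_zc_E_one : dp_zc_E p 1 = 1 + 2 * p := by
  unfold dp_zc_E
  rw [PadicInt.addChar_of_value_at_one_def]

theorem dp_zc_E_nat (n : ℕ) : dp_zc_E p (n : ℤ_[p]) = (1 + 2 * p) ^ n := by
  have h := AddChar.map_nsmul_eq_pow (dp_zc_E p) n 1
  rw [nsmul_eq_mul, mul_one, dp_zc_E_one] at h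
  exact h

theorem dp_zc_norm_int {z : ℤ} (hz : z ≠ 0) :
    ‖(z : ℤ_[p])‖ = (p : ℝ) ^ (-(padicValInt p z : ℤ)) := by
  rw [PadicInt.norm_intCast_eq_padic_norm, Padic.norm_eq_zpow_neg_valuation (by exact_mod_cast hz),
    Padic.valuation_intCast]

theorem dp_zc_lte (hp2 : p ≠ 2) (n : ℕ) :
    ‖((1 + 2 * p : ℤ_[p]) ^ n - 1)‖ = ‖(n : ℤ_[p])‖ * (p : ℝ)⁻¹ := by
  have hp := (Fact.out : p.Prime)
  have hpp : (2 : ℤ) ≤ p := by exact_mod_cast hp.two_le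
  have hnd2 : ¬ (p : ℤ) ∣ 2 := by
    intro h
    have h' : p ∣ 2 := by exact_mod_cast h
    exact hp2 ((Nat.prime_dvd_prime_iff_eq hp Nat.prime_two).1 h')
  rcases Nat.eq_zero_or_pos n with rfl | hn
  · simp
  have h1 := Int.emultiplicity_pow_sub_pow (p := p) (x := 1 + 2 * p) (y := 1) hp
    (hp.odd_of_ne_two hp2) (by simp) (by
      intro h
      have h2 : (p : ℤ) ∣ 1 := by
        have h3 : (p : ℤ) ∣ 2 * p := ⟨2, by ring⟩
        have h4 := dvd_sub h h3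
        simpa using h4
      have h5 := Int.le_of_dvd one_pos h2
      omega) n
  rw [one_pow] at h1
  have hne : ((1 + 2 * p : ℤ) ^ n - 1) ≠ 0 := by
    have : (1 : ℤ) < (1 + 2 * p) ^ n := one_lt_pow₀ (by omega) hn.ne'
    omega
  have hn0 : (n : ℤ) ≠ 0 := by exact_mod_cast hn.ne'
  have e4 : emultiplicity (p : ℤ) ((1 + 2 * p) - 1) = 1 := by
    have h4 : ((1 + 2 * p) - 1 : ℤ) = (p : ℤ) * 2 := by ring
    rw [h4]
    refine emultiplicity_eq_coe.2 ⟨by rw [pow_one]; exact Dvd.intro _ rfl, ?_⟩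
    intro h
    rw [pow_add, pow_one] at h
    exact hnd2 ((mul_dvd_mul_iff_left (by omega)).1 h)
  rw [e4] at h1
  have hv1 : (padicValInt p ((1 + 2 * p : ℤ) ^ n - 1) : ℕ∞) =
      emultiplicity (p : ℤ) ((1 + 2 * p : ℤ) ^ n - 1) := by
    have := padicValInt.of_ne_one_ne_zero (p := p) hp.ne_one hne
    rw [this]
    exact (FiniteMultiplicity.emultiplicity_eq_multiplicity
      (Int.finiteMultiplicity_iff.2 ⟨by simpa using hp.ne_one, hne⟩)).symm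
  have hv2 : (padicValInt p (n : ℤ) : ℕ∞) = emultiplicity (p : ℤ) (n : ℤ) := by
    have := padicValInt.of_ne_one_ne_zero (p := p) hp.ne_one hn0
    rw [this]
    exact (FiniteMultiplicity.emultiplicity_eq_multiplicity
      (Int.finiteMultiplicity_iff.2 ⟨by simpa using hp.ne_one, hn0⟩)).symm
  have hv3 : emultiplicity (p : ℤ) (n : ℤ) = emultiplicity p n := Int.natCast_emultiplicity p n
  rw [← hv3, ← hv1, ← hv2] at h1
  have h2 : padicValInt p ((1 + 2 * p : ℤ) ^ n - 1) = 1 + padicValInt p (n : ℤ) := by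
    exact_mod_cast h1
  have e1 : ((1 + 2 * p : ℤ_[p]) ^ n - 1) = (((1 + 2 * p : ℤ) ^ n - 1 : ℤ) : ℤ_[p]) := by
    push_cast; rfl
  have e2 : (n : ℤ_[p]) = ((n : ℤ) : ℤ_[p]) := by push_cast; rfl
  have hp0 : (p : ℝ) ≠ 0 := by exact_mod_cast hp.ne_zero
  rw [e1, e2, dp_zc_norm_int hne, dp_zc_norm_int hn0, h2]
  push_cast
  rw [neg_add, add_comm, zpow_add₀ hp0, zpow_neg_one]

theorem dp_zc_E_norm (hp2 : p ≠ 2) (s : ℤ_[p]) : ‖dp_zc_E p s - 1‖ = ‖s‖ * (p : ℝ)⁻¹ := by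
  have h := PadicInt.denseRange_natCast (p := p)
  have hc : IsClosed {s : ℤ_[p] | ‖dp_zc_E p s - 1‖ = ‖s‖ * (p : ℝ)⁻¹} :=
    isClosed_eq ((dp_zc_E_cont.sub continuous_const).norm) (continuous_norm.mul continuous_const)
  have : ∀ s : ℤ_[p], s ∈ {s : ℤ_[p] | ‖dp_zc_E p s - 1‖ = ‖s‖ * (p : ℝ)⁻¹} := by
    intro s
    refine hc.closure_subset_iff.2 ?_ (h s)
    rintro _ ⟨n, rfl⟩
    show ‖dp_zc_E p (n : ℤ_[p]) - 1‖ = ‖(n : ℤ_[p])‖ * (p : ℝ)⁻¹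
    rw [dp_zc_E_nat]
    exact dp_zc_lte hp2 n
  exact this s

theorem dp_zc_E_mul_neg (s : ℤ_[p]) : dp_zc_E p s * dp_zc_E p (-s) = 1 := by
  rw [← AddChar.map_add_eq_mul, add_neg_cancel, AddChar.map_zero_eq_one]

theorem dp_zc_E_norm_one (s : ℤ_[p]) : ‖dp_zc_E p s‖ = 1 := by
  refine le_antisymm (PadicInt.norm_le_one _) ?_
  have h := congrArg norm (dp_zc_E_mul_neg s)
  rw [norm_mul, norm_one] at h
  have h1 : ‖dp_zc_E p (-s)‖ ≤ 1 := PadicInt.norm_le_one _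
  have h2 : 0 ≤ ‖dp_zc_E p s‖ := norm_nonneg _
  nlinarith

theorem dp_zc_E_sub (hp2 : p ≠ 2) (s t : ℤ_[p]) :
    ‖dp_zc_E p s - dp_zc_E p t‖ = ‖s - t‖ * (p : ℝ)⁻¹ := by
  have h : dp_zc_E p s - dp_zc_E p t = dp_zc_E p t * (dp_zc_E p (s - t) - 1) := by
    rw [mul_sub, ← AddChar.map_add_eq_mul, mul_one, add_sub_cancel]
  rw [h, norm_mul, dp_zc_E_norm_one, one_mul, dp_zc_E_norm hp2]

theorem dp_zc_exists_f (hp2 : p ≠ 2) :
    ∃ f : ℤ_[p] → ℤ_[p], (∀ s, dp_zc_E p s = 1 + p * f s) ∧ ∀ s t, ‖f s - f t‖ = ‖s - t‖ := by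
  have h1 : ∀ s : ℤ_[p], ∃ y, dp_zc_E p s = 1 + p * y := by
    intro s
    have h2 : ‖dp_zc_E p s - 1‖ < 1 := by
      rw [dp_zc_E_norm hp2]
      exact (mul_le_of_le_one_left dp_zc_inv_pos.le (PadicInt.norm_le_one _)).trans_lt
        dp_zc_inv_lt
    obtain ⟨y, hy⟩ := (PadicInt.norm_lt_one_iff_dvd _).1 h2
    exact ⟨y, by linear_combination hy⟩
  choose f hf using h1
  refine ⟨f, hf, fun s t ↦ ?_⟩
  have h2 := dp_zc_E_sub hp2 s t
  rw [hf s, hf t] at h2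
  have e : (1 + p * f s - (1 + p * f t) : ℤ_[p]) = p * (f s - f t) := by ring
  rw [e, norm_mul, PadicInt.norm_p, mul_comm] at h2
  exact mul_right_cancel₀ dp_zc_inv_pos.ne' h2

theorem dp_zc_pow_eq (m : ℕ) : (p : ℝ)⁻¹ ^ m = (p : ℝ) ^ (-(m : ℤ)) := by
  rw [zpow_neg, zpow_natCast, inv_pow]

theorem dp_zc_toZ {x y : ℤ_[p]} {n : ℕ} :
    PadicInt.toZModPow n x = PadicInt.toZModPow n y ↔ ‖x - y‖ ≤ (p : ℝ)⁻¹ ^ n := by
  rw [dp_zc_pow_eq, PadicInt.norm_le_pow_iff_mem_span_pow, ← PadicInt.ker_toZModPow,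
    RingHom.mem_ker, map_sub, sub_eq_zero]

theorem dp_zc_surj (hp2 : p ≠ 2) (y : ℤ_[p]) : ∃ s : ℤ_[p], dp_zc_E p s = 1 + p * y := by
  obtain ⟨f, hf, hiso⟩ := dp_zc_exists_f (p := p) hp2
  have hisom : Isometry f := by
    refine Isometry.of_dist_eq fun s t ↦ ?_
    rw [dist_eq_norm, dist_eq_norm, hiso]
  have hcl : IsClosed (Set.range f) := (isCompact_range hisom.continuous).isClosed
  have h : y ∈ closure (Set.range f) := by
    rw [Metric.mem_closure_iff]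
    intro ε hε
    obtain ⟨n, hn⟩ := exists_pow_lt_of_lt_one hε (dp_zc_inv_lt (p := p))
    have hinj : Function.Injective fun i : ZMod (p ^ n) ↦
        PadicInt.toZModPow n (f ((i.val : ℕ) : ℤ_[p])) := by
      intro i j hij
      have h1 := dp_zc_toZ.1 hij
      rw [hiso, ← dp_zc_toZ, map_natCast, map_natCast] at h1
      have : NeZero (p ^ n) := ⟨pow_ne_zero _ (Fact.out : p.Prime).ne_zero⟩
      rwa [ZMod.natCast_zmod_val, ZMod.natCast_zmod_val] at h1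
    have : NeZero (p ^ n) := ⟨pow_ne_zero _ (Fact.out : p.Prime).ne_zero⟩
    have hsur := Finite.injective_iff_surjective.1 hinj
    obtain ⟨i, hi⟩ := hsur (PadicInt.toZModPow n y)
    have h2 := dp_zc_toZ.1 hi
    refine ⟨f ((i.val : ℕ) : ℤ_[p]), ⟨_, rfl⟩, ?_⟩
    rw [dist_comm, dist_eq_norm]
    exact h2.trans_lt hn
  rw [hcl.closure_eq] at h
  obtain ⟨s, hs⟩ := h
  exact ⟨s, by rw [hf, hs]⟩

theorem dp_zc_nd_pred : ¬ p ∣ p - 1 := by
  have hp := (Fact.out : p.Prime)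
  intro h
  have h1 := Nat.le_of_dvd (by have := hp.two_le; omega) h
  have := hp.two_le
  omega

theorem dp_zc_E_pow (s : ℤ_[p]) : dp_zc_E p (((p - 1 : ℕ) : ℤ_[p]) * s) =
    dp_zc_E p s ^ (p - 1) := by
  have h := AddChar.map_nsmul_eq_pow (dp_zc_E p) (p - 1) s
  rwa [nsmul_eq_mul] at h

theorem dp_zc_pow_sub (hp2 : p ≠ 2) (s t : ℤ_[p]) :
    ‖dp_zc_E p s ^ (p - 1) - dp_zc_E p t ^ (p - 1)‖ = ‖s - t‖ * (p : ℝ)⁻¹ := by
  rw [← dp_zc_E_pow, ← dp_zc_E_pow, dp_zc_E_sub hp2, ← mul_sub, norm_mul,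
    dp_zc_norm_nd dp_zc_nd_pred, one_mul]

theorem dp_zc_exists (hp2 : p ≠ 2) {a : ℕ} (h : ¬ p ∣ a) :
    ∃ s : ℤ_[p], dp_zc_E p s ^ (p - 1) = (a : ℤ_[p]) ^ (p - 1) := by
  obtain ⟨u, hu⟩ := dp_zc_isUnit h
  obtain ⟨t, ht⟩ := com_fermat u
  obtain ⟨s, hs⟩ := dp_zc_surj hp2 t
  obtain ⟨r, hr⟩ := dp_zc_isUnit (dp_zc_nd_pred (p := p))
  refine ⟨(r⁻¹ : (ℤ_[p])ˣ) * s, ?_⟩
  rw [← dp_zc_E_pow, ← hr, ← mul_assoc, Units.mul_inv, one_mul, hs, ← ht, hu]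

theorem dp_zc_uniq (hp2 : p ≠ 2) {s t x : ℤ_[p]} (hs : dp_zc_E p s ^ (p - 1) = x)
    (ht : dp_zc_E p t ^ (p - 1) = x) : s = t := by
  have h := dp_zc_pow_sub hp2 s t
  rw [hs, ht, sub_self, norm_zero] at h
  have h3 : ‖s - t‖ = 0 := by
    rcases mul_eq_zero.1 h.symm with h | h
    · exact h
    · exact absurd h dp_zc_inv_pos.ne'
  exact sub_eq_zero.1 (norm_eq_zero.1 h3)

end DP

end GH
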